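import Pool.Agent.TH796.AL.Stms

set_option autoImplicit false

/-!
# Project AL, job SU: independence of the character over the negligible field (helper113)
Port of `Pool/Agent/TH932/S2/SU.lean`.
-/

namespace Pool.Agent.TH113.AL

open Filter Topology Pool.Agent.TH932.Germs Pool.Agent.TH932.Chi
open Pool.Agent.TH796.AL

section basic

variable {m : ℕ} (B : Base m)

lemma P_ne (i : Fin m) : (B.P i : ℚ) ≠ 0 := by
  have := B.two i
  have : B.P i ≠ 0 := by omega
  exact_mod_cast this

lemma log_pos (i : Fin m) : 0 < Real.log (B.P i) :=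
  Real.log_pos (by exact_mod_cast B.two i)

/-- the product formula -/
lemma lv_sum (g : Fin m → ℝ) : ∑ v, lv B v g = 0 := by
  rw [Fintype.sum_option]
  simp only [lv]
  ring

variable {L : ℕ → ℝ} (hL : Tendsto L atTop atTop)

lemma ch_add (g h : Fin m → ℝ) : ch B hL (g + h) = ch B hL g * ch B hL h := by
  unfold ch; rw [ofAdd_add, map_mul]

lemma ch_zero : ch B hL 0 = 1 := by unfold ch; rw [ofAdd_zero, map_one]

lemma ch_ne (g : Fin m → ℝ) : ch B hL g ≠ 0 := by
  intro h
  have := ch_add B hL g (-g)
  rw [add_neg_cancel, ch_zero, h, zero_mul] at this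
  exact one_ne_zero this

lemma ev_single (g : Fin m → ℝ) (a : KK L hL) :
    ev B hL (AddMonoidAlgebra.single g a) = (a : GG) * ch B hL g := by
  unfold ev
  change AddMonoidAlgebra.liftNC _ _ _ = _
  rw [AddMonoidAlgebra.liftNC_single]
  rfl

lemma sum_single (f : Rg m hL) :
    f = ∑ g ∈ f.coeff.support, AddMonoidAlgebra.single g (f.coeff g) := by
  apply AddMonoidAlgebra.coeff_injective
  ext x
  have h : (∑ g ∈ f.coeff.support, AddMonoidAlgebra.single g (f.coeff g)).coeff x
      = ∑ g ∈ f.coeff.support, (AddMonoidAlgebra.single g (f.coeff g)).coeff x := by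
    classical
    induction f.coeff.support using Finset.induction_on with
    | empty => simp
    | insert a s ha ih => rw [Finset.sum_insert ha, Finset.sum_insert ha,
        AddMonoidAlgebra.coeff_add, Finsupp.add_apply, ih]
  rw [h]
  by_cases hx : x ∈ f.coeff.support
  · rw [Finset.sum_eq_single x]
    · rw [AddMonoidAlgebra.coeff_single, Finsupp.single_eq_same]
    · intro b _ hb
      rw [AddMonoidAlgebra.coeff_single, Finsupp.single_eq_of_ne (Ne.symm hb)]
    · intro h; exact absurd hx h
  · rw [Finset.sum_eq_zero]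
    · exact congrArg Subtype.val (Finsupp.notMem_support_iff.1 hx)
    · intro b hb
      rw [AddMonoidAlgebra.coeff_single, Finsupp.single_eq_of_ne]
      rintro rfl; exact hx hb

lemma ev_sum (f : Rg m hL) :
    ev B hL f = ∑ g ∈ f.coeff.support, ((f.coeff g : KK L hL) : GG) * ch B hL g := by
  conv_lhs => rw [sum_single hL f]
  rw [map_sum]
  exact Finset.sum_congr rfl fun g _ => ev_single B hL g _

lemma one_le_exp_mul {ε l : ℝ} (hε : 0 < ε) (hl : 0 ≤ l) : |((1 : ℤ) : ℝ)| ≤ Real.exp (ε * l) := by
  simp only [Int.cast_one, abs_one]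
  exact Real.one_le_exp (by positivity)

/-- the floors are near, at all places -/
lemma near_all (g : Fin m → ℝ) {ε : ℝ} (hε : 0 < ε) : ∀ᶠ n in (UU : Filter ℕ), ∀ i,
    |((⌊ell hL (g i) n⌋ : ℤ) : ℝ) * Real.log (B.P i) - g i * Real.log (B.P i) * L n| ≤
      ε * L n := by
  rw [Filter.eventually_all]
  intro i
  have hl := log_pos B i
  filter_upwards [ev_of_atTop (fl_near hL (g i) (show 0 < ε / Real.log (B.P i) by positivity))]
    with n h1
  have h2 : ((⌊ell hL (g i) n⌋ : ℤ) : ℝ) * Real.log (B.P i) - g i * Real.log (B.P i) * L n =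
      (((⌊ell hL (g i) n⌋ : ℤ) : ℝ) - g i * L n) * Real.log (B.P i) := by ring
  rw [h2, abs_mul, abs_of_pos hl]
  calc |((⌊ell hL (g i) n⌋ : ℤ) : ℝ) - g i * L n| * Real.log (B.P i)
      ≤ ε / Real.log (B.P i) * L n * Real.log (B.P i) := mul_le_mul_of_nonneg_right h1 hl.le
    _ = ε * L n := by field_simp

lemma ch_some (i : Fin m) (g : Fin m → ℝ) :
    ch B hL g ∈ SS L (Rb (B.P i) (cop (B.P i))) (g i * Real.log (B.P i)) := by
  classical
  rw [ch_eq, mem_SS]
  intro ε hε
  filter_upwards [near_all B hL g hε, L_nonneg hL] with n h1 h2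
  refine ⟨1, ∏ j ∈ Finset.univ.erase i, (B.P j : ℤ) ^ (-⌊ell hL (g j) n⌋).toNat,
    ∏ j ∈ Finset.univ.erase i, (B.P j : ℤ) ^ (⌊ell hL (g j) n⌋).toNat, ⌊ell hL (g i) n⌋,
    one_ne_zero, one_le_exp_mul hε h2, ?_, ?_, ?_⟩
  · refine IsCoprime.prod_left fun j hj => ?_
    exact IsCoprime.pow_left (B.cop j i (Finset.ne_of_mem_erase hj))
  · push_cast
    rw [← Finset.mul_prod_erase Finset.univ (fun j => (B.P j : ℚ) ^ ⌊ell hL (g j) n⌋)
      (Finset.mem_univ i), one_mul]
    have h3 : (∏ j ∈ Finset.univ.erase i, (B.P j : ℚ) ^ (-⌊ell hL (g j) n⌋).toNat) *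
        ∏ j ∈ Finset.univ.erase i, (B.P j : ℚ) ^ ⌊ell hL (g j) n⌋ =
        ∏ j ∈ Finset.univ.erase i, (B.P j : ℚ) ^ (⌊ell hL (g j) n⌋).toNat := by
      rw [← Finset.prod_mul_distrib]
      refine Finset.prod_congr rfl fun j _ => ?_
      rw [← zpow_natCast, ← zpow_add₀ (P_ne B j), ← zpow_natCast]
      congr 1
      omega
    rw [← h3]
    ring
  · have h3 := (abs_le.1 (h1 i)).1
    linarith

lemma ch_none (g : Fin m → ℝ) :
    ch B hL g ∈ SS L Rinf (-∑ i, g i * Real.log (B.P i)) := by
  rw [ch_eq, mem_SS]
  intro ε hε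
  have hε1 : 0 < ε / ((m : ℝ) + 1) := by positivity
  filter_upwards [near_all B hL g hε1, L_nonneg hL] with n h1 h2
  unfold Rinf
  push_cast
  have h3 : ∀ i, (B.P i : ℝ) ^ ⌊ell hL (g i) n⌋ =
      Real.exp (((⌊ell hL (g i) n⌋ : ℤ) : ℝ) * Real.log (B.P i)) := fun i => zpow_exp (B.two i) _
  rw [Finset.prod_congr rfl (fun i _ => h3 i), ← Real.exp_sum, abs_of_pos (Real.exp_pos _)]
  apply Real.exp_le_exp.2
  have h4 : ∑ i, ((⌊ell hL (g i) n⌋ : ℤ) : ℝ) * Real.log (B.P i) ≤
      ∑ i, (g i * Real.log (B.P i) * L n + ε / ((m : ℝ) + 1) * L n) :=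
    Finset.sum_le_sum fun i _ => by
      have := (abs_le.1 (h1 i)).2
      linarith
  rw [Finset.sum_add_distrib, ← Finset.sum_mul, Finset.sum_const, Finset.card_univ,
    Fintype.card_fin, nsmul_eq_mul] at h4
  have h5 : (m : ℝ) * (ε / ((m : ℝ) + 1) * L n) ≤ ε * L n := by
    have h6 : (m : ℝ) * (ε / ((m : ℝ) + 1) * L n) = (m / ((m : ℝ) + 1)) * (ε * L n) := by ring
    rw [h6]
    apply mul_le_of_le_one_left (by positivity)
    rw [div_le_one (by positivity)]
    linarith
  linarith

/-- the valuations of the character -/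
lemma ch_mem (v : Option (Fin m)) (g : Fin m → ℝ) : ch B hL g ∈ Sv B L v (lv B v g) := by
  cases v
  · exact ch_none B hL g
  · exact ch_some B hL _ g

lemma ch_sint (g : Fin m → ℝ) : Sint B L (ch B hL g) := by
  refine ⟨-∑ i, |g i * Real.log (B.P i)|, ?_⟩
  rw [ch_eq, mem_SS]
  intro ε hε
  filter_upwards [near_all B hL g hε, L_nonneg hL] with n h1 h2
  refine ⟨1, 1, fun i => ⌊ell hL (g i) n⌋, one_ne_zero, one_le_exp_mul hε h2, by simp, ?_⟩
  intro i
  have h3 := (abs_le.1 (h1 i)).1
  have h4 : |g i * Real.log (B.P i)| ≤ ∑ i, |g i * Real.log (B.P i)| :=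
    Finset.single_le_sum (f := fun i => |g i * Real.log (B.P i)|) (fun j _ => abs_nonneg _)
      (Finset.mem_univ i)
  have h5 := neg_abs_le (g i * Real.log (B.P i))
  have h6 : (-∑ i, |g i * Real.log (B.P i)|) * L n ≤ g i * Real.log (B.P i) * L n :=
    mul_le_mul_of_nonneg_right (by linarith) h2
  linarith

end basic

section
variable {r : ℕ} (B : Base r) {L : ℕ → ℝ} (hL : Tendsto L atTop atTop)

/-- the element of the group ring with coefficients `c` at the points `g` -/
lemma coeff_sum {m : ℕ} (g : Fin m → Fin r → ℝ) (hg : Function.Injective g) (c : Fin m → KK L hL)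
    (j : Fin m) :
    (∑ i, AddMonoidAlgebra.single (g i) (c i) : Rg r hL).coeff (g j) = c j := by
  have h : ∀ s : Finset (Fin m), (∑ i ∈ s, AddMonoidAlgebra.single (g i) (c i) :
      Rg r hL).coeff (g j) = if j ∈ s then c j else 0 := by
    intro s
    induction s using Finset.induction_on with
    | empty => simp
    | insert a s ha ih =>
      rw [Finset.sum_insert ha, AddMonoidAlgebra.coeff_add, Finsupp.add_apply, ih,
        AddMonoidAlgebra.coeff_single]
      by_cases haj : a = j
      · subst haj
        rw [Finsupp.single_eq_same, if_neg ha, add_zero, if_pos (Finset.mem_insert_self _ _)]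
      · rw [Finsupp.single_eq_of_ne (fun h => haj (hg h.symm)), zero_add]
        have : (j ∈ insert a s) ↔ j ∈ s := by
          rw [Finset.mem_insert]
          exact ⟨fun h => h.resolve_left fun h => haj h.symm, Or.inr⟩
        simp only [this]
  rw [h, if_pos (Finset.mem_univ _)]

lemma support_sum {m : ℕ} (g : Fin m → Fin r → ℝ) (c : Fin m → KK L hL) :
    (∑ i, AddMonoidAlgebra.single (g i) (c i) : Rg r hL).coeff.support.card ≤ m := by
  classical
  have h : ∀ s : Finset (Fin m), (∑ i ∈ s, AddMonoidAlgebra.single (g i) (c i) :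
      Rg r hL).coeff.support ⊆ s.image g := by
    intro s
    induction s using Finset.induction_on with
    | empty => simp
    | insert a s ha ih =>
      rw [Finset.sum_insert ha, AddMonoidAlgebra.coeff_add]
      refine Finsupp.support_add.trans ?_
      rw [Finset.image_insert, AddMonoidAlgebra.coeff_single]
      refine Finset.union_subset ?_ (ih.trans (Finset.subset_insert _ _))
      refine Finsupp.support_single_subset.trans ?_
      intro x hx
      rw [Finset.mem_singleton] at hx
      rw [hx]
      exact Finset.mem_insert_self _ _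
  refine (Finset.card_le_card (h Finset.univ)).trans (Finset.card_image_le.trans ?_)
  simp

/-- proper subfamilies are independent -/
lemma indep {m : ℕ}
    (ih : ∀ f : Rg r hL, f.coeff.support.card < m + 1 → ev B hL f = 0 → f = 0)
    (g : Fin m → Fin r → ℝ) (hg : Function.Injective g) (c : Fin m → KK L hL)
    (h : ∑ i, (c i : GG) * ch B hL (g i) = 0) : ∀ i, c i = 0 := by
  intro i
  have h1 : (∑ i, AddMonoidAlgebra.single (g i) (c i) : Rg r hL) = 0 := by
    refine ih _ (Nat.lt_succ_of_le (support_sum hL g c)) ?_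
    rw [map_sum, ← h]
    exact Finset.sum_congr rfl fun i _ => ev_single B hL _ _
  have h2 := coeff_sum hL g hg c i
  rw [h1] at h2
  rw [← h2]
  rfl

end

theorem su (h : MovQStmt) : SUStmt := by
  classical
  intro r B L hL
  have main : ∀ n : ℕ, ∀ f : Rg r hL, f.coeff.support.card = n → ev B hL f = 0 → f = 0 := by
    intro n
    induction n using Nat.strong_induction_on with
    | _ n IH =>
    intro f hcard hf
    by_contra hne
    obtain ⟨m, rfl⟩ : ∃ m, n = m + 1 := by
      refine ⟨n - 1, ?_⟩
      have h0 : n ≠ 0 := by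
        rintro rfl
        rw [Finset.card_eq_zero, Finsupp.support_eq_empty] at hcard
        apply hne
        apply AddMonoidAlgebra.coeff_injective
        rw [hcard]
        rfl
      omega
    have ih : ∀ f : Rg r hL, f.coeff.support.card < m + 1 → ev B hL f = 0 → f = 0 :=
      fun f hf1 hf2 => IH _ hf1 f rfl hf2
    set e : f.coeff.support ≃ Fin (m + 1) := Finset.equivFinOfCardEq hcard with he
    set g : Fin (m + 1) → Fin r → ℝ := fun i => (e.symm i : Fin r → ℝ) with hgdef
    have hg : Function.Injective g := fun i j hij => e.symm.injective (Subtype.ext hij)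
    set κ : Fin (m + 1) → KK L hL := fun i => f.coeff (g i) with hκdef
    have hκ : ∀ i, κ i ≠ 0 := fun i => Finsupp.mem_support_iff.1 (e.symm i).2
    have hrel : ∑ i, (κ i : GG) * ch B hL (g i) = 0 := by
      have h1 := ev_sum B hL f
      rw [hf] at h1
      rw [h1]
      rw [← Finset.sum_coe_sort f.coeff.support]
      exact Equiv.sum_comp e.symm (fun x : f.coeff.support =>
        ((f.coeff (x : Fin r → ℝ) : KK L hL) : GG) * ch B hL (x : Fin r → ℝ))
    -- minima
    have hmin : ∀ v : Option (Fin r), ∃ i : Fin (m + 1), ∀ j, lv B v (g i) ≤ lv B v (g j) :=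
      fun v => Finite.exists_min fun i => lv B v (g i)
    choose iv hiv using hmin
    have hsub : ∀ i₀ : Fin (m + 1), Function.Injective fun j : Fin m => g (i₀.succAbove j) :=
      fun i₀ => hg.comp Fin.succAbove_right_injective
    have key := h r B L hL (Fin m) inferInstance
      (fun v j => ch B hL (g ((iv v).succAbove j)))
      (fun v j => lv B v (g ((iv v).succAbove j)))
      (fun v c hc => indep B hL ih _ (hsub (iv v)) c hc) ?_
      (fun v i => ch_mem B hL v _) (fun i => ch_sint B hL _)
    · -- sums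
      have h1 : ∀ v, ∑ j, lv B v (g ((iv v).succAbove j)) =
          ∑ i, lv B v (g i) - lv B v (g (iv v)) := by
        intro v
        rw [Fin.sum_univ_succAbove (fun i => lv B v (g i)) (iv v)]
        ring
      have h2 : ∑ v, ∑ i, lv B v (g i) = 0 := by
        rw [Finset.sum_comm]
        exact Finset.sum_eq_zero fun i _ => lv_sum B (g i)
      have h3 : 0 ≤ ∑ v, lv B v (g (iv v)) := by
        simp only [h1] at key
        rw [Finset.sum_sub_distrib, h2] at key
        linarith
      have h4 : ∀ i v, lv B v (g i) = lv B v (g (iv v)) := by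
        intro i
        have h5 : ∑ v, (lv B v (g i) - lv B v (g (iv v))) = 0 := by
          refine le_antisymm ?_ (Finset.sum_nonneg fun v _ => sub_nonneg.2 (hiv v i))
          rw [Finset.sum_sub_distrib, lv_sum]
          linarith
        intro v
        have h6 := (Finset.sum_eq_zero_iff_of_nonneg
          (fun v _ => sub_nonneg.2 (hiv v i))).1 h5 v (Finset.mem_univ v)
        linarith
      have h7 : ∀ i j, g i = g j := by
        intro i j
        funext a
        have hP := (h4 i (some a)).trans (h4 j (some a)).symm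
        simp only [lv] at hP
        exact mul_right_cancel₀ (log_pos B a).ne' hP
      have hm : m = 0 := by
        by_contra hm
        have h8 := hg (h7 0 (Fin.last m))
        have h9 := congrArg Fin.val h8
        simp only [Fin.val_zero, Fin.val_last] at h9
        exact hm h9.symm
      subst hm
      rw [Fin.sum_univ_one] at hrel
      rcases mul_eq_zero.1 hrel with h8 | h8
      · exact hκ 0 (Subtype.ext h8)
      · exact ch_ne B hL _ h8
    · -- the span
      intro v i
      by_cases hk : (iv v).succAbove i = iv none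
      · refine ⟨fun j => -(κ ((iv none).succAbove j) / κ (iv none)), ?_⟩
        rw [hk]
        have h0 : ((κ (iv none) : KK L hL) : GG) ≠ 0 := by
          intro h0
          exact hκ _ (Subtype.ext h0)
        rw [Fin.sum_univ_succAbove _ (iv none)] at hrel
        have h1 : ch B hL (g (iv none)) = -(∑ j, (κ ((iv none).succAbove j) : GG) *
            ch B hL (g ((iv none).succAbove j))) / (κ (iv none) : GG) := by
          rw [eq_div_iff h0]
          linear_combination hrel
        rw [h1, neg_div, Finset.sum_div, ← Finset.sum_neg_distrib]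
        refine Finset.sum_congr rfl fun j _ => ?_
        push_cast
        ring
      · obtain ⟨j₀, hj₀⟩ := Fin.exists_succAbove_eq hk
        refine ⟨Pi.single j₀ 1, ?_⟩
        rw [Finset.sum_eq_single j₀]
        · rw [Pi.single_eq_same, hj₀]
          simp
        · intro b _ hb
          rw [Pi.single_eq_of_ne hb]
          simp
        · intro h0
          exact absurd (Finset.mem_univ _) h0
  intro f hf
  exact main _ f rfl hf

end Pool.Agent.TH113.AL
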