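import Pool.Agent.TH91.LG.Defs

/-!
Derivative of the adjoint representation (job 1257 = LG-1d, for MP_87965e_co).
-/

set_option autoImplicit false

namespace Pool.Agent.TH91.LG

open Topology Filter
open scoped ContDiff Manifold

variable {G : Type*} [Group G] [TopologicalSpace G] [IsTopologicalGroup G] {E : Type*}
  [NormedAddCommGroup E] [NormedSpace ℝ E] [FiniteDimensional ℝ E] (L : LocLie G E)

omit [IsTopologicalGroup G] [FiniteDimensional ℝ E] in
theorem LocLie.zero_mem : (0 : E) ∈ L.e.target := by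
  rw [← L.map_one]; exact L.e.map_source L.one_mem

omit [IsTopologicalGroup G] [FiniteDimensional ℝ E] in
theorem LocLie.symm_zero : L.e.symm 0 = 1 := by
  rw [← L.map_one]; exact L.e.left_inv L.one_mem

omit [FiniteDimensional ℝ E] in
/-- smoothness of the conjugation in the chart -/
theorem LocLie.conj_smooth :
    ContDiffAt ℝ ∞ (fun p : E × E => L.e (L.e.symm p.1 * L.e.symm p.2 * (L.e.symm p.1)⁻¹)) (0, 0) := by
  have h0 := L.symm_zero
  have hc : ContinuousAt L.e.symm 0 := L.e.symm.continuousAt L.zero_mem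
  have hc1 : ContinuousAt (fun p : E × E => L.e.symm p.1) (0, 0) :=
    ContinuousAt.comp (f := fun p : E × E => p.1) (g := L.e.symm) (by simpa using hc)
      continuousAt_fst
  have hc2 : ContinuousAt (fun p : E × E => L.e.symm p.2) (0, 0) :=
    ContinuousAt.comp (f := fun p : E × E => p.2) (g := L.e.symm) (by simpa using hc)
      continuousAt_snd
  -- the smooth composition
  have hmu0 : L.e (L.e.symm (0 : E) * L.e.symm (0 : E)) = 0 := by rw [h0, mul_one, L.map_one]
  have hnu0 : L.e (L.e.symm (0 : E))⁻¹ = 0 := by rw [h0, inv_one, L.map_one]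
  have h1 : ContDiffAt ℝ ∞ (fun p : E × E => L.e (L.e.symm p.1)⁻¹) (0, 0) :=
    ContDiffAt.comp (g := fun x : E => L.e (L.e.symm x)⁻¹) (f := fun p : E × E => p.1) (0, 0)
      L.inv contDiffAt_fst
  have h2 : ContDiffAt ℝ ∞ (fun p : E × E => (L.e (L.e.symm p.1 * L.e.symm p.2),
      L.e (L.e.symm p.1)⁻¹)) (0, 0) := L.mul.prodMk h1
  have h3 : ContDiffAt ℝ ∞ (fun p : E × E => L.e (L.e.symm (L.e (L.e.symm p.1 * L.e.symm p.2)) *
      L.e.symm (L.e (L.e.symm p.1)⁻¹))) (0, 0) := by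
    refine ContDiffAt.comp (g := fun p : E × E => L.e (L.e.symm p.1 * L.e.symm p.2))
      (f := fun p : E × E => (L.e (L.e.symm p.1 * L.e.symm p.2), L.e (L.e.symm p.1)⁻¹)) (0, 0)
      ?_ h2
    simp only [hmu0, hnu0]
    exact L.mul
  refine h3.congr_of_eventuallyEq ?_
  have s1 : ∀ᶠ p : E × E in 𝓝 (0, 0), L.e.symm p.1 * L.e.symm p.2 ∈ L.e.source := by
    apply (hc1.mul hc2).eventually_mem
    apply L.e.open_source.mem_nhds
    change L.e.symm 0 * L.e.symm 0 ∈ L.e.source
    rw [h0, mul_one]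
    exact L.one_mem
  have s2 : ∀ᶠ p : E × E in 𝓝 (0, 0), (L.e.symm p.1)⁻¹ ∈ L.e.source := by
    apply hc1.inv.eventually_mem
    apply L.e.open_source.mem_nhds
    change (L.e.symm 0)⁻¹ ∈ L.e.source
    rw [h0, inv_one]
    exact L.one_mem
  filter_upwards [s1, s2] with p hp1 hp2
  rw [L.e.left_inv hp1, L.e.left_inv hp2]

set_option linter.unusedSectionVars false in
theorem LocLie.exists_ad : ∃ ad : E →ₗ[ℝ] E →ₗ[ℝ] E, ∀ (γ : ℝ → G) (X Y : E), L.T γ X →
    HasDerivAt (fun t => L.Ad (γ t) Y) (ad X Y) 0 := by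
  obtain ⟨K, hK⟩ : ∃ K : E × E → E, K = fun p : E × E =>
    L.e (L.e.symm p.1 * L.e.symm p.2 * (L.e.symm p.1)⁻¹) := ⟨_, rfl⟩
  have hs : ContDiffAt ℝ ∞ K (0, 0) := by rw [hK]; exact L.conj_smooth
  have hd : ContDiffAt ℝ 1 (fderiv ℝ K) (0, 0) := hs.fderiv_right (by norm_cast)
  have hev : ∀ᶠ p in 𝓝 ((0 : E), (0 : E)), ContDiffAt ℝ 1 K p :=
    (hs.of_le (by norm_cast)).eventually (by norm_cast)
  -- the family of differentials
  let F : E → (E →L[ℝ] E) := fun a => (fderiv ℝ K (a, 0)).comp (ContinuousLinearMap.inr ℝ E E)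
  have hF : DifferentiableAt ℝ F 0 := by
    have h1 : DifferentiableAt ℝ (fun a : E => fderiv ℝ K (a, 0)) 0 := by
      refine DifferentiableAt.comp (g := fderiv ℝ K) (f := fun a : E => ((a, 0) : E × E)) 0
        (hd.differentiableAt (by norm_num)) ?_
      exact differentiableAt_id.prodMk (differentiableAt_const _)
    exact h1.clm_comp (differentiableAt_const _)
  obtain ⟨F', hF'⟩ := hF
  refine ⟨LinearMap.mk₂ ℝ (fun X Y => F' X Y) (by intros; simp) (by intros; simp)
    (by intros; simp) (by intros; simp), ?_⟩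
  rintro γ X Y ⟨hγ0, hγc, hγd⟩
  have he0 : L.e (γ 0) = 0 := by rw [hγ0, L.map_one]
  have h1 : HasDerivAt (fun t => F (L.e (γ t))) (F' X) 0 := by
    refine HasFDerivAt.comp_hasDerivAt (l := F) (f := fun t => L.e (γ t)) 0 ?_ hγd
    rw [he0]; exact hF'
  have h2 : HasDerivAt (fun t => F (L.e (γ t)) Y) (F' X Y) 0 :=
    ((ContinuousLinearMap.apply ℝ E Y).hasFDerivAt.comp_hasDerivAt 0 h1)
  refine h2.congr_of_eventuallyEq ?_
  have e1 : ∀ᶠ t in 𝓝 (0 : ℝ), γ t ∈ L.e.source := by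
    apply hγc.eventually_mem
    apply L.e.open_source.mem_nhds
    rw [hγ0]; exact L.one_mem
  have e2 : ∀ᶠ t in 𝓝 (0 : ℝ), ContDiffAt ℝ 1 K (L.e (γ t), 0) := by
    have hcc : ContinuousAt (fun t => ((L.e (γ t), 0) : E × E)) 0 :=
      (hγd.continuousAt).prodMk continuousAt_const
    have : Tendsto (fun t => ((L.e (γ t), 0) : E × E)) (𝓝 0) (𝓝 (0, 0)) := by
      have := hcc.tendsto
      rwa [he0] at this
    exact this.eventually hev
  filter_upwards [e1, e2] with t ht1 ht2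
  have h3 : L.Ad (γ t) = F (L.e (γ t)) := by
    change fderiv ℝ (fun x : E => L.e (γ t * L.e.symm x * (γ t)⁻¹)) 0 = _
    have h4 : (fun x : E => L.e (γ t * L.e.symm x * (γ t)⁻¹)) =
        fun x : E => K (L.e (γ t), x) := by
      rw [hK]
      funext x
      simp only [L.e.left_inv ht1]
    rw [h4]
    have h5 : HasFDerivAt K (fderiv ℝ K (L.e (γ t), 0)) (L.e (γ t), 0) :=
      (ht2.differentiableAt (by norm_num)).hasFDerivAt
    have h6 : HasFDerivAt (fun x : E => ((L.e (γ t), x) : E × E))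
        (ContinuousLinearMap.inr ℝ E E) 0 := hasFDerivAt_prodMk_right _ _
    exact (h5.comp (0 : E) h6).fderiv
  rw [h3]

end Pool.Agent.TH91.LG
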