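import Pool.Agent.TH332.DW.Facts
import Pool.Agent.TH332.DW.Grad

set_option autoImplicit false

namespace Pool.TH332.DW
open Metric Set Filter Topology

theorem calka {X : Type*} (S : Set X) (d : X → X → ℝ) (hnn : ∀ x y, 0 ≤ d x y)
    (hs : ∀ x y, d x y = d y x)
    (ht : ∀ x ∈ S, ∀ y ∈ S, ∀ z ∈ S, d x z ≤ d x y + d y z) {x₀ : X} (hx₀ : x₀ ∈ S)
    (htb : ∀ R : ℝ, ∀ δ : ℝ, 0 < δ → ∃ N : Finset X, ↑N ⊆ S ∧
      ∀ z ∈ S, d x₀ z ≤ R → ∃ n ∈ N, d z n < δ)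
    (F : X → X) (hm : MapsTo F S S) (hF : ∀ x ∈ S, ∀ y ∈ S, d (F x) (F y) ≤ d x y)
    (R : ℝ) (hfreq : ∃ᶠ n in atTop, d x₀ (F^[n] x₀) ≤ R) :
    ∃ R' : ℝ, ∀ n : ℕ, d x₀ (F^[n] x₀) ≤ R' := by
  classical
  obtain ⟨z, hz⟩ : ∃ z : ℕ → X, ∀ n, z n = F^[n] x₀ := ⟨_, fun _ => rfl⟩
  have hzS : ∀ n, z n ∈ S := fun n => by rw [hz]; exact hm.iterate n hx₀
  have hit : ∀ r : ℕ, ∀ x ∈ S, ∀ y ∈ S, d (F^[r] x) (F^[r] y) ≤ d x y := by
    intro r
    induction r with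
    | zero => intro x _ y _; exact le_rfl
    | succ r ih =>
      intro x hx y hy
      rw [Function.iterate_succ_apply', Function.iterate_succ_apply']
      exact (hF _ (hm.iterate r hx) _ (hm.iterate r hy)).trans (ih x hx y hy)
  have hadd : ∀ m r, z (m + r) = F^[r] (z m) := by
    intro m r
    rw [hz, hz, add_comm, Function.iterate_add_apply]
  have hadd' : ∀ m r, z (m + r) = F^[m] (z r) := by
    intro m r
    rw [hz, hz, Function.iterate_add_apply]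
  rw [frequently_atTop] at hfreq
  obtain ⟨m0, _, hm0⟩ := hfreq 0
  have hR : 0 ≤ R := (hnn _ _).trans hm0
  obtain ⟨N, hNS, hN⟩ := htb (R + 1) (1 / 2) (by norm_num)
  -- return times attached to net points
  have hret : ∀ ν : X, ∃ r : ℕ, 1 ≤ r ∧
      ((∃ m, d x₀ (z m) ≤ R + 1 ∧ d (z m) ν < 1 / 2) →
        ∃ m', d (z m') ν < 1 / 2 ∧ d x₀ (z (m' + r)) ≤ R) := by
    intro ν
    by_cases h : ∃ m, d x₀ (z m) ≤ R + 1 ∧ d (z m) ν < 1 / 2
    · obtain ⟨m', _, h2⟩ := h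
      obtain ⟨k, hk1, hk2⟩ := hfreq (m' + 1)
      refine ⟨k - m', by omega, fun _ => ⟨m', h2, ?_⟩⟩
      have e : m' + (k - m') = k := by omega
      rw [e, hz]
      exact hk2
    · exact ⟨1, le_rfl, fun h' => absurd h' h⟩
  choose r hr1 hr2 using hret
  obtain ⟨K, hK⟩ : ∃ K, K = ∑ ν ∈ N, r ν := ⟨_, rfl⟩
  have hstep : ∀ m, d x₀ (z m) ≤ R + 1 → ∃ j, 1 ≤ j ∧ j ≤ K ∧ d x₀ (z (m + j)) ≤ R + 1 := by
    intro m hmT
    obtain ⟨ν, hν, hν2⟩ := hN (z m) (hzS m) hmT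
    obtain ⟨m', h1, h2⟩ := hr2 ν ⟨m, hmT, hν2⟩
    refine ⟨r ν, hr1 ν, ?_, ?_⟩
    · rw [hK]
      exact Finset.single_le_sum (f := r) (fun _ _ => Nat.zero_le _) hν
    · have hνS : ν ∈ S := hNS hν
      have h3 : d (z m') (z m) < 1 := by
        have h4 := ht (z m') (hzS m') ν hνS (z m) (hzS m)
        rw [hs ν (z m)] at h4
        linarith
      have h5 : d (z (m' + r ν)) (z (m + r ν)) ≤ d (z m') (z m) := by
        rw [hadd, hadd]
        exact hit _ _ (hzS m') _ (hzS m)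
      have h6 := ht x₀ hx₀ (z (m' + r ν)) (hzS _) (z (m + r ν)) (hzS _)
      linarith
  have hcov : ∀ i : ℕ, ∃ m, d x₀ (z m) ≤ R + 1 ∧ m ≤ m0 + i ∧ m0 + i < m + (K + 1) := by
    intro i
    induction i with
    | zero =>
      refine ⟨m0, ?_, by omega, by omega⟩
      rw [hz]; linarith
    | succ i ih =>
      obtain ⟨m, h1, h2, h3⟩ := ih
      by_cases h4 : m0 + (i + 1) < m + (K + 1)
      · exact ⟨m, h1, by omega, h4⟩
      · obtain ⟨j, hj1, hj2, hj3⟩ := hstep m h1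
        exact ⟨m + j, hj3, by omega, by omega⟩
  obtain ⟨B, hB⟩ : ∃ B, B = ∑ i ∈ Finset.range (K + 1 + m0), d x₀ (z i) := ⟨_, rfl⟩
  have hBle : ∀ i, i < K + 1 + m0 → d x₀ (z i) ≤ B := by
    intro i hi
    rw [hB]
    exact Finset.single_le_sum (f := fun i => d x₀ (z i)) (fun _ _ => hnn _ _)
      (Finset.mem_range.2 hi)
  refine ⟨R + 1 + B, fun n => ?_⟩
  rw [← hz]
  by_cases hn : n < m0
  · have := hBle n (by omega)
    linarith
  · obtain ⟨i, rfl⟩ : ∃ i, n = m0 + i := ⟨n - m0, by omega⟩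
    obtain ⟨m, h1, h2, h3⟩ := hcov i
    obtain ⟨j, hj⟩ : ∃ j, m0 + i = m + j := ⟨m0 + i - m, by omega⟩
    rw [hj]
    have h4 : d (z m) (z (m + j)) ≤ d x₀ (z j) := by
      rw [hadd' m j]
      have e : z m = F^[m] x₀ := hz m
      rw [e]
      exact hit m x₀ hx₀ (z j) (hzS j)
    have h5 := ht x₀ hx₀ (z m) (hzS m) (z (m + j)) (hzS _)
    have h6 := hBle j (by omega)
    linarith

end Pool.TH332.DW
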