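import Pool.Agent.TH332.DW.Facts
import Pool.Agent.TH332.DW.Grad

set_option autoImplicit false

namespace Pool.TH332.DW.B2c
open Metric Set Filter Topology Pool.TH332.DW
variable {E : Type*} [NormedAddCommGroup E] [NormedSpace ℂ E] {Ω : Set E}

/-- one disc of parameter `r` through `z` and `w` -/
def OneDisc (Ω : Set E) (z w : E) (r : ℝ) : Prop :=
  0 ≤ r ∧ r < 1 ∧ ∃ φ : ℂ → E, DifferentiableOn ℂ φ (ball 0 1) ∧ MapsTo φ (ball 0 1) Ω ∧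
    φ 0 = z ∧ φ (r : ℂ) = w

lemma OneDisc.combo (hc : Convex ℝ Ω) {z z' w : E} {r : ℝ} (h : OneDisc Ω z w r)
    (h' : OneDisc Ω z' w r) {a b : ℝ} (ha : 0 ≤ a) (hb : 0 ≤ b) (hab : a + b = 1) :
    OneDisc Ω (a • z + b • z') w r := by
  obtain ⟨h0, h1, φ, hφ, hm, e0, er⟩ := h
  obtain ⟨_, _, φ', hφ', hm', e0', er'⟩ := h'
  refine ⟨h0, h1, fun ζ => a • φ ζ + b • φ' ζ, ?_, ?_, ?_, ?_⟩
  · exact (hφ.const_smul a).add (hφ'.const_smul b)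
  · intro ζ hζ
    exact hc (hm hζ) (hm' hζ) ha hb hab
  · simp only [e0, e0']
  · simp only [er, er']
    rw [← add_smul, hab, one_smul]

lemma OneDisc.kob_le (hK : KobFacts Ω) {z w : E} {r : ℝ} (h : OneDisc Ω z w r) :
    kob Ω z w ≤ pdist 0 (r : ℂ) := by
  obtain ⟨h0, h1, φ, hφ, hm, e0, er⟩ := h
  have h2 := hK.disc φ 0 1 one_pos hφ hm 0 (by simp) (r : ℂ)
    (by
      rw [mem_ball_zero_iff, Complex.norm_real, Real.norm_eq_abs, abs_of_nonneg h0]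
      exact h1)
  rw [e0, er] at h2
  simpa using h2

lemma OneDisc.map {z w : E} {r : ℝ} (h : OneDisc Ω z w r) {F : E → E}
    (hF : DifferentiableOn ℂ F Ω) (hmF : MapsTo F Ω Ω) : OneDisc Ω (F z) (F w) r := by
  obtain ⟨h0, h1, φ, hφ, hm, e0, er⟩ := h
  refine ⟨h0, h1, fun ζ => F (φ ζ), hF.comp hφ hm, hmF.comp hm, ?_, ?_⟩
  · simp only [e0]
  · simp only [er]

/-- points at distance zero are equal -/
lemma eq_of_kob_zero (hb : Bornology.IsBounded Ω) (hK : KobFacts Ω) {z w : E} (hz : z ∈ Ω)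
    (hw : w ∈ Ω) (h : kob Ω z w = 0) : w = z := by
  obtain ⟨B, hB⟩ := hb.exists_norm_le
  have hB0 : 0 ≤ B := (norm_nonneg _).trans (hB z hz)
  by_contra hne
  obtain ⟨f, hf⟩ : ∃ f : E →L[ℂ] ℂ, f (w - z) ≠ 0 :=
    SeparatingDual.exists_ne_zero (sub_ne_zero.2 hne)
  obtain ⟨M, hM⟩ : ∃ M : ℝ, M = ‖f‖ * B + 1 := ⟨_, rfl⟩
  have h1 := hK.half (fun x => (M : ℂ) + f x)
    ((differentiableOn_const _).add f.differentiable.differentiableOn)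
    (fun x hx => by
      have h2 : ‖f x‖ ≤ ‖f‖ * B :=
        (f.le_opNorm x).trans (mul_le_mul_of_nonneg_left (hB x hx) (norm_nonneg _))
      have h3 : -‖f x‖ ≤ (f x).re := (abs_le.1 (Complex.abs_re_le_norm (f x))).1
      rw [Complex.add_re, Complex.ofReal_re]
      linarith) z hz w hw
  rw [h, mul_zero, Real.exp_zero, sub_self, zero_mul] at h1
  have h4 : ((M : ℂ) + f w) - ((M : ℂ) + f z) = 0 := norm_le_zero_iff.1 h1
  apply hf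
  rw [map_sub]
  linear_combination h4

/-- `kob p x → 0` as `x → p` -/
lemma tendsto_kob (ho : IsOpen Ω) (hK : KobFacts Ω) {p : E} (hp : p ∈ Ω) {x : ℕ → E}
    (hx : Tendsto x atTop (𝓝 p)) : Tendsto (fun n => kob Ω p (x n)) atTop (𝓝 0) := by
  obtain ⟨r, hr, hball⟩ := Metric.isOpen_iff.1 ho p hp
  have hn : Tendsto (fun n => ‖x n - p‖) atTop (𝓝 0) := tendsto_iff_norm_sub_tendsto_zero.1 hx
  have hn2 : Tendsto (fun n => ‖x n - p‖ / r) atTop (𝓝 0) := by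
    have := hn.div_const r
    rwa [zero_div] at this
  have hath : ContinuousAt ath 0 := by
    unfold ath
    refine continuousAt_const.mul (ContinuousAt.log ?_ (by norm_num))
    exact (continuousAt_const.add continuousAt_id).div (continuousAt_const.sub continuousAt_id)
      (by norm_num)
  have h1 : Tendsto (fun n => ath (‖x n - p‖ / r)) atTop (𝓝 0) := by
    have h2 := hath.tendsto.comp hn2
    have h3 : ath 0 = 0 := by unfold ath; norm_num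
    rw [h3] at h2
    exact h2
  refine tendsto_of_tendsto_of_tendsto_of_le_of_le' tendsto_const_nhds h1
    (Eventually.of_forall fun n => hK.nonneg _ _) ?_
  filter_upwards [hn.eventually_lt_const hr] with n hn3
  exact hK.near p (x n) r hr hball hn3

/-- contraction mapping argument -/
lemma fixed_of_contraction (ho : IsOpen Ω) (hb : Bornology.IsBounded Ω) (hK : KobFacts Ω)
    {Cl : Set E} (hCl : IsCompact Cl) (hClΩ : Cl ⊆ Ω) {z₀ : E} (hz₀ : z₀ ∈ Cl) {G : E → E}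
    (hG : MapsTo G Cl Cl) {θ : ℝ} (hθ0 : 0 < θ) (hθ1 : θ < 1)
    (hcon : ∀ z ∈ Cl, ∀ w ∈ Cl, kob Ω (G z) (G w) ≤ θ * kob Ω z w) : ∃ p ∈ Cl, G p = p := by
  have hit : ∀ n, G^[n] z₀ ∈ Cl := fun n => hG.iterate n hz₀
  have hd : ∀ n, kob Ω (G^[n] z₀) (G^[n + 1] z₀) ≤ θ ^ n * kob Ω z₀ (G z₀) := by
    intro n
    induction n with
    | zero => simp
    | succ n ih =>
      rw [Function.iterate_succ_apply' G n z₀, Function.iterate_succ_apply' G (n + 1) z₀]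
      refine (hcon _ (hit n) _ (hit (n + 1))).trans ?_
      rw [pow_succ]
      calc θ * kob Ω (G^[n] z₀) (G^[n + 1] z₀) ≤ θ * (θ ^ n * kob Ω z₀ (G z₀)) :=
            mul_le_mul_of_nonneg_left ih hθ0.le
        _ = θ ^ n * θ * kob Ω z₀ (G z₀) := by ring
  obtain ⟨p, hp, φ, hφ, hlim⟩ := hCl.tendsto_subseq hit
  refine ⟨p, hp, ?_⟩
  have h1 := tendsto_kob ho hK (hClΩ hp) hlim
  have h2 : Tendsto (fun k => θ ^ (φ k) * kob Ω z₀ (G z₀)) atTop (𝓝 0) := by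
    have h3 := ((tendsto_pow_atTop_nhds_zero_of_lt_one hθ0.le hθ1).comp
      hφ.tendsto_atTop).mul_const (kob Ω z₀ (G z₀))
    rw [zero_mul] at h3
    exact h3
  have h4 : ∀ k, kob Ω p (G p) ≤ kob Ω p (G^[φ k] z₀) + θ ^ (φ k) * kob Ω z₀ (G z₀) +
      θ * kob Ω p (G^[φ k] z₀) := by
    intro k
    have t1 := hK.triangle p (hClΩ hp) (G^[φ k] z₀) (hClΩ (hit _)) (G p) (hClΩ (hG hp))
    have t2 := hK.triangle (G^[φ k] z₀) (hClΩ (hit _)) (G^[φ k + 1] z₀) (hClΩ (hit _)) (G p)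
      (hClΩ (hG hp))
    have t3 : kob Ω (G^[φ k + 1] z₀) (G p) ≤ θ * kob Ω p (G^[φ k] z₀) := by
      rw [hK.comm, Function.iterate_succ_apply']
      exact hcon p hp _ (hit _)
    have t4 := hd (φ k)
    linarith
  have h5 : kob Ω p (G p) ≤ 0 := by
    have h6 := (h1.add h2).add (h1.const_mul θ)
    rw [add_zero, mul_zero, add_zero] at h6
    exact ge_of_tendsto' h6 h4
  exact eq_of_kob_zero hb hK (hClΩ hp) (hClΩ (hG hp)) (le_antisymm h5 (hK.nonneg _ _))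

theorem exists_fixed_of_bounded_orbit [FiniteDimensional ℂ E] (hc : Convex ℝ Ω) (ho : IsOpen Ω)
    (hb : Bornology.IsBounded Ω) (hK : KobFacts Ω) {z₀ : E} (hz₀ : z₀ ∈ Ω)
    (hpr : ∀ R : ℝ, ∃ K : Set E, IsCompact K ∧ K ⊆ Ω ∧ ∀ z ∈ Ω, kob Ω z₀ z ≤ R → z ∈ K)
    (hone : ∀ K : Set E, IsCompact K → K ⊆ Ω → ∃ r : ℝ, r < 1 ∧ ∀ z ∈ K, ∀ w ∈ K,
      OneDisc Ω z w r)
    (hhom : ∀ c ∈ Ω, ∀ ε : ℝ, 0 < ε → ε < 1 → ∃ θ : ℝ, 0 < θ ∧ θ < 1 ∧ ∀ z ∈ Ω, ∀ w ∈ Ω,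
      kob Ω (((1 - ε : ℝ) : ℂ) • z + ((ε : ℝ) : ℂ) • c)
        (((1 - ε : ℝ) : ℂ) • w + ((ε : ℝ) : ℂ) • c) ≤ θ * kob Ω z w)
    {F : E → E} (hF : DifferentiableOn ℂ F Ω) (hm : MapsTo F Ω Ω)
    {R : ℝ} (horb : ∀ n : ℕ, kob Ω z₀ (F^[n] z₀) ≤ R) : ∃ z ∈ Ω, F z = z := by
  have hzΩ : ∀ n, F^[n] z₀ ∈ Ω := fun n => hm.iterate n hz₀
  obtain ⟨K1, hK1c, hK1Ω, hK1⟩ := hpr R
  have hzK : ∀ n, F^[n] z₀ ∈ K1 := fun n => hK1 _ (hzΩ n) (horb n)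
  obtain ⟨r0, hr0, hdisc⟩ := hone K1 hK1c hK1Ω
  obtain ⟨C, hC⟩ : ∃ C : Set E, C = {z | z ∈ Ω ∧ ∃ m0 : ℕ, ∀ m, m0 ≤ m →
    OneDisc Ω z (F^[m] z₀) r0} := ⟨_, rfl⟩
  have hz₀C : z₀ ∈ C := by
    rw [hC]
    exact ⟨hz₀, 0, fun m _ => hdisc _ (hzK 0) _ (hzK m)⟩
  have hCconv : Convex ℝ C := by
    rw [hC]
    rintro z ⟨hz, m0, h0⟩ z' ⟨hz', m0', h0'⟩ a b ha hb' hab
    refine ⟨hc hz hz' ha hb' hab, max m0 m0', fun m hm' => ?_⟩
    exact (h0 m ((le_max_left _ _).trans hm')).combo hc (h0' m ((le_max_right _ _).trans hm'))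
      ha hb' hab
  have hFC : MapsTo F C C := by
    rw [hC]
    rintro z ⟨hz, m0, h0⟩
    refine ⟨hm hz, m0 + 1, fun m hm' => ?_⟩
    obtain ⟨k, rfl⟩ : ∃ k, m = k + 1 := ⟨m - 1, by omega⟩
    rw [Function.iterate_succ_apply']
    exact (h0 k (by omega)).map hF hm
  obtain ⟨K2, hK2c, hK2Ω, hK2⟩ := hpr (R + pdist 0 (r0 : ℂ))
  have hCK2 : C ⊆ K2 := by
    rw [hC]
    rintro z ⟨hz, m0, h0⟩
    apply hK2 z hz
    have h1 := (h0 m0 le_rfl).kob_le hK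
    have h2 := hK.triangle z₀ hz₀ (F^[m0] z₀) (hzΩ m0) z hz
    rw [hK.comm (F^[m0] z₀) z] at h2
    have h3 := horb m0
    linarith
  obtain ⟨Cl, hCl⟩ : ∃ Cl : Set E, Cl = closure C := ⟨_, rfl⟩
  have hClK2 : Cl ⊆ K2 := by rw [hCl]; exact closure_minimal hCK2 hK2c.isClosed
  have hClΩ : Cl ⊆ Ω := hClK2.trans hK2Ω
  have hClc : IsCompact Cl := by
    rw [hCl] at hClK2 ⊢
    exact hK2c.of_isClosed_subset isClosed_closure hClK2
  have hClconv : Convex ℝ Cl := by rw [hCl]; exact hCconv.closure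
  have hCCl : C ⊆ Cl := by rw [hCl]; exact subset_closure
  have hz₀Cl : z₀ ∈ Cl := hCCl hz₀C
  have hFCl : MapsTo F Cl Cl := by
    rw [hCl] at hClΩ ⊢
    exact hFC.closure_of_continuousOn (hF.continuousOn.mono hClΩ)
  have hfix : ∀ ε : ℝ, 0 < ε → ε < 1 → ∃ p ∈ Cl,
      ((1 - ε : ℝ) : ℂ) • F p + ((ε : ℝ) : ℂ) • z₀ = p := by
    intro ε h0 h1
    obtain ⟨θ, hθ0, hθ1, hθ⟩ := hhom z₀ hz₀ ε h0 h1
    refine fixed_of_contraction ho hb hK hClc hClΩ hz₀Cl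
      (G := fun z => ((1 - ε : ℝ) : ℂ) • F z + ((ε : ℝ) : ℂ) • z₀) ?_ hθ0 hθ1 ?_
    · intro z hz
      have h2 := hClconv (hFCl hz) hz₀Cl (show 0 ≤ 1 - ε by linarith) h0.le (by ring)
      have e : ((1 - ε : ℝ) : ℂ) • F z + ((ε : ℝ) : ℂ) • z₀ = (1 - ε) • F z + ε • z₀ := by
        rw [Complex.coe_smul, Complex.coe_smul]
      show ((1 - ε : ℝ) : ℂ) • F z + ((ε : ℝ) : ℂ) • z₀ ∈ Cl
      rw [e]
      exact h2
    · intro z hz w hw
      refine (hθ _ (hClΩ (hFCl hz)) _ (hClΩ (hFCl hw))).trans ?_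
      exact mul_le_mul_of_nonneg_left (hK.map_le F hF hm z (hClΩ hz) w (hClΩ hw)) hθ0.le
  have hseq : ∀ n : ℕ, ∃ p ∈ Cl, ((1 - (1 / ((n : ℝ) + 2)) : ℝ) : ℂ) • F p +
      (((1 / ((n : ℝ) + 2)) : ℝ) : ℂ) • z₀ = p := by
    intro n
    apply hfix
    · positivity
    · rw [div_lt_one (by positivity)]
      have : (0 : ℝ) ≤ n := Nat.cast_nonneg n
      linarith
  choose p hpCl hpe using hseq
  obtain ⟨q, hq, φ, hφ, hlim⟩ := hClc.tendsto_subseq hpCl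
  refine ⟨q, hClΩ hq, ?_⟩
  have hFq : Tendsto (fun k => F (p (φ k))) atTop (𝓝 (F q)) :=
    ((hF.continuousOn.continuousAt (ho.mem_nhds (hClΩ hq))).tendsto).comp hlim
  have hε : Tendsto (fun k : ℕ => (1 / (((φ k : ℕ) : ℝ) + 2) : ℝ)) atTop (𝓝 0) := by
    have h1 : Tendsto (fun n : ℕ => (1 / ((n : ℝ) + 2) : ℝ)) atTop (𝓝 0) := by
      refine tendsto_const_nhds.div_atTop ?_
      exact tendsto_atTop_add_const_right _ _ tendsto_natCast_atTop_atTop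
    exact h1.comp hφ.tendsto_atTop
  have hε2 : Tendsto (fun k : ℕ => ((1 / (((φ k : ℕ) : ℝ) + 2) : ℝ) : ℂ)) atTop (𝓝 0) := by
    have := (Complex.continuous_ofReal.tendsto 0).comp hε
    rw [Complex.ofReal_zero] at this
    exact this
  have hε3 : Tendsto (fun k : ℕ => ((1 - (1 / (((φ k : ℕ) : ℝ) + 2)) : ℝ) : ℂ)) atTop (𝓝 1) := by
    have h1 : Tendsto (fun k : ℕ => (1 - (1 / (((φ k : ℕ) : ℝ) + 2)) : ℝ)) atTop (𝓝 (1 - 0)) :=
      tendsto_const_nhds.sub hε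
    rw [sub_zero] at h1
    have := (Complex.continuous_ofReal.tendsto 1).comp h1
    rw [Complex.ofReal_one] at this
    exact this
  have h1 : Tendsto (fun k => p (φ k)) atTop (𝓝 ((1 : ℂ) • F q + (0 : ℂ) • z₀)) := by
    have h2 := (hε3.smul hFq).add (hε2.smul_const z₀)
    refine h2.congr fun k => ?_
    exact hpe (φ k)
  rw [one_smul, zero_smul, add_zero] at h1
  exact tendsto_nhds_unique h1 hlim

end Pool.TH332.DW.B2c

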