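import Pool.Agent.TH37.SD.Defs

set_option autoImplicit false

/-!
Project SD, job SD-B4: HNN extensions inside the class `AT` (helper113).
-/

namespace Pool.Agent.TH113.SD_EXTH

open Pool.Agent.TH54.BU Pool.Agent.TH37.SD

/-- descent of an isomorphism to quotients -/
lemma exists_equiv {U V U' V' : Type} [Group U] [Group V] [Group U'] [Group V']
    (α : U →* U') (β : V →* V') (hα : Function.Surjective α) (hβ : Function.Surjective β)
    (ψ : U ≃* V) (h : ∀ u, α u = 1 ↔ β (ψ u) = 1) :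
    ∃ ψ' : U' ≃* V', ∀ u, ψ' (α u) = β (ψ u) := by
  have hk : α.ker.map (ψ : U →* V) = β.ker := by
    ext v
    simp only [Subgroup.mem_map, MonoidHom.mem_ker]
    constructor
    · rintro ⟨u, hu, rfl⟩
      exact (h u).1 hu
    · intro hv
      exact ⟨ψ.symm v, (h _).2 (by simpa using hv), by simp⟩
  refine ⟨(QuotientGroup.quotientKerEquivOfSurjective α hα).symm.trans
    ((QuotientGroup.congr α.ker β.ker ψ hk).trans
      (QuotientGroup.quotientKerEquivOfSurjective β hβ)), fun u => ?_⟩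
  have h1 : (QuotientGroup.quotientKerEquivOfSurjective α hα).symm (α u) =
      (QuotientGroup.mk u : U ⧸ α.ker) := by
    rw [MulEquiv.symm_apply_eq]
    rfl
  simp only [MulEquiv.trans_apply, h1]
  rfl

theorem extH (hC : CoreStmt) (hJ : HconjStmt) : ExtHStmt := by
  obtain ⟨p0, hC⟩ := hC
  refine ⟨p0, fun p hp hp0 C _ z hAT U V ψ hU hV hψz hMU hMV hSUV => ?_⟩
  have hcp : ∀ (a : C) (k : ℤ), a * z ^ k = z ^ k * a := fun a k =>
    (Commute.zpow_right (hAT.cen a : Commute a z) k).eq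
  have hnorm : (Subgroup.zpowers z).Normal := by
    refine ⟨fun n hn g => ?_⟩
    obtain ⟨k, rfl⟩ := Subgroup.mem_zpowers_iff.1 hn
    have h1 : g * z ^ k * g⁻¹ = z ^ k := by rw [hcp g k, mul_inv_cancel_right]
    rw [h1]
    exact hn
  have hZU : Subgroup.zpowers z ≤ U := by
    rw [Subgroup.zpowers_le]
    exact hU
  have hZV : Subgroup.zpowers z ≤ V := by
    rw [Subgroup.zpowers_le]
    exact hV
  -- conjugates of elements of the centre
  have hZc : ∀ a g : C, g * a * g⁻¹ ∈ Subgroup.zpowers z → a ∈ Subgroup.zpowers z := by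
    intro a g h
    have h1 := hnorm.conj_mem _ h g⁻¹
    have h2 : g⁻¹ * (g * a * g⁻¹) * g⁻¹⁻¹ = a := by group
    rwa [h2] at h1
  set π : C →* C ⧸ Subgroup.zpowers z := QuotientGroup.mk' (Subgroup.zpowers z) with hπ
  have hsurj : Function.Surjective π := QuotientGroup.mk'_surjective _
  have hker : π.ker = Subgroup.zpowers z := QuotientGroup.ker_mk' _
  have hπ1 : ∀ a, π a = 1 ↔ a ∈ Subgroup.zpowers z := by
    intro a
    exact QuotientGroup.eq_one_iff a
  have hAE : AE p π z := by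
    refine ⟨hsurj, hker, hAT.cen, hAT.zp, hAT.z1, fun a ha => hAT.pw a ?_⟩
    rwa [← hπ1]
  have hmem : ∀ W : Subgroup C, Subgroup.zpowers z ≤ W → ∀ c, c ∈ W ↔ π c ∈ W.map π := by
    intro W hW c
    constructor
    · intro h
      exact Subgroup.mem_map_of_mem π h
    · rintro ⟨w, hw, hwc⟩
      have h1 : π (w⁻¹ * c) = 1 := by
        rw [map_mul, map_inv, hwc, inv_mul_cancel]
      have h2 : w⁻¹ * c ∈ W := hW ((hπ1 _).1 h1)
      have h3 := W.mul_mem hw h2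
      rwa [mul_inv_cancel_left] at h3
  have hUm := hmem U hZU
  have hVm := hmem V hZV
  -- the isomorphism of the quotients
  have hψk : ∀ (u : U) (k : ℤ), (u : C) = z ^ k → (ψ u : C) = z ^ k := by
    intro u k hu
    have h1 : u = (⟨z, hU⟩ : U) ^ k := by
      apply Subtype.ext
      rw [Subgroup.coe_zpow]
      exact hu
    rw [h1, map_zpow, Subgroup.coe_zpow, hψz]
  have hψk' : ∀ (u : U) (k : ℤ), (ψ u : C) = z ^ k → (u : C) = z ^ k := by
    intro u k hu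
    have h1 : ψ u = ψ ((⟨z, hU⟩ : U) ^ k) := by
      apply Subtype.ext
      rw [map_zpow, Subgroup.coe_zpow, hψz]
      exact hu
    have h2 := ψ.injective h1
    rw [h2, Subgroup.coe_zpow]
  obtain ⟨ψL, hψL⟩ := exists_equiv (π.subgroupMap U) (π.subgroupMap V)
    (π.subgroupMap_surjective U) (π.subgroupMap_surjective V) ψ (by
      intro u
      rw [Subtype.ext_iff, Subtype.ext_iff]
      show π (u : C) = 1 ↔ π (ψ u : C) = 1
      rw [hπ1, hπ1, Subgroup.mem_zpowers_iff, Subgroup.mem_zpowers_iff]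
      constructor
      · rintro ⟨k, hk⟩
        exact ⟨k, (hψk u k hk.symm).symm⟩
      · rintro ⟨k, hk⟩
        exact ⟨k, (hψk' u k hk.symm).symm⟩)
  have hψL' : ∀ (c : U) (h : π (c : C) ∈ U.map π),
      π (ψ c : C) = (ψL ⟨π (c : C), h⟩ : C ⧸ Subgroup.zpowers z) := by
    intro c h
    have h1 := congrArg Subtype.val (hψL c)
    exact h1.symm
  have hMalg : ∀ W : Subgroup C, Subgroup.zpowers z ≤ W → MZ z W → Mal (W.map π) := by
    intro W hW hM a ha ha1 g hg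
    obtain ⟨a, rfl⟩ := hsurj a
    obtain ⟨g, rfl⟩ := hsurj g
    rw [← hmem W hW] at ha
    rw [← map_mul, ← map_inv, ← map_mul, ← hmem W hW] at hg
    rw [← hmem W hW]
    exact hM a ha (by rwa [← hπ1]) g hg
  have hSepL : TH37.SD.Sep (U.map π) (V.map π) := by
    intro a ha ha1 g hg
    obtain ⟨a, rfl⟩ := hsurj a
    obtain ⟨g, rfl⟩ := hsurj g
    rw [← hUm] at ha
    rw [← map_mul, ← map_inv, ← map_mul, ← hVm] at hg
    exact hSUV a ha (by rwa [← hπ1]) g hg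
  have hMUL := hMalg U hZU hMU
  have hMVL := hMalg V hZV hMV
  -- the exponents
  have hE : Cls p (fun (_ : HNNExtension (C ⧸ Subgroup.zpowers z) (U.map π) (V.map π) ψL) (k : ℤ) =>
      ¬ (p : ℤ) ∣ k) := by
    refine ⟨fun g => ⟨1, ?_⟩, ?_, ?_⟩
    · intro h
      have h1 : (p : ℤ) ∣ ((1 : ℕ) : ℤ) := by simpa using h
      rw [Int.natCast_dvd_natCast] at h1
      exact hp.one_lt.ne' (Nat.dvd_one.1 h1)
    · intro g u k j hj hk h
      rcases (Nat.prime_iff_prime_int.1 hp).dvd_or_dvd h with h | h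
      · exact hj h
      · exact hk h
    · intro g m k _ hk
      exact hk
  obtain ⟨C', _, π', ι, t', hs', hk', hc', hι, hπι, hπt, ht', hpw, hof, hlift⟩ :=
    hC p hp hp0 C (C ⧸ Subgroup.zpowers z) π z hAE (U.map π) (V.map π) ψL U V ψ hUm hVm hψL'
      (fun _ => hψz) hMUL hMVL hSepL _ hE (by
        intro c hc
        exact hAE.pw c hc)
  set Γ := HNNExtension (C ⧸ Subgroup.zpowers z) (U.map π) (V.map π) ψL with hΓ
  have hcp' : ∀ (a : C') (k : ℤ), a * ι z ^ k = ι z ^ k * a := fun a k =>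
    (Commute.zpow_right (hc' a : Commute a (ι z)) k).eq
  have hιZ : ∀ a : C, ι a ∈ Subgroup.zpowers (ι z) ↔ a ∈ Subgroup.zpowers z := by
    intro a
    rw [Subgroup.mem_zpowers_iff, Subgroup.mem_zpowers_iff]
    constructor
    · rintro ⟨k, hk⟩
      refine ⟨k, hι ?_⟩
      rw [map_zpow]
      exact hk
    · rintro ⟨k, hk⟩
      refine ⟨k, ?_⟩
      rw [← map_zpow, hk]
  have hAT' : AT p (ι z) := by
    refine ⟨hc', ?_, ?_, ?_⟩
    · rw [← map_pow, hAT.zp, map_one]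
    · intro h
      apply hAT.z1
      apply hι
      rw [h, map_one]
    · intro a ha
      have h1 : π' a ≠ 1 := by
        intro h
        apply ha
        rw [← hk', MonoidHom.mem_ker]
        exact h
      obtain ⟨g, k, _, h2, h3⟩ := hpw a h1
      exact ⟨k, h2, h3⟩
  -- equality of the images under `π'`
  have hlft : ∀ a b : C', π' a = π' b → ∃ k : ℤ, a = b * ι z ^ k := by
    intro a b h
    have h1 : b⁻¹ * a ∈ π'.ker := by
      rw [MonoidHom.mem_ker, map_mul, map_inv, h, inv_mul_cancel]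
    rw [hk', Subgroup.mem_zpowers_iff] at h1
    obtain ⟨k, hk⟩ := h1
    exact ⟨k, by rw [hk, mul_inv_cancel_left]⟩
  have hcz : ∀ (b x : C') (k : ℤ), b * ι z ^ k * x * (b * ι z ^ k)⁻¹ = b * x * b⁻¹ := by
    intro b x k
    have h1 := hcp' x k
    calc b * ι z ^ k * x * (b * ι z ^ k)⁻¹ = b * (ι z ^ k * x) * (ι z ^ k)⁻¹ * b⁻¹ := by group
      _ = b * (x * ι z ^ k) * (ι z ^ k)⁻¹ * b⁻¹ := by rw [h1]
      _ = b * x * b⁻¹ := by group
  have hinv' : ∀ v : V, t'⁻¹ * ι (v : C) * t' = ι (ψ.symm v : C) := by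
    intro v
    have h1 := ht' (ψ.symm v)
    rw [MulEquiv.apply_symm_apply] at h1
    rw [← h1]
    group
  -- the main alternative
  have key : ∀ (a a' : C) (g : C'), a ∉ Subgroup.zpowers z → g * ι a * g⁻¹ = ι a' →
      a' ∉ Subgroup.zpowers z ∧
      ((∃ c1 : C, g = ι c1 ∧ c1 * a * c1⁻¹ = a') ∨
      (∃ c c' : C, c * a * c⁻¹ ∈ U ∧ c' * a' * c'⁻¹ ∈ V) ∨
      (∃ c c' : C, c * a * c⁻¹ ∈ V ∧ c' * a' * c'⁻¹ ∈ U)) := by
    intro a a' g ha hg
    have ha' : a' ∉ Subgroup.zpowers z := by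
      intro h
      apply ha
      obtain ⟨k, rfl⟩ := Subgroup.mem_zpowers_iff.1 h
      rw [map_zpow] at hg
      have h1 : ι a = ι z ^ k := by
        have h2 : ι a = g⁻¹ * (g * ι a * g⁻¹) * g := by group
        rw [h2, hg, hcp' g⁻¹ k, inv_mul_cancel_right]
      rw [← hιZ, Subgroup.mem_zpowers_iff]
      exact ⟨k, h1.symm⟩
    refine ⟨ha', ?_⟩
    obtain ⟨y, hy⟩ := QuotientGroup.mk_surjective (π' g)
    have h1 : y * HNNExtension.of (π a) * y⁻¹ * (HNNExtension.of (π a'))⁻¹ ∈ powSub Γ p := by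
      rw [← QuotientGroup.eq_one_iff]
      have h2 : ((y * HNNExtension.of (π a) * y⁻¹ * (HNNExtension.of (π a'))⁻¹ : Γ) :
          Γ ⧸ powSub Γ p) = π' (g * ι a * g⁻¹ * (ι a')⁻¹) := by
        rw [map_mul, map_mul, map_mul, map_inv, map_inv, hπι, hπι, ← hy]
        rfl
      rw [h2, hg, mul_inv_cancel, map_one]
    obtain ⟨m, hm, hmy⟩ := hlift (π a) (π a') y (by rwa [Ne, hπ1]) h1
    have hmy2 : ((m * y : Γ) : Γ ⧸ powSub Γ p) = π' g := by
      rw [← hy, QuotientGroup.mk_mul, (QuotientGroup.eq_one_iff m).2 hm, one_mul]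
    rcases hJ (C ⧸ Subgroup.zpowers z) (U.map π) (V.map π) ψL hMUL hMVL hSepL (π a) (π a')
      (m * y) (by rwa [Ne, hπ1]) hmy with ⟨l, hl⟩ | ⟨l, l', hl, hl'⟩ | ⟨l, l', hl, hl'⟩
    · left
      obtain ⟨c, rfl⟩ := hsurj l
      have h3 : π' g = π' (ι c) := by
        rw [← hmy2, hl, hπι]
      obtain ⟨k, hk⟩ := hlft _ _ h3
      refine ⟨c * z ^ k, ?_, ?_⟩
      · rw [map_mul, map_zpow]
        exact hk
      · apply hι
        rw [map_mul, map_mul, map_inv, map_mul, map_zpow, ← hk]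
        exact hg
    · right
      left
      obtain ⟨c, rfl⟩ := hsurj l
      obtain ⟨c', rfl⟩ := hsurj l'
      rw [← map_mul, ← map_inv, ← map_mul, ← hUm] at hl
      have h3 : π' g = π' (ι c' * t' * ι c) := by
        rw [← hmy2, hl', map_mul, map_mul, hπι, hπι, hπt]
        rfl
      obtain ⟨k, hk⟩ := hlft _ _ h3
      refine ⟨c, c'⁻¹, hl, ?_⟩
      rw [hk, hcz] at hg
      have h4 := ht' ⟨c * a * c⁻¹, hl⟩
      have h5 : ι a' = ι (c' * (ψ ⟨c * a * c⁻¹, hl⟩ : C) * c'⁻¹) := by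
        rw [map_mul, map_mul, map_inv, ← h4, ← hg]
        simp only [map_mul, map_inv]
        group
      have h6 := hι h5
      rw [h6]
      have h7 : c'⁻¹ * (c' * (ψ ⟨c * a * c⁻¹, hl⟩ : C) * c'⁻¹) * c'⁻¹⁻¹ =
          (ψ ⟨c * a * c⁻¹, hl⟩ : C) := by group
      rw [h7]
      exact (ψ ⟨c * a * c⁻¹, hl⟩).2
    · right
      right
      obtain ⟨c, rfl⟩ := hsurj l
      obtain ⟨c', rfl⟩ := hsurj l'
      rw [← map_mul, ← map_inv, ← map_mul, ← hVm] at hl
      have h3 : π' g = π' (ι c' * t'⁻¹ * ι c) := by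
        rw [← hmy2, hl', map_mul, map_mul, map_inv, hπι, hπι, hπt]
        rfl
      obtain ⟨k, hk⟩ := hlft _ _ h3
      refine ⟨c, c'⁻¹, hl, ?_⟩
      rw [hk, hcz] at hg
      have h4 := hinv' ⟨c * a * c⁻¹, hl⟩
      have h5 : ι a' = ι (c' * (ψ.symm ⟨c * a * c⁻¹, hl⟩ : C) * c'⁻¹) := by
        rw [map_mul, map_mul, map_inv, ← h4, ← hg]
        simp only [map_mul, map_inv]
        group
      have h6 := hι h5
      rw [h6]
      have h7 : c'⁻¹ * (c' * (ψ.symm ⟨c * a * c⁻¹, hl⟩ : C) * c'⁻¹) * c'⁻¹⁻¹ =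
          (ψ.symm ⟨c * a * c⁻¹, hl⟩ : C) := by group
      rw [h7]
      exact (ψ.symm ⟨c * a * c⁻¹, hl⟩).2
  -- the key for a subgroup separated from `U` and `V`
  have keyW : ∀ W : Subgroup C, SZ z W U → SZ z W V → ∀ (a a' : C) (g : C'), a ∈ W →
      a ∉ Subgroup.zpowers z → g * ι a * g⁻¹ = ι a' →
      ∃ c1 : C, g = ι c1 ∧ c1 * a * c1⁻¹ = a' := by
    intro W hWU hWV a a' g haW ha hg
    obtain ⟨_, h | ⟨c, _, h, _⟩ | ⟨c, _, h, _⟩⟩ := key a a' g ha hg
    · exact h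
    · exact absurd h (hWU a haW ha c)
    · exact absurd h (hWV a haW ha c)
  refine ⟨C', inferInstance, ι, t', hι, hAT', ht', ?_, ?_, ?_⟩
  · rintro _ ⟨a, haU, rfl⟩ ha g ⟨a', ha'U, hg⟩
    have ha2 : a ∉ Subgroup.zpowers z := by rwa [← hιZ]
    obtain ⟨ha', ⟨c1, rfl, h⟩ | ⟨_, c, _, h⟩ | ⟨c, _, h, _⟩⟩ := key a a' g ha2 hg.symm
    · refine Subgroup.mem_map_of_mem ι (hMU a haU ha2 c1 ?_)
      rw [h]
      exact ha'U
    · exact absurd h (hSUV a' ha'U ha' c)
    · exact absurd h (hSUV a haU ha2 c)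
  · intro W _ hMW hWU hWV
    constructor
    · rintro _ ⟨a, haW, rfl⟩ ha g ⟨a', ha'W, hg⟩
      have ha2 : a ∉ Subgroup.zpowers z := by rwa [← hιZ]
      obtain ⟨c1, rfl, h⟩ := keyW W hWU hWV a a' g haW ha2 hg.symm
      refine Subgroup.mem_map_of_mem ι (hMW a haW ha2 c1 ?_)
      rw [h]
      exact ha'W
    · rintro _ ⟨a, haW, rfl⟩ ha g ⟨a', ha'U, hg⟩
      have ha2 : a ∉ Subgroup.zpowers z := by rwa [← hιZ]
      obtain ⟨c1, rfl, h⟩ := keyW W hWU hWV a a' g haW ha2 hg.symm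
      refine hWU a haW ha2 c1 ?_
      rw [h]
      exact ha'U
  · intro W W' _ _ hWU hWV hWW'
    rintro _ ⟨a, haW, rfl⟩ ha g ⟨a', ha'W, hg⟩
    have ha2 : a ∉ Subgroup.zpowers z := by rwa [← hιZ]
    obtain ⟨c1, rfl, h⟩ := keyW W hWU hWV a a' g haW ha2 hg.symm
    refine hWW' a haW ha2 c1 ?_
    rw [h]
    exact ha'W

end Pool.Agent.TH113.SD_EXTH
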