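import Pool.Agent.TH313.SC.Defs
set_option autoImplicit false
namespace Pool.Agent.TH113.SC6
open Filter Topology Pool.Agent.TH313.SC

lemma sep {Ω M : Type} [TopologicalSpace Ω] [MetricSpace M]
    (F : C(Ω, M)) (hF : Function.Injective F) (s : Ω) {K : Set Ω} (hK : IsCompact K)
    {U : Set Ω} (hU : U ∈ 𝓝 s) : ∃ η : ℝ, 0 < η ∧ ∀ t ∈ K, dist (F t) (F s) < η → t ∈ U := by
  have hA : IsCompact (K \ interior U) := hK.diff isOpen_interior
  have hA2 : IsClosed (F '' (K \ interior U)) := (hA.image F.continuous).isClosed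
  have hs : F s ∈ (F '' (K \ interior U))ᶜ := by
    rintro ⟨t, ht, hts⟩
    have : t = s := hF hts
    rw [this] at ht
    exact ht.2 (mem_interior_iff_mem_nhds.2 hU)
  obtain ⟨η, hη, hb⟩ := Metric.mem_nhds_iff.1 (hA2.isOpen_compl.mem_nhds hs)
  refine ⟨η, hη, fun t ht hd => ?_⟩
  by_contra hcon
  exact hb (Metric.mem_ball.2 hd) ⟨t, ⟨ht, fun h => hcon (interior_subset h)⟩, rfl⟩

theorem exists_cut {Ω M : Type} [TopologicalSpace Ω] [T2Space Ω] [LocallyCompactSpace Ω] [MetricSpace M]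
    (F : C(Ω, M)) (hF : Function.Injective F) (s : Ω) : Nonempty (Cut F s) := by
  obtain ⟨K1, hK1, hK1s⟩ := exists_compact_mem_nhds s
  obtain ⟨χ, h1, _, hsupp, h01⟩ := exists_continuous_one_zero_of_isCompact hK1 isClosed_empty
    (Set.disjoint_empty K1)
  have hK : IsCompact (tsupport χ) := hsupp
  have hχC : C0 (fun t => χ t) := by
    refine ⟨χ.continuous, fun ε hε => hK.of_isClosed_subset
      (isClosed_le continuous_const χ.continuous.abs) ?_⟩
    intro t ht
    have ht' : ε ≤ |χ t| := ht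
    refine subset_tsupport _ ?_
    intro h0
    rw [h0, abs_zero] at ht'
    linarith
  obtain ⟨η, hη, hsep⟩ := sep F hF s hK hK1s
  obtain ⟨r0, hr0⟩ : ∃ r0 : ℕ, 2 / (4 : ℝ) ^ r0 < η := by
    obtain ⟨n, hn⟩ := exists_pow_lt_of_lt_one (show 0 < η / 2 by positivity)
      (show (1 / 4 : ℝ) < 1 by norm_num)
    refine ⟨n, ?_⟩
    have e : 2 / (4 : ℝ) ^ n = 2 * (1 / 4) ^ n := by
      rw [one_div, inv_pow]; ring
    rw [e]; linarith
  obtain ⟨g, hg⟩ : ∃ g : ℕ → Ω → ℝ, ∀ r t, g r t
      = max 0 (min 1 (2 - 4 ^ (r + r0) * dist (F t) (F s))) := ⟨_, fun _ _ => rfl⟩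
  have hgc : ∀ r, Continuous (g r) := by
    intro r
    have e : g r = fun t => max 0 (min 1 (2 - 4 ^ (r + r0) * dist (F t) (F s))) :=
      funext (hg r)
    rw [e]
    exact continuous_const.max (continuous_const.min (continuous_const.sub
      (continuous_const.mul (F.continuous.dist continuous_const))))
  have hg0 : ∀ r t, 0 ≤ g r t := fun r t => by rw [hg]; exact le_max_left _ _
  have hg1 : ∀ r t, g r t ≤ 1 := fun r t => by
    rw [hg]; exact max_le zero_le_one (min_le_left _ _)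
  have hgne : ∀ r t, g r t ≠ 0 → 4 ^ (r + r0) * dist (F t) (F s) < 2 := by
    intro r t h
    by_contra hcon
    push Not at hcon
    apply h
    rw [hg]
    apply max_eq_left
    refine (min_le_right _ _).trans ?_
    linarith
  have hdist : ∀ r t, g r t ≠ 0 → dist (F t) (F s) < 2 / 4 ^ (r + r0) := by
    intro r t h
    rw [lt_div_iff₀ (by positivity), mul_comm]
    exact hgne r t h
  have hpow : ∀ r : ℕ, 2 / (4 : ℝ) ^ (r + r0) ≤ 2 / 4 ^ r ∧ 2 / (4 : ℝ) ^ (r + r0) ≤ 2 / 4 ^ r0 := by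
    intro r
    constructor
    · apply div_le_div_of_nonneg_left (by norm_num) (by positivity)
      exact pow_le_pow_right₀ (by norm_num) (by omega)
    · apply div_le_div_of_nonneg_left (by norm_num) (by positivity)
      exact pow_le_pow_right₀ (by norm_num) (by omega)
  have hne : ∀ r t, g r t * χ t ≠ 0 → t ∈ tsupport χ ∧ g r t ≠ 0 := by
    intro r t h
    exact ⟨subset_tsupport _ (right_ne_zero_of_mul h), left_ne_zero_of_mul h⟩
  have hχs : ∀ t ∈ K1, χ t = 1 := fun t ht => h1 ht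
  refine ⟨{
    ρ := fun r t => g r t * χ t
    c0 := ?_
    nonneg := ?_
    le_one := ?_
    self := ?_
    nest := ?_
    near := ?_
    small := ?_ }⟩
  · intro r
    exact hχC.mul_left (hgc r) one_pos (fun t => by
      rw [abs_of_nonneg (hg0 r t)]; exact hg1 r t)
  · intro r t
    exact mul_nonneg (hg0 r t) (h01 t).1
  · intro r t
    exact mul_le_one₀ (hg1 r t) (h01 t).1 (h01 t).2
  · intro r
    show g r s * χ s = 1
    rw [hg, dist_self, mul_zero, sub_zero, hχs s (mem_of_mem_nhds hK1s)]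
    norm_num
  · intro r t h
    obtain ⟨hts, hgt⟩ := hne (r + 1) t h
    have h2 := hgne (r + 1) t hgt
    have h3 := hdist (r + 1) t hgt
    have h4 := (hpow (r + 1)).2
    have h5 : t ∈ K1 := hsep t hts (by linarith)
    show g r t * χ t = 1
    rw [hχs t h5, mul_one, hg]
    have h6 : (1 : ℝ) ≤ 2 - 4 ^ (r + r0) * dist (F t) (F s) := by
      have e : (4 : ℝ) ^ (r + 1 + r0) = 4 * 4 ^ (r + r0) := by ring
      rw [e] at h2
      linarith
    rw [min_eq_left h6]
    norm_num
  · intro r t h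
    obtain ⟨_, hgt⟩ := hne r t h
    exact ((hdist r t hgt).le).trans (hpow r).1
  · intro U hU
    obtain ⟨η', hη', hsep'⟩ := sep F hF s hK hU
    obtain ⟨n, hn⟩ := exists_pow_lt_of_lt_one (show 0 < η' / 2 by positivity)
      (show (1 / 4 : ℝ) < 1 by norm_num)
    refine ⟨n, fun t h => ?_⟩
    obtain ⟨hts, hgt⟩ := hne n t h
    apply hsep' t hts
    have h3 := hdist n t hgt
    have h4 := (hpow n).1
    have e : 2 / (4 : ℝ) ^ n = 2 * (1 / 4) ^ n := by
      rw [one_div, inv_pow]; ring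
    rw [e] at h4
    linarith

end Pool.Agent.TH113.SC6

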