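import Pool.Agent.TH313.SC.C0
set_option autoImplicit false
namespace Pool.Agent.TH113.SC2
open Filter Topology Pool.Agent.TH313.SC

variable {Ω : Type*} [TopologicalSpace Ω]

/-- running maximum -/
def V (φ : ℕ → Ω → ℝ) (m : ℕ) : ℕ → Ω → ℝ
  | 0 => φ m
  | k + 1 => fun t => max (V φ m k t) (φ (m + (k + 1)) t)

/-- running minimum -/
def H (g : ℕ → Ω → ℝ) : ℕ → Ω → ℝ
  | 0 => g 0
  | k + 1 => fun t => min (H g k t) (g (k + 1) t)

lemma V_C0 {φ : ℕ → Ω → ℝ} (hφ : ∀ m, C0 (φ m)) (m k : ℕ) : C0 (V φ m k) := by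
  induction k with
  | zero => exact hφ m
  | succ k ih => exact ih.max (hφ _)

lemma H_C0 {g : ℕ → Ω → ℝ} (hg : ∀ m, C0 (g m)) (k : ℕ) : C0 (H g k) := by
  induction k with
  | zero => exact hg 0
  | succ k ih => exact ih.min (hg _)

omit [TopologicalSpace Ω] in
lemma V_mem (φ : ℕ → Ω → ℝ) (m k : ℕ) (t : Ω) : ∃ j ≤ k, V φ m k t = φ (m + j) t := by
  induction k with
  | zero => exact ⟨0, le_rfl, rfl⟩
  | succ k ih =>
    obtain ⟨j, hj, e⟩ := ih
    rcases max_choice (V φ m k t) (φ (m + (k + 1)) t) with h | h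
    · exact ⟨j, by omega, h.trans e⟩
    · exact ⟨k + 1, le_rfl, h⟩

omit [TopologicalSpace Ω] in
lemma H_mem (g : ℕ → Ω → ℝ) (k : ℕ) (t : Ω) : ∃ j ≤ k, H g k t = g j t := by
  induction k with
  | zero => exact ⟨0, le_rfl, rfl⟩
  | succ k ih =>
    obtain ⟨j, hj, e⟩ := ih
    rcases min_choice (H g k t) (g (k + 1) t) with h | h
    · exact ⟨j, by omega, h.trans e⟩
    · exact ⟨k + 1, le_rfl, h⟩

omit [TopologicalSpace Ω] in
lemma V_mono (φ : ℕ → Ω → ℝ) (m : ℕ) (t : Ω) : Monotone (fun k => V φ m k t) :=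
  monotone_nat_of_le_succ (fun _ => le_max_left _ _)

omit [TopologicalSpace Ω] in
lemma H_anti (g : ℕ → Ω → ℝ) (t : Ω) : Antitone (fun k => H g k t) :=
  antitone_nat_of_succ_le (fun _ => min_le_left _ _)

omit [TopologicalSpace Ω] in
lemma le_V (φ : ℕ → Ω → ℝ) (m k j : ℕ) (hj : j ≤ k) (t : Ω) : φ (m + j) t ≤ V φ m k t := by
  refine le_trans ?_ (V_mono φ m t hj)
  cases j with
  | zero => exact le_rfl
  | succ j => exact le_max_right _ _

omit [TopologicalSpace Ω] in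
lemma H_le (g : ℕ → Ω → ℝ) (k : ℕ) (t : Ω) : H g k t ≤ g k t := by
  cases k with
  | zero => exact le_rfl
  | succ j => exact min_le_right _ _

/-- the sum of finitely many C0 functions -/
lemma sum_C0 (f : ℕ → Ω → ℝ) (hf : ∀ i, C0 (f i)) (n : ℕ) :
    C0 (fun t => ∑ i ∈ Finset.range n, f i t) := by
  induction n with
  | zero => simpa using (C0.zero : C0 (fun _ : Ω => (0 : ℝ)))
  | succ n ih =>
    simp only [Finset.sum_range_succ]
    exact ih.add (hf n)

lemma main (p : (Ω → ℝ) → ℝ) (C : ℝ)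
    (hmono : ∀ f g, C0 f → C0 g → (∀ t, 0 ≤ f t) → (∀ t, f t ≤ g t) → p f ≤ p g)
    (hsub : ∀ f g, C0 f → C0 g → (∀ t, 0 ≤ f t) → (∀ t, 0 ≤ g t) →
      p (fun t => f t + g t) ≤ p f + p g)
    (hC : ∀ f c, C0 f → (∀ t, 0 ≤ f t ∧ f t ≤ c) → p f ≤ C * c)
    (hexh : ∀ ψ : ℕ → Ω → ℝ, (∀ i, C0 (ψ i)) → (∀ i t, 0 ≤ ψ i t) →
      (∀ n t, ∑ i ∈ Finset.range n, ψ i t ≤ 1) → Tendsto (fun i => p (ψ i)) atTop (𝓝 0))
    (φ : ℕ → Ω → ℝ) (hφ : ∀ m, C0 (φ m)) (h0 : ∀ m t, 0 ≤ φ m t ∧ φ m t ≤ 1)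
    (h1 : ∀ t, Tendsto (fun m => φ m t) atTop (𝓝 0)) (δ : ℝ) (hδ : 0 < δ)
    (hp : ∀ m, δ ≤ p (φ m)) : False := by
  have hV0 : ∀ m k t, 0 ≤ V φ m k t ∧ V φ m k t ≤ 1 := by
    intro m k t
    obtain ⟨j, _, e⟩ := V_mem φ m k t
    rw [e]; exact h0 _ _
  -- (1)
  have step1 : ∀ m (ε : ℝ), 0 < ε → ∃ K, ∀ k, K ≤ k → p (fun t => V φ m k t - V φ m K t) ≤ ε := by
    intro m ε hε
    by_contra hcon
    push Not at hcon
    choose f hf1 hf2 using hcon
    obtain ⟨N, hN⟩ : ∃ N : ℕ → ℕ, ∀ i, N (i + 1) = f (N i) :=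
      ⟨fun i => Nat.rec 0 (fun _ x => f x) i, fun i => rfl⟩
    have htel : ∀ n t, ∑ i ∈ Finset.range n, (V φ m (N (i + 1)) t - V φ m (N i) t)
        = V φ m (N n) t - V φ m (N 0) t := by
      intro n t
      exact Finset.sum_range_sub (fun i => V φ m (N i) t) n
    have hlim := hexh (fun i t => V φ m (N (i + 1)) t - V φ m (N i) t)
      (fun i => (V_C0 hφ m _).sub (V_C0 hφ m _))
      (fun i t => by
        have : V φ m (N i) t ≤ V φ m (N (i + 1)) t := V_mono φ m t (by rw [hN]; exact hf1 _)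
        exact sub_nonneg.2 this)
      (fun n t => by
        rw [htel]
        have h2 := (hV0 m (N n) t).2
        have h3 := (hV0 m (N 0) t).1
        linarith)
    have hev := hlim.eventually_lt_const hε
    obtain ⟨i, hi⟩ := hev.exists
    have h4 := hf2 (N i)
    rw [← hN] at h4
    exact absurd hi (not_lt.2 h4.le)
  -- (2)
  have hεpos : ∀ m : ℕ, 0 < δ / 2 ^ (m + 2) := fun m => by positivity
  choose K hK using fun m => step1 m (δ / 2 ^ (m + 2)) (hεpos m)
  obtain ⟨g, hg⟩ : ∃ g : ℕ → Ω → ℝ, g = fun m => V φ m (K m) := ⟨_, rfl⟩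
  have hgC : ∀ m, C0 (g m) := by intro m; rw [hg]; exact V_C0 hφ m _
  have hg0 : ∀ m t, 0 ≤ g m t ∧ g m t ≤ 1 := by intro m t; rw [hg]; exact hV0 _ _ _
  have hH0 : ∀ m t, 0 ≤ H g m t := by
    intro m t
    obtain ⟨j, _, e⟩ := H_mem g m t
    rw [e]; exact (hg0 _ _).1
  have hsum : ∀ (f : ℕ → Ω → ℝ), (∀ i, C0 (f i)) → (∀ i t, 0 ≤ f i t) → ∀ n,
      p (fun t => ∑ i ∈ Finset.range n, f i t) ≤ ∑ i ∈ Finset.range n, p (f i) := by
    intro f hf hf0 n
    induction n with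
    | zero =>
      simp only [Finset.range_zero, Finset.sum_empty]
      have := hC (fun _ => 0) 0 C0.zero (fun t => ⟨le_rfl, le_rfl⟩)
      simpa using this
    | succ n ih =>
      have h2 := hsub (fun t => ∑ i ∈ Finset.range n, f i t) (f n) (sum_C0 f hf n) (hf n)
        (fun t => Finset.sum_nonneg (fun i _ => hf0 i t)) (hf0 n)
      rw [Finset.sum_range_succ]
      have e : (fun t => ∑ i ∈ Finset.range (n + 1), f i t)
          = fun t => (∑ i ∈ Finset.range n, f i t) + f n t := by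
        funext t
        exact Finset.sum_range_succ _ _
      rw [e]
      linarith
  have hgeo : ∀ m : ℕ, ∑ i ∈ Finset.range m, δ / 2 ^ (i + 2) = δ / 2 - δ / 2 ^ (m + 1) := by
    intro m
    induction m with
    | zero => simp
    | succ m ih =>
      rw [Finset.sum_range_succ, ih]
      field_simp
      ring
  have hdiff : ∀ m, p (fun t => g m t - H g m t) ≤ δ / 2 := by
    intro m
    -- a common bound
    obtain ⟨N, hN⟩ : ∃ N, ∀ i ≤ m, i + K i ≤ N := by
      refine ⟨∑ i ∈ Finset.range (m + 1), (i + K i), fun i hi => ?_⟩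
      exact Finset.single_le_sum (f := fun i => i + K i) (fun _ _ => Nat.zero_le _)
        (Finset.mem_range.2 (by omega))
    obtain ⟨f, hf⟩ : ∃ f : ℕ → Ω → ℝ, ∀ i, f i = if i < m then
        (fun t => V φ i (N - i) t - V φ i (K i) t) else fun _ => 0 := ⟨_, fun _ => rfl⟩
    have hfC : ∀ i, C0 (f i) := by
      intro i
      rw [hf]
      split_ifs
      · exact (V_C0 hφ _ _).sub (V_C0 hφ _ _)
      · exact C0.zero
    have hf0 : ∀ i t, 0 ≤ f i t := by
      intro i t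
      rw [hf]
      split_ifs with h
      · have h2 := hN i h.le
        exact sub_nonneg.2 (V_mono φ i t (by omega))
      · exact le_rfl
    have hle : ∀ t, g m t - H g m t ≤ ∑ i ∈ Finset.range m, f i t := by
      intro t
      obtain ⟨j, hj, e⟩ := H_mem g m t
      rw [e]
      rcases Nat.lt_or_ge j m with h | h
      · have h2 : f j t ≤ ∑ i ∈ Finset.range m, f i t :=
          Finset.single_le_sum (f := fun i => f i t) (fun i _ => hf0 i t) (Finset.mem_range.2 h)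
        refine le_trans ?_ h2
        rw [hf, if_pos h, hg]
        show V φ m (K m) t - V φ j (K j) t ≤ V φ j (N - j) t - V φ j (K j) t
        have h3 : V φ m (K m) t ≤ V φ j (N - j) t := by
          obtain ⟨i, hi, e2⟩ := V_mem φ m (K m) t
          rw [e2]
          have h4 : m + i = j + (m + i - j) := by omega
          rw [h4]
          apply le_V
          have h5 := hN m le_rfl
          omega
        linarith
      · have h2 : j = m := le_antisymm hj h
        rw [h2, sub_self]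
        exact Finset.sum_nonneg (fun i _ => hf0 i t)
    have h2 : p (fun t => g m t - H g m t) ≤ p (fun t => ∑ i ∈ Finset.range m, f i t) := by
      apply hmono _ _ ((hgC m).sub (H_C0 hgC m)) (sum_C0 f hfC m)
      · intro t
        exact sub_nonneg.2 (H_le g m t)
      · exact hle
    refine h2.trans ((hsum f hfC hf0 m).trans ?_)
    have h3 : ∑ i ∈ Finset.range m, p (f i) ≤ ∑ i ∈ Finset.range m, δ / 2 ^ (i + 2) := by
      apply Finset.sum_le_sum
      intro i hi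
      have him := Finset.mem_range.1 hi
      rw [hf, if_pos him]
      apply hK
      have := hN i him.le
      omega
    rw [hgeo] at h3
    have h4 : 0 < δ / 2 ^ (m + 1) := by positivity
    linarith
  have hlow : ∀ m, δ / 2 ≤ p (H g m) := by
    intro m
    have h2 : p (φ m) ≤ p (g m) := by
      apply hmono _ _ (hφ m) (hgC m) (fun t => (h0 m t).1)
      intro t
      rw [hg]
      exact le_V φ m (K m) 0 (Nat.zero_le _) t
    have h3 := hsub (H g m) (fun t => g m t - H g m t) (H_C0 hgC m) ((hgC m).sub (H_C0 hgC m))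
      (hH0 m) (fun t => sub_nonneg.2 (H_le g m t))
    have e : (fun t => H g m t + (g m t - H g m t)) = g m := by
      funext t; ring
    rw [e] at h3
    have h4 := hdiff m
    have h5 := hp m
    linarith
  -- (3) Dini
  have hpt : ∀ t, ∀ c > 0, ∃ m, g m t < c := by
    intro t c hc
    have hev := (h1 t).eventually_lt_const hc
    rw [eventually_atTop] at hev
    obtain ⟨m, hm⟩ := hev
    refine ⟨m, ?_⟩
    rw [hg]
    show V φ m (K m) t < c
    obtain ⟨j, _, e⟩ := V_mem φ m (K m) t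
    rw [e]
    exact hm _ (by omega)
  have hdini : ∀ c > 0, ∃ m, ∀ t, H g m t < c := by
    intro c hc
    by_contra hcon
    push Not at hcon
    have hne := IsCompact.nonempty_iInter_of_sequence_nonempty_isCompact_isClosed
      (fun m : ℕ => {t : Ω | c ≤ |H g m t|})
      (fun m => by
        intro t ht
        have ht' : c ≤ |H g (m + 1) t| := ht
        show c ≤ |H g m t|
        rw [abs_of_nonneg (hH0 _ _)] at ht' ⊢
        exact ht'.trans (H_anti g t (Nat.le_succ m)))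
      (fun m => by
        obtain ⟨t, ht⟩ := hcon m
        refine ⟨t, ?_⟩
        show c ≤ |H g m t|
        rw [abs_of_nonneg (hH0 _ _)]
        exact ht)
      ((H_C0 hgC 0).2 c hc)
      (fun m => isClosed_le continuous_const (H_C0 hgC m).1.abs)
    obtain ⟨t, ht⟩ := hne
    rw [Set.mem_iInter] at ht
    obtain ⟨m, hm⟩ := hpt t c hc
    have h2 : c ≤ |H g m t| := ht m
    rw [abs_of_nonneg (hH0 _ _)] at h2
    have h3 := H_le g m t
    linarith
  -- (4)
  obtain ⟨m, hm⟩ := hdini (δ / (2 * (|C| + 1))) (by positivity)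
  have h2 := hC (H g m) (δ / (2 * (|C| + 1))) (H_C0 hgC m) (fun t => ⟨hH0 m t, (hm t).le⟩)
  have h3 := hlow m
  have h4 : C * (δ / (2 * (|C| + 1))) < δ / 2 := by
    have h5 : C * (δ / (2 * (|C| + 1))) ≤ |C| * (δ / (2 * (|C| + 1))) :=
      mul_le_mul_of_nonneg_right (le_abs_self C) (by positivity)
    have h6 : |C| * (δ / (2 * (|C| + 1))) < (|C| + 1) * (δ / (2 * (|C| + 1))) :=
      mul_lt_mul_of_pos_right (by linarith) (by positivity)
    have h7 : (|C| + 1) * (δ / (2 * (|C| + 1))) = δ / 2 := by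
      have : |C| + 1 ≠ 0 := by positivity
      field_simp
    linarith
  linarith

end Pool.Agent.TH113.SC2

namespace Pool.Agent.TH113.SC2
open Filter Topology Pool.Agent.TH313.SC

theorem submeasure_null {Ω : Type*} [TopologicalSpace Ω] (p : (Ω → ℝ) → ℝ) (C : ℝ)
    (hnonneg : ∀ f, C0 f → (∀ t, 0 ≤ f t) → 0 ≤ p f)
    (hmono : ∀ f g, C0 f → C0 g → (∀ t, 0 ≤ f t) → (∀ t, f t ≤ g t) → p f ≤ p g)
    (hsub : ∀ f g, C0 f → C0 g → (∀ t, 0 ≤ f t) → (∀ t, 0 ≤ g t) → p (fun t => f t + g t) ≤ p f + p g)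
    (hC : ∀ f c, C0 f → (∀ t, 0 ≤ f t ∧ f t ≤ c) → p f ≤ C * c)
    (hexh : ∀ ψ : ℕ → Ω → ℝ, (∀ i, C0 (ψ i)) → (∀ i t, 0 ≤ ψ i t) →
      (∀ n t, ∑ i ∈ Finset.range n, ψ i t ≤ 1) → Tendsto (fun i => p (ψ i)) atTop (𝓝 0))
    (φ : ℕ → Ω → ℝ) (hφ : ∀ m, C0 (φ m)) (h0 : ∀ m t, 0 ≤ φ m t ∧ φ m t ≤ 1)
    (h1 : ∀ t, Tendsto (fun m => φ m t) atTop (𝓝 0)) : Tendsto (fun m => p (φ m)) atTop (𝓝 0) := by
  by_contra hcon
  rw [Metric.tendsto_atTop] at hcon
  push Not at hcon
  obtain ⟨δ, hδ, hfr⟩ := hcon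
  have hfreq : ∃ᶠ m in atTop, δ ≤ p (φ m) := by
    rw [frequently_atTop]
    intro N
    obtain ⟨n, hn, h2⟩ := hfr N
    refine ⟨n, hn, ?_⟩
    rw [Real.dist_eq, sub_zero, abs_of_nonneg (hnonneg _ (hφ n) (fun t => (h0 n t).1))] at h2
    exact h2
  obtain ⟨n, hn, hn2⟩ := extraction_of_frequently_atTop hfreq
  exact main p C hmono hsub hC hexh (fun m => φ (n m)) (fun m => hφ _) (fun m t => h0 _ t)
    (fun t => (h1 t).comp hn.tendsto_atTop) δ hδ hn2

end Pool.Agent.TH113.SC2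

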