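import Pool.Agent.TH239.FF.Gen

set_option autoImplicit false

namespace Pool.Agent.TH113.J942

open Pool.Agent.TH239.FF
open Set Filter Topology MeasureTheory

theorem summ (j : ℕ) {x : ℝ} (hx : 0 < x) :
    Summable (fun n : ℕ => ((n : ℝ) + 1) ^ j * Real.exp (-((n : ℝ) + 1) * x)) := by
  have h := Real.summable_pow_mul_exp_neg_nat_mul j hx
  have h2 := (summable_nat_add_iff 1).2 h
  refine h2.congr fun n => ?_
  push_cast
  congr 2
  ring

variable {c : ℕ → ℝ → ℝ}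

theorem c1 (h : Sol c) (n : ℕ) (t : ℝ) (ht : 0 ≤ t) : c n t ≤ 1 := by
  have h1 := h.sm t ht
  have := h1.summable.le_tsum n (fun m _ => h.nn m t ht)
  rwa [h1.tsum_eq] at this

theorem term_nn (h : Sol c) (j n : ℕ) (t x : ℝ) (ht : 0 ≤ t) :
    0 ≤ ((n : ℝ) + 1) ^ j * c n t * Real.exp (-((n : ℝ) + 1) * x) := by
  have := h.nn n t ht
  positivity

theorem term_le (h : Sol c) (j n : ℕ) (t x : ℝ) (ht : 0 ≤ t) :
    ((n : ℝ) + 1) ^ j * c n t * Real.exp (-((n : ℝ) + 1) * x) ≤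
      ((n : ℝ) + 1) ^ j * Real.exp (-((n : ℝ) + 1) * x) := by
  have h1 := h.nn n t ht
  have h2 := c1 h n t ht
  have h3 : ((n : ℝ) + 1) ^ j * c n t ≤ ((n : ℝ) + 1) ^ j := by
    have : (0 : ℝ) ≤ ((n : ℝ) + 1) ^ j := by positivity
    nlinarith
  exact mul_le_mul_of_nonneg_right h3 (Real.exp_pos _).le

theorem su (h : Sol c) (j : ℕ) (t x : ℝ) (ht : 0 ≤ t) (hx : 0 < x) :
    Summable (fun n : ℕ => ((n : ℝ) + 1) ^ j * c n t * Real.exp (-((n : ℝ) + 1) * x)) :=
  Summable.of_nonneg_of_le (fun n => term_nn h j n t x ht) (fun n => term_le h j n t x ht)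
    (summ j hx)

theorem de (h : Sol c) (j : ℕ) (t x : ℝ) (ht : 0 ≤ t) (hx : 0 < x) :
    HasDerivAt (fun y => mo c j t y) (-(mo c (j + 1) t x)) x := by
  have key := hasDerivAt_tsum_of_isPreconnected (𝕜 := ℝ) (F := ℝ)
    (u := fun n : ℕ => ((n : ℝ) + 1) ^ (j + 1) * Real.exp (-((n : ℝ) + 1) * (x / 2)))
    (g := fun (n : ℕ) (y : ℝ) => ((n : ℝ) + 1) ^ j * c n t * Real.exp (-((n : ℝ) + 1) * y))
    (g' := fun (n : ℕ) (y : ℝ) =>
      -(((n : ℝ) + 1) ^ (j + 1) * c n t * Real.exp (-((n : ℝ) + 1) * y)))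
    (t := Ioi (x / 2)) (y₀ := x) (y := x) (summ (j + 1) (by positivity)) isOpen_Ioi
    isPreconnected_Ioi ?_ ?_ (by simp only [mem_Ioi]; linarith) (su h j t x ht hx)
    (by simp only [mem_Ioi]; linarith)
  · have e : (∑' n : ℕ, -(((n : ℝ) + 1) ^ (j + 1) * c n t * Real.exp (-((n : ℝ) + 1) * x)))
        = -(mo c (j + 1) t x) := by
      rw [tsum_neg]; rfl
    rw [e] at key
    exact key
  · intro n y _
    have h1 : HasDerivAt (fun y : ℝ => -((n : ℝ) + 1) * y) (-((n : ℝ) + 1)) y := by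
      simpa using (hasDerivAt_id y).const_mul (-((n : ℝ) + 1))
    have h2 := (h1.exp).const_mul (((n : ℝ) + 1) ^ j * c n t)
    refine h2.congr_deriv ?_
    ring
  · intro n y hy
    simp only [mem_Ioi] at hy
    rw [norm_neg, Real.norm_of_nonneg (term_nn h (j + 1) n t y ht)]
    refine (term_le h (j + 1) n t y ht).trans ?_
    apply mul_le_mul_of_nonneg_left _ (by positivity)
    apply Real.exp_le_exp.2
    have : (0 : ℝ) < (n : ℝ) + 1 := by positivity
    nlinarith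

theorem co (h : Sol c) (j : ℕ) :
    ContinuousOn (fun p : ℝ × ℝ => mo c j p.1 p.2) (Ici 0 ×ˢ Ioi 0) := by
  have H : ∀ a : ℝ, 0 < a →
      ContinuousOn (fun p : ℝ × ℝ => mo c j p.1 p.2) (Ici 0 ×ˢ Ioi a) := by
    intro a ha
    unfold mo
    refine continuousOn_tsum (u := fun n : ℕ => ((n : ℝ) + 1) ^ j * Real.exp (-((n : ℝ) + 1) * a))
      ?_ (summ j ha) ?_
    · intro n
      have h1 : ContinuousOn (fun p : ℝ × ℝ => c n p.1) (Ici 0 ×ˢ Ioi a) :=
        (h.ct n).comp continuousOn_fst (fun p hp => hp.1)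
      have h2 : ContinuousOn (fun p : ℝ × ℝ => Real.exp (-((n : ℝ) + 1) * p.2))
          (Ici 0 ×ˢ Ioi a) := by fun_prop
      exact (continuousOn_const.mul h1).mul h2
    · rintro n ⟨t, y⟩ ⟨ht, hy⟩
      simp only [mem_Ici, mem_Ioi] at ht hy
      rw [Real.norm_of_nonneg (term_nn h j n t y ht)]
      refine (term_le h j n t y ht).trans ?_
      apply mul_le_mul_of_nonneg_left _ (by positivity)
      apply Real.exp_le_exp.2
      have : (0 : ℝ) < (n : ℝ) + 1 := by positivity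
      nlinarith
  rintro p ⟨hp1, hp2⟩
  simp only [mem_Ici, mem_Ioi] at hp1 hp2
  have h1 := H (p.2 / 2) (by positivity) p ⟨hp1, by simp only [mem_Ioi]; linarith⟩
  refine h1.mono_of_mem_nhdsWithin ?_
  rw [mem_nhdsWithin]
  refine ⟨univ ×ˢ Ioi (p.2 / 2), isOpen_univ.prod isOpen_Ioi,
    ⟨mem_univ _, by simp only [mem_Ioi]; linarith⟩, ?_⟩
  rintro ⟨a, b⟩ ⟨⟨_, h2⟩, ⟨h3, _⟩⟩
  exact ⟨h3, h2⟩

theorem no (h : Sol c) (j : ℕ) (t x : ℝ) (ht : 0 ≤ t) : 0 ≤ mo c j t x :=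
  tsum_nonneg fun n => term_nn h j n t x ht

theorem le_c (h : Sol c) (n : ℕ) (t x : ℝ) (ht : 0 ≤ t) (hx : 0 ≤ x) :
    ((n : ℝ) + 1) ^ 0 * c n t * Real.exp (-((n : ℝ) + 1) * x) ≤ c n t := by
  have h1 := h.nn n t ht
  have h2 : Real.exp (-((n : ℝ) + 1) * x) ≤ 1 := by
    apply Real.exp_le_one_iff.2
    have : (0 : ℝ) < (n : ℝ) + 1 := by positivity
    nlinarith
  rw [pow_zero, one_mul]
  exact mul_le_of_le_one_right h1 h2

theorem su0 (h : Sol c) (t x : ℝ) (ht : 0 ≤ t) (hx : 0 ≤ x) :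
    Summable (fun n : ℕ => ((n : ℝ) + 1) ^ 0 * c n t * Real.exp (-((n : ℝ) + 1) * x)) :=
  Summable.of_nonneg_of_le (fun n => term_nn h 0 n t x ht) (fun n => le_c h n t x ht hx)
    (h.sm t ht).summable

theorem m0 (h : Sol c) (t x : ℝ) (ht : 0 ≤ t) (hx : 0 ≤ x) : mo c 0 t x ≤ Real.exp (-x) := by
  have h1 : HasSum (fun n => c n t * Real.exp (-x)) (1 * Real.exp (-x)) :=
    (h.sm t ht).mul_right _
  rw [one_mul] at h1
  rw [← h1.tsum_eq]
  refine Summable.tsum_le_tsum (fun n => ?_) (su0 h t x ht hx) h1.summable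
  rw [pow_zero, one_mul]
  apply mul_le_mul_of_nonneg_left _ (h.nn n t ht)
  apply Real.exp_le_exp.2
  have : (0 : ℝ) ≤ n := by positivity
  nlinarith

theorem lo (h : Sol c) (j : ℕ) (t x : ℝ) (ht : 0 ≤ t) (hx : 0 < x) :
    c 0 t * Real.exp (-x) ≤ mo c j t x := by
  have := (su h j t x ht hx).le_tsum 0 (fun n _ => term_nn h j n t x ht)
  refine le_trans (le_of_eq ?_) this
  simp

theorem m2 (h : Sol c) (t x : ℝ) (ht : 0 ≤ t) (hx : 0 < x) :
    mo c 2 t x ≤ 16 / x ^ 2 * Real.exp (-x / 2) := by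
  have h1 : HasSum (fun n => c n t * (16 / x ^ 2 * Real.exp (-x / 2)))
      (1 * (16 / x ^ 2 * Real.exp (-x / 2))) := (h.sm t ht).mul_right _
  rw [one_mul] at h1
  rw [← h1.tsum_eq]
  refine Summable.tsum_le_tsum (fun n => ?_) (su h 2 t x ht hx) h1.summable
  have hn : (0 : ℝ) < (n : ℝ) + 1 := by positivity
  have hc := h.nn n t ht
  rw [mul_comm (((n : ℝ) + 1) ^ 2) (c n t), mul_assoc]
  apply mul_le_mul_of_nonneg_left _ hc
  set y : ℝ := ((n : ℝ) + 1) * x with hy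
  have hy0 : 0 < y := by positivity
  have h2 : y ≤ 4 * Real.exp (y / 4) := by
    have := Real.add_one_le_exp (y / 4)
    linarith
  have h3 : y ^ 2 ≤ 16 * Real.exp (y / 2) := by
    have h4 : y ^ 2 ≤ (4 * Real.exp (y / 4)) ^ 2 := pow_le_pow_left₀ hy0.le h2 2
    have h5 : (4 * Real.exp (y / 4)) ^ 2 = 16 * Real.exp (y / 2) := by
      rw [mul_pow, ← Real.exp_nat_mul]
      norm_num
      ring
    linarith
  have h6 : Real.exp (-((n : ℝ) + 1) * x) = Real.exp (-(y / 2)) * Real.exp (-(y / 2)) := by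
    rw [← Real.exp_add]
    congr 1
    rw [hy]; ring
  have h7 : ((n : ℝ) + 1) ^ 2 = y ^ 2 / x ^ 2 := by
    rw [hy]; field_simp
  have h8 : Real.exp (-(y / 2)) ≤ Real.exp (-x / 2) := by
    apply Real.exp_le_exp.2
    have : x ≤ y := by
      rw [hy]
      have : (0 : ℝ) ≤ n := by positivity
      nlinarith
    linarith
  have h9 : y ^ 2 * Real.exp (-(y / 2)) ≤ 16 := by
    have : Real.exp (y / 2) * Real.exp (-(y / 2)) = 1 := by
      rw [← Real.exp_add]; simp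
    have h10 := mul_le_mul_of_nonneg_right h3 (Real.exp_pos (-(y / 2))).le
    calc y ^ 2 * Real.exp (-(y / 2)) ≤ 16 * Real.exp (y / 2) * Real.exp (-(y / 2)) := h10
      _ = 16 * (Real.exp (y / 2) * Real.exp (-(y / 2))) := by ring
      _ = 16 := by rw [this]; ring
  rw [h6, h7]
  have hx2 : (0 : ℝ) < x ^ 2 := by positivity
  calc y ^ 2 / x ^ 2 * (Real.exp (-(y / 2)) * Real.exp (-(y / 2)))
      = (y ^ 2 * Real.exp (-(y / 2))) / x ^ 2 * Real.exp (-(y / 2)) := by ring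
    _ ≤ 16 / x ^ 2 * Real.exp (-x / 2) := by
        apply mul_le_mul _ h8 (Real.exp_pos _).le (by positivity)
        exact div_le_div_of_nonneg_right h9 hx2.le

theorem m1 (h : Sol c) (t x : ℝ) (ht : 0 ≤ t) (hx : 0 < x) : x * mo c 1 t x ≤ U c t x := by
  have h1 : U c t x = ∑' n : ℕ, (c n t - ((n : ℝ) + 1) ^ 0 * c n t *
      Real.exp (-((n : ℝ) + 1) * x)) := by
    rw [Summable.tsum_sub (h.sm t ht).summable (su0 h t x ht hx.le), (h.sm t ht).tsum_eq]
    rfl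
  rw [h1]
  unfold mo
  rw [← tsum_mul_left]
  refine Summable.tsum_le_tsum (fun n => ?_) ((su h 1 t x ht hx).mul_left x)
    ((h.sm t ht).summable.sub (su0 h t x ht hx.le))
  have hc := h.nn n t ht
  set y : ℝ := ((n : ℝ) + 1) * x with hy
  have h2 : -((n : ℝ) + 1) * x = -y := by rw [hy]; ring
  rw [h2]
  have h3 : y * Real.exp (-y) ≤ 1 - Real.exp (-y) := by
    have h4 := Real.add_one_le_exp y
    have h5 : Real.exp y * Real.exp (-y) = 1 := by rw [← Real.exp_add]; simp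
    have h6 := mul_le_mul_of_nonneg_right h4 (Real.exp_pos (-y)).le
    rw [h5] at h6
    linarith
  have h7 := mul_le_mul_of_nonneg_left h3 hc
  calc x * (((n : ℝ) + 1) ^ 1 * c n t * Real.exp (-y))
      = c n t * (y * Real.exp (-y)) := by rw [hy]; ring
    _ ≤ c n t * (1 - Real.exp (-y)) := h7
    _ = c n t - ((n : ℝ) + 1) ^ 0 * c n t * Real.exp (-y) := by ring

theorem ut (h : Sol c) (t : ℝ) (ht : 0 ≤ t) : Tendsto (fun x => U c t x) (𝓝[>] 0) (𝓝 0) := by
  have h1 : Tendsto (fun x => mo c 0 t x) (𝓝[>] 0) (𝓝 (∑' n, c n t)) := by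
    unfold mo
    refine tendsto_tsum_of_dominated_convergence (bound := fun n => c n t)
      (h.sm t ht).summable ?_ ?_
    · intro n
      have h2 : Continuous (fun x : ℝ => ((n : ℝ) + 1) ^ 0 * c n t *
          Real.exp (-((n : ℝ) + 1) * x)) := by fun_prop
      have h3 := h2.tendsto 0
      simp only [mul_zero, Real.exp_zero, mul_one, pow_zero, one_mul] at h3
      refine (h3.mono_left nhdsWithin_le_nhds).congr fun x => ?_
      rw [pow_zero, one_mul]
    · filter_upwards [self_mem_nhdsWithin] with x hx n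
      rw [Real.norm_of_nonneg (term_nn h 0 n t x ht)]
      exact le_c h n t x ht (le_of_lt hx)
  rw [(h.sm t ht).tsum_eq] at h1
  have h2 := (tendsto_const_nhds (x := (1 : ℝ))).sub h1
  rw [sub_self] at h2
  exact h2

theorem gen_of_sol {c : ℕ → ℝ → ℝ} (h : Sol c) : Gen c where
  su := su h
  de := de h
  co := co h
  no := no h
  m0 := m0 h
  lo := lo h
  m2 := m2 h
  m1 := m1 h
  ut := ut h

end Pool.Agent.TH113.J942
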