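import Pool.Agent.TH490.StmG

/-!
Points on lines and planes, collinear triples (job MP325-G2b, for MP_325b7c_co).
-/

set_option autoImplicit false

namespace Pool.Agent.TH113.MP325

open Finset Classical Pool.Agent.TH490

theorem toZ_inj {N : ℕ} : Function.Injective (toZ : Pos N → V3) := by
  intro x y h
  funext i
  have := congrFun h i
  simp only [Pool.Agent.TH490.toZ] at this
  exact Fin.ext (by exact_mod_cast this)

theorem cr_eq_zero_iff (a b : V3) : cr a b = 0 ↔
    a 1 * b 2 = a 2 * b 1 ∧ a 2 * b 0 = a 0 * b 2 ∧ a 0 * b 1 = a 1 * b 0 := by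
  unfold cr
  rw [funext_iff, Fin.forall_fin_succ, Fin.forall_fin_succ, Fin.forall_fin_one]
  simp only [Matrix.cons_val_zero, Pi.zero_apply, sub_eq_zero]
  constructor
  · rintro ⟨h1, h2, h3⟩
    refine ⟨h1, ?_, ?_⟩
    · exact sub_eq_zero.1 h2
    · exact sub_eq_zero.1 h3
  · rintro ⟨h1, h2, h3⟩
    exact ⟨h1, sub_eq_zero.2 h2, sub_eq_zero.2 h3⟩

/-- symmetric form of the vanishing of the cross product -/
theorem cr_zero_mul {a b : V3} (h : cr a b = 0) (i j : Fin 3) : a i * b j = a j * b i := by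
  obtain ⟨h1, h2, h3⟩ := (cr_eq_zero_iff a b).1 h
  fin_cases i <;> fin_cases j <;> first | rfl | (simp only [] at *; first | exact h1 | exact h2 | exact h3 | exact h1.symm | exact h2.symm | exact h3.symm)

theorem cr_zero_coord {d w : V3} {i : Fin 3} (h : cr d w = 0) (hd : d i ≠ 0) (hw : w i = 0) :
    w = 0 := by
  funext j
  have := cr_zero_mul h i j
  rw [hw, mul_zero] at this
  exact (mul_eq_zero.1 this).resolve_left hd

theorem exists_coord {d : V3} (h : d ≠ 0) : ∃ i, d i ≠ 0 := by
  by_contra hc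
  push Not at hc
  exact h (funext hc)

theorem card_le_of_coord {N : ℕ} (S : Finset (Pos N)) (i : Fin 3)
    (h : ∀ z ∈ S, ∀ z' ∈ S, z i = z' i → z = z') : S.card ≤ N := by
  have h1 : S.card ≤ (univ : Finset (Fin N)).card :=
    Finset.card_le_card_of_injOn (fun z => z i) (fun _ _ => Finset.mem_coe.2 (Finset.mem_univ _))
      (fun z hz z' hz' e => h z hz z' hz' e)
  simpa using h1

theorem toZ_coord {N : ℕ} {z z' : Pos N} {i : Fin 3} (h : z i = z' i) :
    (toZ z - toZ z') i = 0 := by
  simp [Pool.Agent.TH490.toZ, h]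

theorem cr_sub (d u v : V3) : cr d (u - v) = cr d u - cr d v := by
  funext i
  fin_cases i <;> simp [cr] <;> ring

theorem col_pair {N : ℕ} {x y z z' : Pos N} (h : Col x y z) (h' : Col x y z') :
    cr (toZ y - toZ x) (toZ z - toZ z') = 0 := by
  have e : toZ z - toZ z' = (toZ z - toZ x) - (toZ z' - toZ x) := by abel
  rw [e, cr_sub]
  unfold Col at h h'
  rw [h, h', sub_zero]

theorem g2_line : G2_line := by
  intro N x y hxy
  have hd : toZ y - toZ x ≠ 0 := by
    intro h
    exact hxy (toZ_inj (sub_eq_zero.1 h).symm)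
  obtain ⟨i, hi⟩ := exists_coord hd
  apply card_le_of_coord _ i
  intro z hz z' hz' e
  rw [Finset.mem_filter] at hz hz'
  exact toZ_inj (sub_eq_zero.1 (cr_zero_coord (col_pair hz.2 hz'.2) hi (toZ_coord e)))

theorem dot_sub (a u v : V3) : dot a (u - v) = dot a u - dot a v := by
  simp only [dot, Pi.sub_apply]; ring

theorem cr_cr {a b w : V3} (h1 : dot a w = 0) (h2 : dot b w = 0) : cr (cr a b) w = 0 := by
  unfold dot at h1 h2
  rw [cr_eq_zero_iff]
  simp only [cr, Matrix.cons_val_zero, Matrix.cons_val_one, Matrix.cons_val]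
  refine ⟨?_, ?_, ?_⟩
  · linear_combination b 0 * h1 - a 0 * h2
  · linear_combination b 1 * h1 - a 1 * h2
  · linear_combination b 2 * h1 - a 2 * h2

theorem g2_twoplane : G2_twoplane := by
  intro N a b hab e f
  obtain ⟨i, hi⟩ := exists_coord hab
  apply card_le_of_coord _ i
  intro z hz z' hz' h
  rw [Finset.mem_filter] at hz hz'
  have h1 : dot a (toZ z - toZ z') = 0 := by rw [dot_sub, hz.2.1, hz'.2.1, sub_self]
  have h2 : dot b (toZ z - toZ z') = 0 := by rw [dot_sub, hz.2.2, hz'.2.2, sub_self]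
  exact toZ_inj (sub_eq_zero.1 (cr_zero_coord (cr_cr h1 h2) hi (toZ_coord h)))

theorem g2_oneplane : G2_oneplane := by
  intro N a ha e
  obtain ⟨i, hi⟩ := exists_coord ha
  have h1 : (univ.filter (fun z : Pos N => dot a (toZ z) = e)).card ≤
      (univ : Finset (Fin N × Fin N)).card := by
    apply Finset.card_le_card_of_injOn (fun z => (z (i + 1), z (i + 2)))
      (fun _ _ => Finset.mem_coe.2 (Finset.mem_univ _))
    intro z hz z' hz' h
    have hz := (Finset.mem_filter.1 (Finset.mem_coe.1 hz)).2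
    have hz' := (Finset.mem_filter.1 (Finset.mem_coe.1 hz')).2
    simp only [Prod.mk.injEq] at h
    have e1 : dot a (toZ z - toZ z') = 0 := by rw [dot_sub, hz, hz', sub_self]
    have e2 := toZ_coord h.1
    have e3 := toZ_coord h.2
    have e4 : a i * (toZ z - toZ z') i = 0 := by
      unfold dot at e1
      fin_cases i <;> simp_all
    have e5 := (mul_eq_zero.1 e4).resolve_left hi
    apply toZ_inj
    rw [← sub_eq_zero]
    funext j
    have : j = i ∨ j = i + 1 ∨ j = i + 2 := by
      fin_cases i <;> fin_cases j <;> decide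
    rcases this with rfl | rfl | rfl
    · exact e5
    · exact e2
    · exact e3
  simpa [sq] using h1

theorem nrm_coord (d : V3) : ∃ i, (d i).natAbs = nrm d := by
  unfold nrm
  rcases max_choice (d 0).natAbs (max (d 1).natAbs (d 2).natAbs) with h | h
  · exact ⟨0, h.symm⟩
  · rcases max_choice (d 1).natAbs (d 2).natAbs with h' | h'
    · exact ⟨1, by rw [h, h']⟩
    · exact ⟨2, by rw [h, h']⟩

theorem coord_le_nrm (d : V3) (i : Fin 3) : (d i).natAbs ≤ nrm d := by
  unfold nrm
  fin_cases i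
  · exact le_max_left _ _
  · exact (le_max_left _ _).trans (le_max_right _ _)
  · exact (le_max_right _ _).trans (le_max_right _ _)

theorem cont_dvd (d : V3) (i : Fin 3) : cont d ∣ (d i).natAbs := by
  unfold cont
  fin_cases i
  · exact Nat.gcd_dvd_left _ _
  · exact (Nat.gcd_dvd_right _ _).trans (Nat.gcd_dvd_left _ _)
  · exact (Nat.gcd_dvd_right _ _).trans (Nat.gcd_dvd_right _ _)

theorem cont_pos {d : V3} (h : d ≠ 0) : 0 < cont d := by
  obtain ⟨i, hi⟩ := exists_coord h
  exact Nat.pos_of_dvd_of_pos (cont_dvd d i) (Int.natAbs_pos.2 hi)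

theorem dvd_mul_cont {m n : ℕ} {d : V3} (h : ∀ j, m ∣ n * (d j).natAbs) : m ∣ n * cont d := by
  unfold cont
  rw [← Nat.gcd_mul_left, ← Nat.gcd_mul_left]
  exact Nat.dvd_gcd (h 0) (Nat.dvd_gcd (h 1) (h 2))

theorem Sn_mul_cont (d : V3) : Sn d * cont d = nrm d := by
  obtain ⟨i, hi⟩ := nrm_coord d
  unfold Sn
  exact Nat.div_mul_cancel (hi ▸ cont_dvd d i)

theorem nrm_pos {d : V3} (h : d ≠ 0) : 0 < nrm d := by
  obtain ⟨i, hi⟩ := exists_coord h
  exact lt_of_lt_of_le (Int.natAbs_pos.2 hi) (coord_le_nrm d i)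

theorem Sn_pos {d : V3} (h : d ≠ 0) : 0 < Sn d := by
  rcases Nat.eq_zero_or_pos (Sn d) with h0 | h0
  · have := Sn_mul_cont d
    rw [h0, zero_mul] at this
    have := nrm_pos h
    omega
  · exact h0

theorem Sn_le_nrm (d : V3) : Sn d ≤ nrm d := Nat.div_le_self _ _

theorem diff_coord {N : ℕ} (x y : Pos N) (i : Fin 3) : ((toZ y - toZ x) i).natAbs < N := by
  simp only [Pool.Agent.TH490.toZ, Pi.sub_apply]
  have h1 := (x i).isLt
  have h2 := (y i).isLt
  omega

theorem nrm_diff {N : ℕ} (x y : Pos N) : nrm (toZ y - toZ x) < N := by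
  obtain ⟨i, hi⟩ := nrm_coord (toZ y - toZ x)
  rw [← hi]; exact diff_coord x y i

/-- number of points on a line through two points of the box -/
theorem line_card {N : ℕ} (y a : Pos N) (h : y ≠ a) :
    (univ.filter (fun b : Pos N => Col y a b)).card ≤ N / Sn (toZ a - toZ y) + 1 := by
  have hd : toZ a - toZ y ≠ 0 := fun h' => h (toZ_inj (sub_eq_zero.1 h').symm)
  obtain ⟨i, hi⟩ := nrm_coord (toZ a - toZ y)
  have hpos := nrm_pos hd
  have hdi : (toZ a - toZ y) i ≠ 0 := by
    intro h0; rw [h0] at hi; simp at hi; omega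
  have key : ∀ b : Pos N, Col y a b → (Sn (toZ a - toZ y) : ℤ) ∣ (toZ b - toZ y) i := by
    intro b hb
    rw [Int.natCast_dvd]
    have h1 : nrm (toZ a - toZ y) ∣ ((toZ b - toZ y) i).natAbs * cont (toZ a - toZ y) := by
      apply dvd_mul_cont
      intro j
      rw [← hi, ← Int.natAbs_mul]
      have h2 := cr_zero_mul hb i j
      rw [Int.natAbs_dvd_natAbs]
      refine ⟨(toZ b - toZ y) j, ?_⟩
      rw [h2]; ring
    rw [← Sn_mul_cont] at h1
    exact Nat.dvd_of_mul_dvd_mul_right (cont_pos hd) h1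
  have hS : 0 < Sn (toZ a - toZ y) := Sn_pos hd
  have h1 : (univ.filter (fun b : Pos N => Col y a b)).card ≤
      (range (N / Sn (toZ a - toZ y) + 1)).card := by
    apply Finset.card_le_card_of_injOn (fun b => (b i : ℕ) / Sn (toZ a - toZ y))
    · intro b _
      have : (b i : ℕ) / Sn (toZ a - toZ y) ≤ N / Sn (toZ a - toZ y) :=
        Nat.div_le_div_right (b i).isLt.le
      simp only [Finset.coe_range, Set.mem_Iio]
      omega
    · intro b hb b' hb' e
      have hb := (Finset.mem_filter.1 (Finset.mem_coe.1 hb)).2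
      have hb' := (Finset.mem_filter.1 (Finset.mem_coe.1 hb')).2
      have k1 := key b hb
      have k2 := key b' hb'
      have k3 : (Sn (toZ a - toZ y) : ℤ) ∣ (((b i : ℕ) : ℤ) - ((b' i : ℕ) : ℤ)) := by
        have := dvd_sub k1 k2
        simpa [Pool.Agent.TH490.toZ] using this
      have k4 : (b i : ℕ) ≡ (b' i : ℕ) [MOD Sn (toZ a - toZ y)] :=
        ((Nat.modEq_iff_dvd).2 (by simpa using (dvd_neg.2 k3))) 
      have k5 : (b i : ℕ) = (b' i : ℕ) := by
        simp only [] at e
        rw [← Nat.div_add_mod (b i : ℕ) (Sn (toZ a - toZ y)),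
          ← Nat.div_add_mod (b' i : ℕ) (Sn (toZ a - toZ y)), e, k4]
      exact toZ_inj (sub_eq_zero.1 (cr_zero_coord (col_pair hb hb') hdi
        (toZ_coord (Fin.ext k5))))
  simpa using h1

theorem line_card' {N : ℕ} (y a : Pos N) (h : y ≠ a) :
    ((univ.filter (fun b : Pos N => Col y a b)).card : ℝ) ≤
      2 * N * (1 / (Sn (toZ a - toZ y) : ℝ)) := by
  have hd : toZ a - toZ y ≠ 0 := fun h' => h (toZ_inj (sub_eq_zero.1 h').symm)
  have h1 := line_card y a h
  have hS : 0 < Sn (toZ a - toZ y) := Sn_pos hd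
  have hS' : (0 : ℝ) < Sn (toZ a - toZ y) := by exact_mod_cast hS
  have hle : Sn (toZ a - toZ y) ≤ N := (Sn_le_nrm _).trans (nrm_diff _ _).le
  have hle' : (Sn (toZ a - toZ y) : ℝ) ≤ N := by exact_mod_cast hle
  have h2 : ((univ.filter (fun b : Pos N => Col y a b)).card : ℝ) ≤
      ((N / Sn (toZ a - toZ y) : ℕ) : ℝ) + 1 := by exact_mod_cast h1
  have h3 : ((N / Sn (toZ a - toZ y) : ℕ) : ℝ) ≤ (N : ℝ) / Sn (toZ a - toZ y) := Nat.cast_div_le
  have h4 : (1 : ℝ) ≤ (N : ℝ) / Sn (toZ a - toZ y) := by rwa [one_le_div hS']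
  calc _ ≤ (N : ℝ) / Sn (toZ a - toZ y) + (N : ℝ) / Sn (toZ a - toZ y) := by linarith
    _ = _ := by ring

theorem mem_cube {N : ℕ} (x y : Pos N) : toZ y - toZ x ∈ cube N := by
  unfold cube
  rw [Fintype.mem_piFinset]
  intro i
  have := diff_coord x y i
  rw [Finset.mem_Icc]
  omega

theorem g2_col (hs : G2_sum) : G2_col := by
  refine ⟨53, by norm_num, ?_⟩
  intro N y
  have e1 : ((univ.filter (fun t : Pos N × Pos N => Col y t.1 t.2)).card : ℝ) =
      ∑ a : Pos N, ((univ.filter (fun b : Pos N => Col y a b)).card : ℝ) := by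
    simp only [Finset.card_filter]
    push_cast
    exact Fintype.sum_prod_type (fun t : Pos N × Pos N => if Col y t.1 t.2 then (1 : ℝ) else 0)
  rw [e1, ← Finset.add_sum_erase _ _ (Finset.mem_univ y)]
  have e2 : ((univ.filter (fun b : Pos N => Col y y b)).card : ℝ) ≤ (N : ℝ) ^ 3 := by
    have : (univ.filter (fun b : Pos N => Col y y b)).card ≤ (univ : Finset (Pos N)).card :=
      Finset.card_le_card (Finset.filter_subset _ _)
    have h2 : (univ : Finset (Pos N)).card = N ^ 3 := by simp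
    rw [h2] at this
    exact_mod_cast this
  have e3 : ∑ a ∈ univ.erase y, ((univ.filter (fun b : Pos N => Col y a b)).card : ℝ) ≤
      2 * N * (26 * (N : ℝ) ^ 2) := by
    calc ∑ a ∈ univ.erase y, ((univ.filter (fun b : Pos N => Col y a b)).card : ℝ)
        ≤ ∑ a ∈ univ.erase y, 2 * N * (1 / (Sn (toZ a - toZ y) : ℝ)) := by
          apply Finset.sum_le_sum
          intro a ha
          exact line_card' y a (Finset.ne_of_mem_erase ha).symm
      _ = 2 * N * ∑ a ∈ univ.erase y, (1 / (Sn (toZ a - toZ y) : ℝ)) := by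
          rw [Finset.mul_sum]
      _ ≤ 2 * N * ∑ d ∈ (cube N).filter (fun d => d ≠ 0), (1 : ℝ) / Sn d := by
          apply mul_le_mul_of_nonneg_left _ (by positivity)
          have hinj : Set.InjOn (fun a : Pos N => toZ a - toZ y) (univ.erase y : Finset (Pos N)) := by
            intro a _ a' _ h
            exact toZ_inj (sub_left_injective h)
          rw [← Finset.sum_image (f := fun d : V3 => (1 : ℝ) / Sn d) hinj]
          apply Finset.sum_le_sum_of_subset_of_nonneg
          · intro d hd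
            obtain ⟨a, ha, rfl⟩ := Finset.mem_image.1 hd
            rw [Finset.mem_filter]
            refine ⟨mem_cube _ _, ?_⟩
            intro h0
            exact Finset.ne_of_mem_erase ha (toZ_inj (sub_eq_zero.1 h0))
          · intro d _ _; positivity
      _ ≤ 2 * N * (26 * (N : ℝ) ^ 2) := by
          apply mul_le_mul_of_nonneg_left (hs N) (by positivity)
  calc _ ≤ (N : ℝ) ^ 3 + 2 * N * (26 * (N : ℝ) ^ 2) := add_le_add e2 e3
    _ = 53 * (N : ℝ) ^ 3 := by ring

/-- Points on lines and planes, collinear triples. -/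
theorem g2b : G2_sum → G2_line ∧ G2_twoplane ∧ G2_oneplane ∧ G2_col :=
  fun hs => ⟨g2_line, g2_twoplane, g2_oneplane, g2_col hs⟩

end Pool.Agent.TH113.MP325
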