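import Pool.Agent.TH490.StmG

/-!
Counts of bad tuples (jobs MP325-G5a, MP325-G5b, for MP_325b7c_co).
-/

set_option autoImplicit false

namespace Pool.Agent.TH113.MP325

open Finset Classical Pool.Agent.TH490

theorem count_le {T I : Type*} (S : Finset T) (s : Finset I) (Q : I → Finset T)
    (h : ∀ t ∈ S, ∃ i ∈ s, t ∈ Q i) : S.card ≤ ∑ i ∈ s, (Q i).card := by
  refine (Finset.card_le_card ?_).trans (Finset.card_biUnion_le (s := s) (t := Q))
  intro t ht
  obtain ⟨i, hi, hti⟩ := h t ht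
  exact Finset.mem_biUnion.2 ⟨i, hi, hti⟩

theorem card_le_mul {T α β : Type*} (S : Finset T) (A : Finset α) (B : Finset β)
    (f : T → α) (g : T → β) (hf : ∀ t ∈ S, f t ∈ A) (hg : ∀ t ∈ S, g t ∈ B)
    (inj : ∀ t ∈ S, ∀ t' ∈ S, f t = f t' → g t = g t' → t = t') :
    S.card ≤ A.card * B.card := by
  rw [← Finset.card_product]
  apply Finset.card_le_card_of_injOn (fun t => (f t, g t))
  · intro t ht
    exact Finset.mem_coe.2 (Finset.mem_product.2 ⟨hf t ht, hg t ht⟩)
  · intro t ht t' ht' h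
    rw [Prod.mk.injEq] at h
    exact inj t ht t' ht' h.1 h.2

theorem card_pos (N : ℕ) : (univ : Finset (Pos N)).card = N ^ 3 := by simp

theorem sum_bound {N : ℕ} (f : Pos N → ℝ) (B : ℝ) (h : ∀ x, f x ≤ B) :
    ∑ x, f x ≤ (N : ℝ) ^ 3 * B := by
  have h1 := Finset.sum_le_card_nsmul univ f B (fun x _ => h x)
  rw [card_pos, nsmul_eq_mul] at h1
  exact_mod_cast h1

theorem mem_gset {N M : ℕ} {x y z w : Pos N} (h : LCop M x y z w) :
    (z, w) ∈ univ.filter (fun t : Pos N × Pos N => LCop M x y t.1 t.2) := by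
  rw [Finset.mem_filter]; exact ⟨Finset.mem_univ _, h⟩

theorem g5_LL (h : G4_L2) : G5_LL := by
  obtain ⟨c, hc, h⟩ := h
  refine ⟨c, hc, ?_⟩
  intro N hN M hM hMN
  have h1 : (univ.filter (fun t : Fin 6 → Pos N => TLL M t)).card ≤
      ∑ p : Pos N × Pos N, (gL M p.1 p.2) ^ 2 := by
    refine (count_le _ univ (fun p : Pos N × Pos N => univ.filter
      (fun t : Fin 6 → Pos N => t 0 = p.1 ∧ t 1 = p.2 ∧ TLL M t)) ?_).trans ?_
    · intro t ht
      refine ⟨(t 0, t 1), Finset.mem_univ _, ?_⟩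
      rw [Finset.mem_filter]
      exact ⟨Finset.mem_univ _, rfl, rfl, (Finset.mem_filter.1 ht).2⟩
    · apply Finset.sum_le_sum
      rintro ⟨x, y⟩ _
      rw [sq]
      apply card_le_mul _ _ _ (fun t => (t 2, t 3)) (fun t => (t 4, t 5))
      · intro t ht
        obtain ⟨-, rfl, rfl, h1, -⟩ := Finset.mem_filter.1 ht
        exact mem_gset h1
      · intro t ht
        obtain ⟨-, rfl, rfl, -, h1⟩ := Finset.mem_filter.1 ht
        exact mem_gset h1
      · intro t ht t' ht' e1 e2
        obtain ⟨-, h0, h1, -⟩ := Finset.mem_filter.1 ht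
        obtain ⟨-, h0', h1', -⟩ := Finset.mem_filter.1 ht'
        simp only [Prod.mk.injEq] at e1 e2 h0 h1 h0' h1'
        funext i
        fin_cases i
        · exact h0.trans h0'.symm
        · exact h1.trans h1'.symm
        · exact e1.1
        · exact e1.2
        · exact e2.1
        · exact e2.2
  have h2 : ((univ.filter (fun t : Fin 6 → Pos N => TLL M t)).card : ℝ) ≤
      ∑ x : Pos N, ∑ y : Pos N, (gL M x y : ℝ) ^ 2 := by
    rw [← Fintype.sum_prod_type (fun p : Pos N × Pos N => (gL M p.1 p.2 : ℝ) ^ 2)]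
    exact_mod_cast h1
  refine h2.trans ((sum_bound _ _ (fun x => h N hN M hM hMN x)).trans (le_of_eq ?_))
  ring

theorem g5_LS (h : G4_RS) : G5_LS := by
  obtain ⟨c, hc, h⟩ := h
  refine ⟨c, hc, ?_⟩
  intro N hN M hM
  have h1 : (univ.filter (fun t : Fin 4 → Pos N => TLS M t)).card ≤
      ∑ x : Pos N, ∑ y ∈ univ.filter (fun y : Pos N => RS M x y), gL M x y := by
    refine (count_le _ univ (fun x => univ.filter
      (fun t : Fin 4 → Pos N => t 0 = x ∧ TLS M t)) ?_).trans ?_
    · intro t ht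
      refine ⟨t 0, Finset.mem_univ _, ?_⟩
      rw [Finset.mem_filter]
      exact ⟨Finset.mem_univ _, rfl, (Finset.mem_filter.1 ht).2⟩
    · apply Finset.sum_le_sum
      intro x _
      refine (count_le _ (univ.filter (fun y : Pos N => RS M x y)) (fun y => univ.filter
        (fun t : Fin 4 → Pos N => t 0 = x ∧ t 1 = y ∧ TLS M t)) ?_).trans ?_
      · intro t ht
        obtain ⟨-, rfl, h1⟩ := Finset.mem_filter.1 ht
        refine ⟨t 1, ?_, ?_⟩
        · rw [Finset.mem_filter]; exact ⟨Finset.mem_univ _, h1.2⟩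
        · rw [Finset.mem_filter]; exact ⟨Finset.mem_univ _, rfl, rfl, h1⟩
      · apply Finset.sum_le_sum
        intro y _
        apply Finset.card_le_card_of_injOn (fun t => (t 2, t 3))
        · intro t ht
          obtain ⟨-, rfl, rfl, h1, -⟩ := Finset.mem_filter.1 (Finset.mem_coe.1 ht)
          exact mem_gset h1
        · intro t ht t' ht' e1
          obtain ⟨-, h0, h1, -⟩ := Finset.mem_filter.1 (Finset.mem_coe.1 ht)
          obtain ⟨-, h0', h1', -⟩ := Finset.mem_filter.1 (Finset.mem_coe.1 ht')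
          simp only [Prod.mk.injEq] at e1
          funext i
          fin_cases i
          · exact h0.trans h0'.symm
          · exact h1.trans h1'.symm
          · exact e1.1
          · exact e1.2
  have h2 : ((univ.filter (fun t : Fin 4 → Pos N => TLS M t)).card : ℝ) ≤
      ∑ x : Pos N, ∑ y ∈ univ.filter (fun y : Pos N => RS M x y), (gL M x y : ℝ) := by
    exact_mod_cast h1
  refine h2.trans ((sum_bound _ _ (fun x => h N hN M hM x)).trans (le_of_eq ?_))
  ring

theorem mem_cube_of_nrm {M : ℕ} {a : V3} (h : nrm a ≤ M) : a ∈ cube M := by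
  unfold cube
  rw [Fintype.mem_piFinset]
  intro i
  have h1 : (a i).natAbs ≤ nrm a := by
    unfold nrm
    fin_cases i
    · exact le_max_left _ _
    · exact (le_max_left _ _).trans (le_max_right _ _)
    · exact (le_max_right _ _).trans (le_max_right _ _)
  rw [Finset.mem_Icc]
  omega

theorem card_cube {M : ℕ} (hM : 1 ≤ M) : (cube M).card ≤ 27 * M ^ 3 := by
  unfold cube
  rw [Fintype.card_piFinset]
  simp only [Int.card_Icc, Finset.prod_const, Finset.card_univ, Fintype.card_fin]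
  have : ((M : ℤ) + 1 - -(M : ℤ)).toNat = 2 * M + 1 := by omega
  rw [this]
  calc (2 * M + 1) ^ 3 ≤ (3 * M) ^ 3 := Nat.pow_le_pow_left (by omega) 3
    _ = _ := by ring

theorem dot_eq {N : ℕ} {a : V3} {x y : Pos N} (h : dot a (toZ y - toZ x) = 0) :
    dot a (toZ y) = dot a (toZ x) := by
  have : dot a (toZ y - toZ x) = dot a (toZ y) - dot a (toZ x) := by
    simp only [dot, Pi.sub_apply]; ring
  rw [this] at h
  exact sub_eq_zero.1 h

/-- pairs of vectors which are not parallel -/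
noncomputable def prs (M : ℕ) : Finset (V3 × V3) :=
  (cube M ×ˢ cube M).filter (fun p => cr p.1 p.2 ≠ 0)

theorem card_prs {M : ℕ} (hM : 1 ≤ M) : (prs M).card ≤ 729 * M ^ 6 := by
  unfold prs
  refine (Finset.card_filter_le _ _).trans ?_
  rw [Finset.card_product]
  calc (cube M).card * (cube M).card ≤ (27 * M ^ 3) * (27 * M ^ 3) :=
        Nat.mul_le_mul (card_cube hM) (card_cube hM)
    _ = _ := by ring

theorem mem_prs {M : ℕ} {a b : V3} (ha : nrm a ≤ M) (hb : nrm b ≤ M) (h : cr a b ≠ 0) :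
    (a, b) ∈ prs M := by
  unfold prs
  rw [Finset.mem_filter, Finset.mem_product]
  exact ⟨⟨mem_cube_of_nrm ha, mem_cube_of_nrm hb⟩, h⟩

theorem g5_SS (h : G2_twoplane) : G5_SS := by
  intro N hN M hM
  have h1 : (univ.filter (fun t : Fin 2 → Pos N => TSS M t)).card ≤
      ∑ x : Pos N, ∑ p ∈ prs M, N := by
    refine (count_le _ univ (fun x => univ.filter
      (fun t : Fin 2 → Pos N => t 0 = x ∧ TSS M t)) ?_).trans ?_
    · intro t ht
      refine ⟨t 0, Finset.mem_univ _, ?_⟩
      rw [Finset.mem_filter]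
      exact ⟨Finset.mem_univ _, rfl, (Finset.mem_filter.1 ht).2⟩
    · apply Finset.sum_le_sum
      intro x _
      refine (count_le _ (prs M) (fun p => univ.filter
        (fun t : Fin 2 → Pos N => t 0 = x ∧ dot p.1 (toZ (t 1)) = dot p.1 (toZ x) ∧
          dot p.2 (toZ (t 1)) = dot p.2 (toZ x))) ?_).trans ?_
      · intro t ht
        obtain ⟨-, rfl, -, a, b, ha, hb, hab, h1, h2⟩ := Finset.mem_filter.1 ht
        refine ⟨(a, b), mem_prs ha hb hab, ?_⟩
        rw [Finset.mem_filter]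
        exact ⟨Finset.mem_univ _, rfl, dot_eq h1, dot_eq h2⟩
      · apply Finset.sum_le_sum
        rintro ⟨a, b⟩ hp
        have hab : cr a b ≠ 0 := (Finset.mem_filter.1 hp).2
        refine le_trans ?_ (h N a b hab (dot a (toZ x)) (dot b (toZ x)))
        apply Finset.card_le_card_of_injOn (fun t => t 1)
        · intro t ht
          obtain ⟨-, h0, h1, h2⟩ := Finset.mem_filter.1 (Finset.mem_coe.1 ht)
          apply Finset.mem_coe.2
          rw [Finset.mem_filter]
          exact ⟨Finset.mem_univ _, h1, h2⟩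
        · intro t ht t' ht' e1
          obtain ⟨-, h0, h1, h2⟩ := Finset.mem_filter.1 (Finset.mem_coe.1 ht)
          obtain ⟨-, h0', h1', h2'⟩ := Finset.mem_filter.1 (Finset.mem_coe.1 ht')
          funext i
          fin_cases i
          · exact h0.trans h0'.symm
          · exact e1
  have h2 : ∑ x : Pos N, ∑ p ∈ prs M, N ≤ N ^ 3 * ((729 * M ^ 6) * N) := by
    rw [Finset.sum_const, Finset.sum_const, card_pos, smul_eq_mul, smul_eq_mul]
    exact Nat.mul_le_mul le_rfl (Nat.mul_le_mul (card_prs hM) le_rfl)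
  have h3 : ((univ.filter (fun t : Fin 2 → Pos N => TSS M t)).card : ℝ) ≤
      (N : ℝ) ^ 3 * ((729 * (M : ℝ) ^ 6) * N) := by exact_mod_cast h1.trans h2
  refine h3.trans (le_of_eq ?_)
  ring

theorem g5_SSS (h : G2_twoplane) (h' : G2_oneplane) : G5_SSS := by
  intro N hN M hM
  have h1 : (univ.filter (fun t : Fin 3 → Pos N => TSSS M t)).card ≤
      ∑ x : Pos N, ∑ p ∈ cube M ×ˢ prs M, N ^ 2 * N := by
    refine (count_le _ univ (fun x => univ.filter
      (fun t : Fin 3 → Pos N => t 0 = x ∧ TSSS M t)) ?_).trans ?_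
    · intro t ht
      refine ⟨t 0, Finset.mem_univ _, ?_⟩
      rw [Finset.mem_filter]
      exact ⟨Finset.mem_univ _, rfl, (Finset.mem_filter.1 ht).2⟩
    · apply Finset.sum_le_sum
      intro x _
      refine (count_le _ (cube M ×ˢ prs M) (fun p => univ.filter
        (fun t : Fin 3 → Pos N => p.1 ≠ 0 ∧ t 0 = x ∧ dot p.1 (toZ (t 1)) = dot p.1 (toZ x) ∧
          dot p.2.1 (toZ (t 2)) = dot p.2.1 (toZ x) ∧
          dot p.2.2 (toZ (t 2)) = dot p.2.2 (toZ (t 1)))) ?_).trans ?_
      · intro t ht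
        obtain ⟨-, rfl, a, b, c, ha, hb, hc, ha0, hbc, h1, h2, h3⟩ := Finset.mem_filter.1 ht
        refine ⟨(a, b, c), Finset.mem_product.2 ⟨mem_cube_of_nrm ha, mem_prs hb hc hbc⟩, ?_⟩
        rw [Finset.mem_filter]
        exact ⟨Finset.mem_univ _, ha0, rfl, dot_eq h1, dot_eq h2, dot_eq h3⟩
      · apply Finset.sum_le_sum
        rintro ⟨a, b, c⟩ hp
        have hbc : cr b c ≠ 0 := (Finset.mem_filter.1 (Finset.mem_product.1 hp).2).2
        by_cases ha0 : a = 0
        · rw [Finset.filter_false_of_mem (by rintro t - ⟨h0, -⟩; exact h0 ha0)]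
          simp
        refine (count_le _ (univ.filter (fun y : Pos N => dot a (toZ y) = dot a (toZ x)))
          (fun y => univ.filter (fun t : Fin 3 → Pos N => t 0 = x ∧ t 1 = y ∧
            dot b (toZ (t 2)) = dot b (toZ x) ∧ dot c (toZ (t 2)) = dot c (toZ y))) ?_).trans ?_
        · intro t ht
          obtain ⟨-, -, h0, h1, h2, h3⟩ := Finset.mem_filter.1 ht
          refine ⟨t 1, ?_, ?_⟩
          · rw [Finset.mem_filter]; exact ⟨Finset.mem_univ _, h1⟩
          · rw [Finset.mem_filter]; exact ⟨Finset.mem_univ _, h0, rfl, h2, h3⟩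
        · refine (Finset.sum_le_card_nsmul _ _ N ?_).trans ?_
          · intro y _
            refine le_trans ?_ (h N b c hbc (dot b (toZ x)) (dot c (toZ y)))
            apply Finset.card_le_card_of_injOn (fun t => t 2)
            · intro t ht
              obtain ⟨-, h0, h1, h2, h3⟩ := Finset.mem_filter.1 (Finset.mem_coe.1 ht)
              apply Finset.mem_coe.2
              rw [Finset.mem_filter]
              exact ⟨Finset.mem_univ _, h2, h3⟩
            · intro t ht t' ht' e1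
              obtain ⟨-, h0, h1, -⟩ := Finset.mem_filter.1 (Finset.mem_coe.1 ht)
              obtain ⟨-, h0', h1', -⟩ := Finset.mem_filter.1 (Finset.mem_coe.1 ht')
              funext i
              fin_cases i
              · exact h0.trans h0'.symm
              · exact h1.trans h1'.symm
              · exact e1
          · rw [smul_eq_mul]
            exact Nat.mul_le_mul (h' N a ha0 _) le_rfl
  have h2 : ∑ x : Pos N, ∑ p ∈ cube M ×ˢ prs M, N ^ 2 * N ≤
      N ^ 3 * (((27 * M ^ 3) * (729 * M ^ 6)) * (N ^ 2 * N)) := by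
    rw [Finset.sum_const, Finset.sum_const, card_pos, smul_eq_mul, smul_eq_mul,
      Finset.card_product]
    exact Nat.mul_le_mul le_rfl (Nat.mul_le_mul (Nat.mul_le_mul (card_cube hM) (card_prs hM))
      le_rfl)
  have h3 : ((univ.filter (fun t : Fin 3 → Pos N => TSSS M t)).card : ℝ) ≤
      (N : ℝ) ^ 3 * (((27 * (M : ℝ) ^ 3) * (729 * (M : ℝ) ^ 6)) * ((N : ℝ) ^ 2 * N)) := by
    exact_mod_cast h1.trans h2
  refine h3.trans (le_of_eq ?_)
  ring

/-- Counts of bad tuples LL, LS, SS, SSS. -/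
theorem g5a : G2_twoplane → G2_oneplane → G4_L2 → G4_RS → G5_LL ∧ G5_LS ∧ G5_SS ∧ G5_SSS :=
  fun h1 h2 h3 h4 => ⟨g5_LL h3, g5_LS h4, g5_SS h1, g5_SSS h1 h2⟩

theorem g5_LSS (h : G2_twoplane) (hL : G4_L1) : G5_LSS := by
  obtain ⟨c, hc, hL⟩ := hL
  refine ⟨729 * c, by positivity, ?_⟩
  intro N hN M hM
  have h1 : (univ.filter (fun t : Fin 5 → Pos N => TLSS M t)).card ≤
      ∑ x : Pos N, ∑ y : Pos N, ∑ p ∈ prs M, gL M x y * N := by
    refine (count_le _ univ (fun x : Pos N => univ.filter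
      (fun t : Fin 5 → Pos N => t 0 = x ∧ TLSS M t)) ?_).trans ?_
    · intro t ht
      refine ⟨t 0, Finset.mem_univ _, ?_⟩
      rw [Finset.mem_filter]
      exact ⟨Finset.mem_univ _, rfl, (Finset.mem_filter.1 ht).2⟩
    apply Finset.sum_le_sum
    intro x _
    refine (count_le _ univ (fun y : Pos N => univ.filter
      (fun t : Fin 5 → Pos N => t 0 = x ∧ t 1 = y ∧ TLSS M t)) ?_).trans ?_
    · intro t ht
      obtain ⟨-, rfl, h1⟩ := Finset.mem_filter.1 ht
      refine ⟨t 1, Finset.mem_univ _, ?_⟩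
      rw [Finset.mem_filter]; exact ⟨Finset.mem_univ _, rfl, rfl, h1⟩
    apply Finset.sum_le_sum
    intro y _
    refine (count_le _ (prs M) (fun p => univ.filter
      (fun t : Fin 5 → Pos N => t 0 = x ∧ t 1 = y ∧ LCop M x y (t 2) (t 3) ∧
        dot p.1 (toZ (t 4)) = dot p.1 (toZ x) ∧
          dot p.2 (toZ (t 4)) = dot p.2 (toZ y))) ?_).trans ?_
    · intro t ht
      obtain ⟨-, rfl, rfl, hl, a, b, ha, hb, hab, h1, h2⟩ := Finset.mem_filter.1 ht
      refine ⟨(a, b), mem_prs ha hb hab, ?_⟩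
      rw [Finset.mem_filter]
      exact ⟨Finset.mem_univ _, rfl, rfl, hl, dot_eq h1, dot_eq h2⟩
    apply Finset.sum_le_sum
    rintro ⟨a, b⟩ hp
    have hab : cr a b ≠ 0 := (Finset.mem_filter.1 hp).2
    refine le_trans ?_ (Nat.mul_le_mul le_rfl (h N a b hab (dot a (toZ x)) (dot b (toZ y))))
    apply card_le_mul _ _ _ (fun t => (t 2, t 3)) (fun t => t 4)
    · intro t ht
      obtain ⟨-, -, -, hl, -⟩ := Finset.mem_filter.1 ht
      exact mem_gset hl
    · intro t ht
      obtain ⟨-, -, -, -, h1, h2⟩ := Finset.mem_filter.1 ht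
      rw [Finset.mem_filter]
      exact ⟨Finset.mem_univ _, h1, h2⟩
    · intro t ht t' ht' e1 e2
      obtain ⟨-, h0, h1, -⟩ := Finset.mem_filter.1 ht
      obtain ⟨-, h0', h1', -⟩ := Finset.mem_filter.1 ht'
      simp only [Prod.mk.injEq] at e1
      funext i
      fin_cases i
      · exact h0.trans h0'.symm
      · exact h1.trans h1'.symm
      · exact e1.1
      · exact e1.2
      · exact e2
  have h2 : ((univ.filter (fun t : Fin 5 → Pos N => TLSS M t)).card : ℝ) ≤
      ∑ x : Pos N, (729 * (M : ℝ) ^ 6) * N * ∑ y : Pos N, (gL M x y : ℝ) := by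
    have h3 : ((univ.filter (fun t : Fin 5 → Pos N => TLSS M t)).card : ℝ) ≤
      ∑ x : Pos N, ∑ y : Pos N, ∑ p ∈ prs M, (gL M x y : ℝ) * N := by exact_mod_cast h1
    refine h3.trans ?_
    apply Finset.sum_le_sum
    intro x _
    rw [Finset.mul_sum]
    apply Finset.sum_le_sum
    intro y _
    rw [Finset.sum_const, nsmul_eq_mul]
    have h4 : ((prs M).card : ℝ) ≤ 729 * (M : ℝ) ^ 6 := by exact_mod_cast card_prs hM
    calc ((prs M).card : ℝ) * ((gL M x y : ℝ) * N) ≤ (729 * (M : ℝ) ^ 6) * ((gL M x y : ℝ) * N) := by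
          gcongr
      _ = _ := by ring
  refine h2.trans ((sum_bound _ ((729 * (M : ℝ) ^ 6) * N * (c * (N : ℝ) ^ 6 * Real.log N))
    (fun x => ?_)).trans (le_of_eq ?_))
  · exact mul_le_mul_of_nonneg_left (hL N hN M x) (by positivity)
  · ring

/-- primitive vectors of norm at most `M` -/
noncomputable def pms (M : ℕ) : Finset V3 := (cube M).filter (fun a => Prim a ∧ nrm a ≤ M)

theorem card_pms {M : ℕ} (hM : 1 ≤ M) : (pms M).card ≤ 27 * M ^ 3 :=
  (Finset.card_filter_le _ _).trans (card_cube hM)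

theorem g5_LLS (hL : G4_L1) (hS : G4_slice) : G5_LLS := by
  obtain ⟨c, hc, hL⟩ := hL
  obtain ⟨c', hc', hS⟩ := hS
  refine ⟨27 * c * c', by positivity, ?_⟩
  intro N hN M hM
  have h1 : (univ.filter (fun t : Fin 7 → Pos N => TLLS M t)).card ≤
      ∑ x : Pos N, ∑ y : Pos N, ∑ a ∈ pms M,
        ∑ z ∈ univ.filter (fun z : Pos N => dot a (toZ z) = dot a (toZ y)),
          gL M x y * gL M x z := by
    refine (count_le _ univ (fun x : Pos N => univ.filter
      (fun t : Fin 7 → Pos N => t 0 = x ∧ TLLS M t)) ?_).trans ?_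
    · intro t ht
      refine ⟨t 0, Finset.mem_univ _, ?_⟩
      rw [Finset.mem_filter]
      exact ⟨Finset.mem_univ _, rfl, (Finset.mem_filter.1 ht).2⟩
    apply Finset.sum_le_sum
    intro x _
    refine (count_le _ univ (fun y : Pos N => univ.filter
      (fun t : Fin 7 → Pos N => t 0 = x ∧ t 1 = y ∧ TLLS M t)) ?_).trans ?_
    · intro t ht
      obtain ⟨-, rfl, h1⟩ := Finset.mem_filter.1 ht
      refine ⟨t 1, Finset.mem_univ _, ?_⟩
      rw [Finset.mem_filter]; exact ⟨Finset.mem_univ _, rfl, rfl, h1⟩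
    apply Finset.sum_le_sum
    intro y _
    refine (count_le _ (pms M) (fun a => univ.filter
      (fun t : Fin 7 → Pos N => t 0 = x ∧ t 1 = y ∧ LCop M x y (t 2) (t 3) ∧
        LCop M x (t 4) (t 5) (t 6) ∧ dot a (toZ (t 4)) = dot a (toZ y))) ?_).trans ?_
    · intro t ht
      obtain ⟨-, rfl, rfl, hl, hl', a, ha, hb, h1⟩ := Finset.mem_filter.1 ht
      refine ⟨a, ?_, ?_⟩
      · unfold pms
        rw [Finset.mem_filter]
        exact ⟨mem_cube_of_nrm hb, ha, hb⟩
      · rw [Finset.mem_filter]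
        exact ⟨Finset.mem_univ _, rfl, rfl, hl, hl', dot_eq h1⟩
    apply Finset.sum_le_sum
    intro a _
    refine (count_le _ (univ.filter (fun z : Pos N => dot a (toZ z) = dot a (toZ y)))
      (fun z => univ.filter
      (fun t : Fin 7 → Pos N => t 0 = x ∧ t 1 = y ∧ LCop M x y (t 2) (t 3) ∧
        t 4 = z ∧ LCop M x z (t 5) (t 6))) ?_).trans ?_
    · intro t ht
      obtain ⟨-, h0, h1, hl, hl', h2⟩ := Finset.mem_filter.1 ht
      refine ⟨t 4, ?_, ?_⟩
      · rw [Finset.mem_filter]; exact ⟨Finset.mem_univ _, h2⟩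
      · rw [Finset.mem_filter]; exact ⟨Finset.mem_univ _, h0, h1, hl, rfl, hl'⟩
    apply Finset.sum_le_sum
    intro z _
    apply card_le_mul _ _ _ (fun t => (t 2, t 3)) (fun t => (t 5, t 6))
    · intro t ht
      obtain ⟨-, -, -, hl, -⟩ := Finset.mem_filter.1 ht
      exact mem_gset hl
    · intro t ht
      obtain ⟨-, -, -, -, -, hl⟩ := Finset.mem_filter.1 ht
      exact mem_gset hl
    · intro t ht t' ht' e1 e2
      obtain ⟨-, h0, h1, -, h4, -⟩ := Finset.mem_filter.1 ht
      obtain ⟨-, h0', h1', -, h4', -⟩ := Finset.mem_filter.1 ht'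
      simp only [Prod.mk.injEq] at e1 e2
      funext i
      fin_cases i
      · exact h0.trans h0'.symm
      · exact h1.trans h1'.symm
      · exact e1.1
      · exact e1.2
      · exact h4.trans h4'.symm
      · exact e2.1
      · exact e2.2
  have hlog : 0 ≤ Real.log N := Real.log_natCast_nonneg N
  have h2 : ((univ.filter (fun t : Fin 7 → Pos N => TLLS M t)).card : ℝ) ≤
      ∑ x : Pos N, (27 * (M : ℝ) ^ 3) * (c' * (N : ℝ) ^ 5 * Real.sqrt N * Real.log N ^ 2) *
        ∑ y : Pos N, (gL M x y : ℝ) := by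
    have h3 : ((univ.filter (fun t : Fin 7 → Pos N => TLLS M t)).card : ℝ) ≤
      ∑ x : Pos N, ∑ y : Pos N, ∑ a ∈ pms M,
        ∑ z ∈ univ.filter (fun z : Pos N => dot a (toZ z) = dot a (toZ y)),
          (gL M x y : ℝ) * gL M x z := by exact_mod_cast h1
    refine h3.trans ?_
    apply Finset.sum_le_sum
    intro x _
    rw [Finset.mul_sum]
    apply Finset.sum_le_sum
    intro y _
    have h4 : ((pms M).card : ℝ) ≤ 27 * (M : ℝ) ^ 3 := by exact_mod_cast card_pms hM
    calc ∑ a ∈ pms M, ∑ z ∈ univ.filter (fun z : Pos N => dot a (toZ z) = dot a (toZ y)),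
          (gL M x y : ℝ) * gL M x z
        ≤ ∑ a ∈ pms M, (gL M x y : ℝ) * (c' * (N : ℝ) ^ 5 * Real.sqrt N * Real.log N ^ 2) := by
          apply Finset.sum_le_sum
          intro a ha
          obtain ⟨-, ha1, ha2⟩ := Finset.mem_filter.1 ha
          rw [← Finset.mul_sum]
          exact mul_le_mul_of_nonneg_left (hS N hN M hM a ha1 ha2 _ x) (by positivity)
      _ = ((pms M).card : ℝ) *
          ((gL M x y : ℝ) * (c' * (N : ℝ) ^ 5 * Real.sqrt N * Real.log N ^ 2)) := by
          rw [Finset.sum_const, nsmul_eq_mul]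
      _ ≤ (27 * (M : ℝ) ^ 3) *
          ((gL M x y : ℝ) * (c' * (N : ℝ) ^ 5 * Real.sqrt N * Real.log N ^ 2)) := by
          gcongr
      _ = _ := by ring
  refine h2.trans ((sum_bound _ ((27 * (M : ℝ) ^ 3) *
    (c' * (N : ℝ) ^ 5 * Real.sqrt N * Real.log N ^ 2) * (c * (N : ℝ) ^ 6 * Real.log N))
    (fun x => ?_)).trans (le_of_eq ?_))
  · exact mul_le_mul_of_nonneg_left (hL N hN M x) (by positivity)
  · ring

theorem g5_LLL (hL : G4_L1) (hL2 : G4_L2) : G5_LLL := by
  obtain ⟨c, hc, hL⟩ := hL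
  obtain ⟨c', hc', hL2⟩ := hL2
  refine ⟨c * c', by positivity, ?_⟩
  intro N hN M hM hMN
  have h1 : (univ.filter (fun t : Fin 9 → Pos N => TLLL M t)).card ≤
      ∑ x : Pos N, ∑ y : Pos N, ∑ z : Pos N, gL M x y * (gL M x z * gL M y z) := by
    refine (count_le _ univ (fun x : Pos N => univ.filter
      (fun t : Fin 9 → Pos N => t 0 = x ∧ TLLL M t)) ?_).trans ?_
    · intro t ht
      refine ⟨t 0, Finset.mem_univ _, ?_⟩
      rw [Finset.mem_filter]
      exact ⟨Finset.mem_univ _, rfl, (Finset.mem_filter.1 ht).2⟩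
    apply Finset.sum_le_sum
    intro x _
    refine (count_le _ univ (fun y : Pos N => univ.filter
      (fun t : Fin 9 → Pos N => t 0 = x ∧ t 1 = y ∧ TLLL M t)) ?_).trans ?_
    · intro t ht
      obtain ⟨-, rfl, h1⟩ := Finset.mem_filter.1 ht
      refine ⟨t 1, Finset.mem_univ _, ?_⟩
      rw [Finset.mem_filter]; exact ⟨Finset.mem_univ _, rfl, rfl, h1⟩
    apply Finset.sum_le_sum
    intro y _
    refine (count_le _ univ (fun z : Pos N => univ.filter
      (fun t : Fin 9 → Pos N => t 0 = x ∧ t 1 = y ∧ t 4 = z ∧ TLLL M t)) ?_).trans ?_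
    · intro t ht
      obtain ⟨-, h0, h1, h2⟩ := Finset.mem_filter.1 ht
      refine ⟨t 4, Finset.mem_univ _, ?_⟩
      rw [Finset.mem_filter]; exact ⟨Finset.mem_univ _, h0, h1, rfl, h2⟩
    apply Finset.sum_le_sum
    intro z _
    have e : gL M x z * gL M y z = ((univ.filter (fun t : Pos N × Pos N => LCop M x z t.1 t.2)) ×ˢ
        (univ.filter (fun t : Pos N × Pos N => LCop M y z t.1 t.2))).card := by
      rw [Finset.card_product]; rfl
    rw [e]
    apply card_le_mul _ _ _ (fun t => (t 2, t 3)) (fun t => ((t 5, t 6), (t 7, t 8)))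
    · intro t ht
      obtain ⟨-, rfl, rfl, rfl, hl, -⟩ := Finset.mem_filter.1 ht
      exact mem_gset hl
    · intro t ht
      obtain ⟨-, rfl, rfl, rfl, -, hl, hl'⟩ := Finset.mem_filter.1 ht
      exact Finset.mem_product.2 ⟨mem_gset hl, mem_gset hl'⟩
    · intro t ht t' ht' e1 e2
      obtain ⟨-, h0, h1, h4, -⟩ := Finset.mem_filter.1 ht
      obtain ⟨-, h0', h1', h4', -⟩ := Finset.mem_filter.1 ht'
      simp only [Prod.mk.injEq] at e1 e2
      funext i
      fin_cases i
      · exact h0.trans h0'.symm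
      · exact h1.trans h1'.symm
      · exact e1.1
      · exact e1.2
      · exact h4.trans h4'.symm
      · exact e2.1.1
      · exact e2.1.2
      · exact e2.2.1
      · exact e2.2.2
  have hlog : 0 ≤ Real.log N := Real.log_natCast_nonneg N
  have h3 : ((univ.filter (fun t : Fin 9 → Pos N => TLLL M t)).card : ℝ) ≤
      ∑ x : Pos N, ∑ y : Pos N, ∑ z : Pos N, (gL M x y : ℝ) * ((gL M x z : ℝ) * gL M y z) := by
    exact_mod_cast h1
  have h4 : ∀ x : Pos N, ∑ y : Pos N, ∑ z : Pos N, (gL M x y : ℝ) * ((gL M x z : ℝ) * gL M y z) ≤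
      (c * (N : ℝ) ^ 6 * Real.log N) * (c' * (N : ℝ) ^ 10 * Real.log N ^ 2 / (M : ℝ) ^ 2) := by
    intro x
    calc ∑ y : Pos N, ∑ z : Pos N, (gL M x y : ℝ) * ((gL M x z : ℝ) * gL M y z)
        ≤ ∑ y : Pos N, (gL M x y : ℝ) *
            (c' * (N : ℝ) ^ 10 * Real.log N ^ 2 / (M : ℝ) ^ 2) := by
          apply Finset.sum_le_sum
          intro y _
          rw [← Finset.mul_sum]
          apply mul_le_mul_of_nonneg_left _ (by positivity)
          calc ∑ z : Pos N, (gL M x z : ℝ) * gL M y z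
              ≤ ∑ z : Pos N, ((gL M x z : ℝ) ^ 2 + (gL M y z : ℝ) ^ 2) / 2 := by
                apply Finset.sum_le_sum
                intro z _
                have := sq_nonneg ((gL M x z : ℝ) - gL M y z)
                nlinarith
            _ = (∑ z : Pos N, (gL M x z : ℝ) ^ 2 + ∑ z : Pos N, (gL M y z : ℝ) ^ 2) / 2 := by
                rw [← Finset.sum_add_distrib, Finset.sum_div]
            _ ≤ _ := by
                have a1 := hL2 N hN M hM hMN x
                have a2 := hL2 N hN M hM hMN y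
                linarith
      _ = (∑ y : Pos N, (gL M x y : ℝ)) *
            (c' * (N : ℝ) ^ 10 * Real.log N ^ 2 / (M : ℝ) ^ 2) := by rw [Finset.sum_mul]
      _ ≤ _ := mul_le_mul_of_nonneg_right (hL N hN M x) (by positivity)
  refine h3.trans ((sum_bound _ _ h4).trans (le_of_eq ?_))
  ring

/-- Counts of bad tuples LSS, LLS, LLL. -/
theorem g5b : G2_twoplane → G4_symm → G4_L1 → G4_L2 → G4_slice → G5_LSS ∧ G5_LLS ∧ G5_LLL :=
  fun h1 _ h3 h4 h5 => ⟨g5_LSS h1 h3, g5_LLS h3 h5, g5_LLL h3 h4⟩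

end Pool.Agent.TH113.MP325
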