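import Pool.Agent.TH490.StmG
import Pool.Agent.TH113.MP325_G2b
import Pool.Agent.TH113.MP325_G5

/-!
Sums of the numbers of completions (job MP325-G4b, for MP_325b7c_co).
-/

set_option autoImplicit false

namespace Pool.Agent.TH113.MP325

open Finset Classical Pool.Agent.TH490

theorem cr_zero_left (v : V3) : cr 0 v = 0 := by
  funext i
  fin_cases i <;> simp [cr]

theorem gL_self {N : ℕ} (M : ℕ) (x : Pos N) : gL M x x = 0 := by
  unfold gL
  rw [Finset.card_eq_zero, Finset.filter_eq_empty_iff]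
  rintro t - ⟨-, h, -⟩
  apply h
  unfold Col
  rw [sub_self, cr_zero_left]

theorem sum_cover {T I : Type*} (S : Finset T) (s : Finset I) (Q : I → Finset T) (f : T → ℝ)
    (hf : ∀ t, 0 ≤ f t) (h : ∀ t ∈ S, ∃ i ∈ s, t ∈ Q i) :
    ∑ t ∈ S, f t ≤ ∑ i ∈ s, ∑ t ∈ Q i, f t := by
  calc ∑ t ∈ S, f t ≤ ∑ t ∈ S, ∑ i ∈ s, (if t ∈ Q i then f t else 0) := by
        apply Finset.sum_le_sum
        intro t ht
        obtain ⟨i, hi, hti⟩ := h t ht
        refine le_trans ?_ (Finset.single_le_sum (f := fun i => if t ∈ Q i then f t else 0)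
          (fun j _ => ?_) hi)
        · simp only [hti, if_true, le_refl]
        · split_ifs
          · exact hf t
          · exact le_rfl
    _ = ∑ i ∈ s, ∑ t ∈ S, (if t ∈ Q i then f t else 0) := Finset.sum_comm
    _ ≤ ∑ i ∈ s, ∑ t ∈ Q i, f t := by
        apply Finset.sum_le_sum
        intro i _
        rw [← Finset.sum_filter]
        apply Finset.sum_le_sum_of_subset_of_nonneg
        · intro t ht
          exact (Finset.mem_filter.1 ht).2
        · intro t _ _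
          exact hf t

theorem g4_L1 (h : G3_cop) : G4_L1 := by
  obtain ⟨c, hc, h⟩ := h
  refine ⟨c, hc, ?_⟩
  intro N hN M x
  refine le_trans ?_ (h N hN x)
  have e : ((univ.filter (fun t : Pos N × Pos N × Pos N => Cop x t.1 t.2.1 t.2.2)).card : ℝ) =
      ∑ y : Pos N, ((univ.filter (fun t : Pos N × Pos N => Cop x y t.1 t.2)).card : ℝ) := by
    simp only [Finset.card_filter]
    push_cast
    exact Fintype.sum_prod_type
      (fun t : Pos N × Pos N × Pos N => if Cop x t.1 t.2.1 t.2.2 then (1 : ℝ) else 0)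
  rw [e]
  apply Finset.sum_le_sum
  intro y _
  have : gL M x y ≤ (univ.filter (fun t : Pos N × Pos N => Cop x y t.1 t.2)).card := by
    apply Finset.card_le_card
    intro t ht
    rw [Finset.mem_filter] at ht ⊢
    exact ⟨ht.1, ht.2.1⟩
  exact_mod_cast this

theorem half_le_log {N : ℕ} (hN : 2 ≤ N) : (1 : ℝ) ≤ 2 * Real.log N := by
  have h1 : Real.log 2 ≤ Real.log N := Real.log_le_log (by norm_num) (by exact_mod_cast hN)
  have h2 := Real.log_two_gt_d9
  linarith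

theorem g4_L2 (hcard : G2_card) (hL1 : G4_L1) (hsup : G4_sup) : G4_L2 := by
  obtain ⟨c₁, hc₁, hL1⟩ := hL1
  obtain ⟨c, hc, hsup⟩ := hsup
  refine ⟨3 * c * c₁ + 234 * c ^ 2, by positivity, ?_⟩
  intro N hN M hM hMN x
  have hL : (1 : ℝ) ≤ 2 * Real.log N := half_le_log hN
  have hL0 : 0 < Real.log N := by linarith
  obtain ⟨L, hLe⟩ : ∃ L, L = Real.log N := ⟨_, rfl⟩
  rw [← hLe] at hL hL0 ⊢
  have hN0 : (0 : ℝ) < N := by exact_mod_cast (show 0 < N by omega)
  have hM1 : (1 : ℝ) ≤ M := by exact_mod_cast hM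
  have hM0 : (0 : ℝ) < M := by linarith
  have hMN' : (M : ℝ) ^ 6 ≤ N := by exact_mod_cast hMN
  -- pointwise bounds
  have hSpos : ∀ y : Pos N, x ≠ y → (1 : ℝ) ≤ Sn (toZ y - toZ x) := by
    intro y hy
    have hd : toZ y - toZ x ≠ 0 := fun h' => hy (toZ_inj (sub_eq_zero.1 h').symm)
    exact_mod_cast Sn_pos hd
  have key : ∀ y : Pos N, (gL M x y : ℝ) ^ 2 ≤ (3 * c * (N : ℝ) ^ 4 * L / (M : ℝ) ^ 2) * gL M x y +
      (if x ≠ y ∧ Sn (toZ y - toZ x) ≤ M ^ 2 then 9 * c ^ 2 * (N : ℝ) ^ 8 * L ^ 2 else 0) := by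
    intro y
    by_cases hy : x = y
    · subst hy
      rw [gL_self]
      simp
    · have h1 := hsup N hN M hM x y hy
      rw [← hLe] at h1
      have hS := hSpos y hy
      have hS0 : (0 : ℝ) < Sn (toZ y - toZ x) := by linarith
      have hg0 : (0 : ℝ) ≤ gL M x y := by positivity
      by_cases hs : Sn (toZ y - toZ x) ≤ M ^ 2
      · rw [if_pos ⟨hy, hs⟩]
        have h2 : (gL M x y : ℝ) ≤ 3 * c * (N : ℝ) ^ 4 * L := by
          refine h1.trans ?_
          have h3 : 1 / (M : ℝ) ^ 2 + L / Sn (toZ y - toZ x) ≤ 3 * L := by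
            have a1 : 1 / (M : ℝ) ^ 2 ≤ 1 := by
              rw [div_le_one (by positivity)]; exact one_le_pow₀ hM1
            have a2 : L / Sn (toZ y - toZ x) ≤ L := div_le_self hL0.le hS
            linarith
          calc c * (N : ℝ) ^ 4 * (1 / (M : ℝ) ^ 2 + L / Sn (toZ y - toZ x))
              ≤ c * (N : ℝ) ^ 4 * (3 * L) := by gcongr
            _ = _ := by ring
        have h3 : (gL M x y : ℝ) ^ 2 ≤ (3 * c * (N : ℝ) ^ 4 * L) ^ 2 := by gcongr
        have h4 : 0 ≤ (3 * c * (N : ℝ) ^ 4 * L / (M : ℝ) ^ 2) * gL M x y := by positivity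
        calc (gL M x y : ℝ) ^ 2 ≤ (3 * c * (N : ℝ) ^ 4 * L) ^ 2 := h3
          _ = 9 * c ^ 2 * (N : ℝ) ^ 8 * L ^ 2 := by ring
          _ ≤ _ := by linarith
      · rw [if_neg (fun h => hs h.2), add_zero, sq]
        apply mul_le_mul_of_nonneg_right _ hg0
        refine h1.trans ?_
        have hs' : (M : ℝ) ^ 2 ≤ Sn (toZ y - toZ x) := by
          exact_mod_cast (not_le.1 hs).le
        have h3 : 1 / (M : ℝ) ^ 2 + L / Sn (toZ y - toZ x) ≤ 3 * L / (M : ℝ) ^ 2 := by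
          have a2 : L / Sn (toZ y - toZ x) ≤ L / (M : ℝ) ^ 2 :=
            div_le_div_of_nonneg_left hL0.le (by positivity) hs'
          have a3 : 1 / (M : ℝ) ^ 2 ≤ 2 * L / (M : ℝ) ^ 2 := by gcongr
          calc _ ≤ 2 * L / (M : ℝ) ^ 2 + L / (M : ℝ) ^ 2 := add_le_add a3 a2
            _ = _ := by ring
        calc c * (N : ℝ) ^ 4 * (1 / (M : ℝ) ^ 2 + L / Sn (toZ y - toZ x))
            ≤ c * (N : ℝ) ^ 4 * (3 * L / (M : ℝ) ^ 2) := by gcongr
          _ = _ := by ring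
  have hcount : ((univ.filter (fun y : Pos N => x ≠ y ∧ Sn (toZ y - toZ x) ≤ M ^ 2)).card : ℝ) ≤
      26 * N * (M : ℝ) ^ 4 := by
    have h1 : (univ.filter (fun y : Pos N => x ≠ y ∧ Sn (toZ y - toZ x) ≤ M ^ 2)).card ≤
        ((cube N).filter (fun d => d ≠ 0 ∧ Sn d ≤ M ^ 2)).card := by
      apply Finset.card_le_card_of_injOn (fun y => toZ y - toZ x)
      · intro y hy
        obtain ⟨-, hxy, hs⟩ := Finset.mem_filter.1 (Finset.mem_coe.1 hy)
        apply Finset.mem_coe.2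
        rw [Finset.mem_filter]
        exact ⟨mem_cube _ _, fun h' => hxy (toZ_inj (sub_eq_zero.1 h').symm), hs⟩
      · intro y _ y' _ e
        exact toZ_inj (sub_left_injective e)
    have h2 := h1.trans (hcard N (M ^ 2))
    have h3 : 26 * N * (M ^ 2) ^ 2 = 26 * N * M ^ 4 := by ring
    rw [h3] at h2
    exact_mod_cast h2
  calc ∑ y : Pos N, (gL M x y : ℝ) ^ 2
      ≤ ∑ y : Pos N, ((3 * c * (N : ℝ) ^ 4 * L / (M : ℝ) ^ 2) * gL M x y +
      (if x ≠ y ∧ Sn (toZ y - toZ x) ≤ M ^ 2 then 9 * c ^ 2 * (N : ℝ) ^ 8 * L ^ 2 else 0)) :=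
        Finset.sum_le_sum (fun y _ => key y)
    _ = (3 * c * (N : ℝ) ^ 4 * L / (M : ℝ) ^ 2) * ∑ y : Pos N, (gL M x y : ℝ) +
        ((univ.filter (fun y : Pos N => x ≠ y ∧ Sn (toZ y - toZ x) ≤ M ^ 2)).card : ℝ) *
          (9 * c ^ 2 * (N : ℝ) ^ 8 * L ^ 2) := by
        rw [Finset.sum_add_distrib, ← Finset.mul_sum, ← Finset.sum_filter, Finset.sum_const,
          nsmul_eq_mul]
    _ ≤ (3 * c * (N : ℝ) ^ 4 * L / (M : ℝ) ^ 2) * (c₁ * (N : ℝ) ^ 6 * L) +
        (26 * N * (M : ℝ) ^ 4) * (9 * c ^ 2 * (N : ℝ) ^ 8 * L ^ 2) := by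
        have h1 := hL1 N hN M x
        rw [← hLe] at h1
        gcongr
    _ = 3 * c * c₁ * ((N : ℝ) ^ 10 * L ^ 2 / (M : ℝ) ^ 2) +
        234 * c ^ 2 * ((N : ℝ) ^ 9 * L ^ 2 * (M : ℝ) ^ 4) := by ring
    _ ≤ 3 * c * c₁ * ((N : ℝ) ^ 10 * L ^ 2 / (M : ℝ) ^ 2) +
        234 * c ^ 2 * ((N : ℝ) ^ 10 * L ^ 2 / (M : ℝ) ^ 2) := by
        gcongr
        rw [le_div_iff₀ (by positivity)]
        calc (N : ℝ) ^ 9 * L ^ 2 * (M : ℝ) ^ 4 * (M : ℝ) ^ 2
            = (N : ℝ) ^ 9 * L ^ 2 * (M : ℝ) ^ 6 := by ring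
          _ ≤ (N : ℝ) ^ 9 * L ^ 2 * N := by gcongr
          _ = _ := by ring
    _ = _ := by ring

theorem prim_ne_zero {a : V3} (h : Prim a) : a ≠ 0 := by
  rintro rfl
  unfold Prim cont at h
  simp at h

theorem g4_RS (hsl : G2_slice) (hRS : G4_supRS) : G4_RS := by
  obtain ⟨c', hc', hsl⟩ := hsl
  obtain ⟨c, hc, hRS⟩ := hRS
  refine ⟨27 * c * c', by positivity, ?_⟩
  intro N hN M hM x
  have hL0 : 0 ≤ Real.log N := Real.log_natCast_nonneg N
  have h1 : ∑ y ∈ univ.filter (fun y : Pos N => RS M x y), (gL M x y : ℝ) ≤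
      ∑ y ∈ univ.filter (fun y : Pos N => x ≠ y ∧ RS M x y),
        c * (N : ℝ) ^ 4 * (Real.log N / Sn (toZ y - toZ x)) := by
    calc ∑ y ∈ univ.filter (fun y : Pos N => RS M x y), (gL M x y : ℝ)
        = ∑ y ∈ univ.filter (fun y : Pos N => x ≠ y ∧ RS M x y), (gL M x y : ℝ) := by
          symm
          apply Finset.sum_subset
          · intro y hy
            rw [Finset.mem_filter] at hy ⊢
            exact ⟨hy.1, hy.2.2⟩
          · intro y hy hy'
            rw [Finset.mem_filter] at hy hy'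
            have : x = y := by
              by_contra hxy
              exact hy' ⟨hy.1, hxy, hy.2⟩
            rw [← this, gL_self]; simp
      _ ≤ _ := by
          apply Finset.sum_le_sum
          intro y hy
          rw [Finset.mem_filter] at hy
          exact hRS N hN M hM x y hy.2.1 hy.2.2
  refine h1.trans ?_
  refine (sum_cover _ (pms M) (fun a => univ.filter (fun y : Pos N => x ≠ y ∧
    dot a (toZ y - toZ x) = 0)) _ (fun t => by positivity) ?_).trans ?_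
  · intro y hy
    obtain ⟨-, hxy, a, ha, hn, hd⟩ := Finset.mem_filter.1 hy
    refine ⟨a, ?_, ?_⟩
    · unfold pms
      rw [Finset.mem_filter]
      exact ⟨mem_cube_of_nrm hn, ha, hn⟩
    · rw [Finset.mem_filter]
      exact ⟨Finset.mem_univ _, hxy, hd⟩
  have h2 : ∀ a ∈ pms M, ∑ y ∈ univ.filter (fun y : Pos N => x ≠ y ∧ dot a (toZ y - toZ x) = 0),
      c * (N : ℝ) ^ 4 * (Real.log N / Sn (toZ y - toZ x)) ≤
      c * (N : ℝ) ^ 4 * Real.log N * (c' * N * Real.log N) := by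
    intro a ha
    obtain ⟨-, ha1, -⟩ := Finset.mem_filter.1 ha
    have e : ∀ y : Pos N, c * (N : ℝ) ^ 4 * (Real.log N / Sn (toZ y - toZ x)) =
        c * (N : ℝ) ^ 4 * Real.log N * ((1 : ℝ) / Sn (toZ y - toZ x)) := by intro y; ring
    simp only [e]
    rw [← Finset.mul_sum]
    apply mul_le_mul_of_nonneg_left _ (by positivity)
    refine le_trans ?_ (hsl N hN a (prim_ne_zero ha1) 0)
    have hinj : Set.InjOn (fun y : Pos N => toZ y - toZ x)
        (univ.filter (fun y : Pos N => x ≠ y ∧ dot a (toZ y - toZ x) = 0) : Finset (Pos N)) := by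
      intro a _ a' _ h
      exact toZ_inj (sub_left_injective h)
    rw [← Finset.sum_image (f := fun d : V3 => (1 : ℝ) / Sn d) hinj]
    apply Finset.sum_le_sum_of_subset_of_nonneg
    · intro d hd
      obtain ⟨y, hy, rfl⟩ := Finset.mem_image.1 hd
      rw [Finset.mem_filter] at hy ⊢
      refine ⟨mem_cube _ _, ?_, hy.2.2⟩
      intro h0
      exact hy.2.1 (toZ_inj (sub_eq_zero.1 h0).symm)
    · intro d _ _; positivity
  refine (Finset.sum_le_sum h2).trans ?_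
  rw [Finset.sum_const, nsmul_eq_mul]
  have h4 : ((pms M).card : ℝ) ≤ 27 * (M : ℝ) ^ 3 := by exact_mod_cast card_pms hM
  calc ((pms M).card : ℝ) * (c * (N : ℝ) ^ 4 * Real.log N * (c' * N * Real.log N))
      ≤ (27 * (M : ℝ) ^ 3) * (c * (N : ℝ) ^ 4 * Real.log N * (c' * N * Real.log N)) := by gcongr
    _ = _ := by ring

/-- L1, L2 and restricted sums of gL. -/
theorem g4b : G2_sum → G2_card → G2_slice → G3_cop → G4_sup → G4_supRS →
    G4_L1 ∧ G4_L2 ∧ G4_RS :=
  fun _ h2 h3 h4 h5 h6 => ⟨g4_L1 h4, g4_L2 h2 (g4_L1 h4) h5, g4_RS h3 h6⟩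

end Pool.Agent.TH113.MP325
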