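import Pool.Agent.TH722.FI.Defs
import Pool.Agent.TH267.FI_GEO

set_option autoImplicit false

namespace Pool.Agent.TH113.FIHybdist

open MeasureTheory Set Filter Pool.Agent.TH722.FI
open scoped Topology ENNReal

variable {V W : Type*}

lemma blk_refl (T C : SimpleGraph V) (x : V) : Blk T C x x := SimpleGraph.Reachable.refl _

lemma near_self (U T C : SimpleGraph V) (hU : U.IsTree) (key : V → ℝ) (x : V) :
    Near U T C key x x := by
  intro w _
  by_cases h : w = x
  · right
    rw [h]
    exact ⟨rfl, le_rfl⟩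
  · left
    rw [SimpleGraph.dist_self]
    exact (hU.1.preconnected x w).pos_dist_of_ne (fun h' => h h'.symm)

lemma near_ex (U T C : SimpleGraph V) (N : ℕ → ℕ) (hN : BallBd U N) (key : V → ℝ) (u w : V) :
    ∃ x, Blk T C w x ∧ Near U T C key u x := by
  classical
  have hne : ∃ d x, Blk T C w x ∧ U.dist u x = d := ⟨_, w, blk_refl T C w, rfl⟩
  obtain ⟨d0, hd0⟩ : ∃ d0, d0 = Nat.find hne := ⟨_, rfl⟩
  have hfin : {x | Blk T C w x ∧ U.dist u x = d0}.Finite := by
    refine (hN u d0).1.subset ?_
    rintro x ⟨_, hx⟩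
    exact hx.le
  obtain ⟨x0, hx0⟩ := Nat.find_spec hne
  rw [← hd0] at hx0
  obtain ⟨x, ⟨hx1, hx2⟩, hmin⟩ := Set.exists_min_image _ key hfin ⟨x0, hx0⟩
  refine ⟨x, hx1, fun z hz => ?_⟩
  have hz' : Blk T C w z := SimpleGraph.Reachable.trans hx1 hz
  have hle : d0 ≤ U.dist u z := by
    rw [hd0]
    exact Nat.find_min' hne ⟨z, hz', rfl⟩
  rcases hle.lt_or_eq with h | h
  · left
    rw [hx2]; exact h
  · right
    refine ⟨hx2.trans h, hmin z ⟨hz', h.symm⟩⟩

lemma near_unique (U T C : SimpleGraph V) (key : V → ℝ) (hkey : Function.Injective key)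
    {u x y : V} (hxy : Blk T C x y) (hx : Near U T C key u x) (hy : Near U T C key u y) :
    x = y := by
  have h1 := hx y hxy
  have h2 := hy x (SimpleGraph.Reachable.symm hxy)
  apply hkey
  rcases h1 with h1 | ⟨h1, h1'⟩
  · rcases h2 with h2 | ⟨h2, h2'⟩ <;> omega
  · rcases h2 with h2 | ⟨h2, h2'⟩
    · omega
    · exact le_antisymm h1' h2'

/-- projected walk -/
lemma proj_walk (U T C : SimpleGraph V) (N : ℕ → ℕ) (hN : BallBd U N) (key : V → ℝ)
    (hkey : Function.Injective key) (o : V) {a b : V} (w : U.Walk a b) :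
    ∀ x y, Blk T C o x → Blk T C o y → Near U T C key a x → Near U T C key b y →
      ∃ q : (Hyb U T C key).Walk x y, q.length ≤ w.length := by
  induction w with
  | nil =>
    intro x y hx hy hnx hny
    have hxy : Blk T C x y := SimpleGraph.Reachable.trans (SimpleGraph.Reachable.symm hx) hy
    have e := near_unique U T C key hkey hxy hnx hny
    subst e
    exact ⟨SimpleGraph.Walk.nil, le_rfl⟩
  | @cons a c b h w ih =>
    intro x y hx hy hnx hny
    obtain ⟨z, hz, hnz⟩ := near_ex U T C N hN key c o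
    obtain ⟨q, hq⟩ := ih z y hz hy hnz hny
    by_cases hxz : x = z
    · subst hxz
      exact ⟨q, hq.trans (Nat.le_succ _)⟩
    · have hadj : (Hyb U T C key).Adj x z :=
        Or.inr ⟨hxz, SimpleGraph.Reachable.trans (SimpleGraph.Reachable.symm hx) hz,
          a, c, h, hnx, hnz⟩
      refine ⟨SimpleGraph.Walk.cons hadj q, ?_⟩
      rw [SimpleGraph.Walk.length_cons, SimpleGraph.Walk.length_cons]
      omega

lemma block_walk (U T C : SimpleGraph V) (hU : U.IsTree)
    (N : ℕ → ℕ) (hN : BallBd U N) (key : V → ℝ) (hkey : Function.Injective key) (x y : V)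
    (h : Blk T C x y) : ∃ q : (Hyb U T C key).Walk x y, q.length ≤ U.dist x y := by
  obtain ⟨w, hw⟩ := (hU.1.preconnected x y).exists_walk_length_eq_dist
  obtain ⟨q, hq⟩ := proj_walk U T C N hN key hkey x w x y (blk_refl T C x) h
    (near_self U T C hU key x) (near_self U T C hU key y)
  exact ⟨q, hq.trans hw.le⟩

theorem hyb_dist_block (U T C : SimpleGraph V) (hU : U.IsTree) (hT : T.IsTree) (hC : C ≤ T)
    (N : ℕ → ℕ) (hN : BallBd U N) (key : V → ℝ) (hkey : Function.Injective key) (x y : V)
    (h : Blk T C x y) : (Hyb U T C key).Reachable x y ∧ (Hyb U T C key).dist x y ≤ U.dist x y := by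
  obtain ⟨q, hq⟩ := block_walk U T C hU N hN key hkey x y h
  exact ⟨q.reachable, (SimpleGraph.dist_le q).trans hq⟩

open Classical in
lemma marked (U T C : SimpleGraph V) (hU : U.IsTree)
    (N : ℕ → ℕ) (hN : BallBd U N) (key : V → ℝ) (hkey : Function.Injective key) (M : ℕ) (o : V)
    {a b : V} (w : T.Walk a b) :
    (∀ c d, s(c, d) ∈ w.edges → C.Adj c d → U.dist o c ≤ M ∧ U.dist o d ≤ M) →
    U.dist o b ≤ M →
    ∃ c, U.dist o c ≤ M ∧ Blk T C a c ∧ (U.dist o a ≤ M → c = a) ∧
      ∃ q : (Hyb U T C key).Walk c b,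
        q.length + (2 * M + 1) ≤ (2 * M + 1) * (w.support.countP (fun z => U.dist o z ≤ M)) := by
  induction w with
  | @nil a =>
    intro _ hb
    refine ⟨a, hb, blk_refl T C a, fun _ => rfl, SimpleGraph.Walk.nil, ?_⟩
    rw [SimpleGraph.Walk.support_nil, List.countP_cons, List.countP_nil]
    simp [hb]
  | @cons a a' b h w ih =>
    intro hmark hb
    obtain ⟨c, hcM, hbc, hca, q, hq⟩ := ih (fun e f hef => hmark e f (by
      rw [SimpleGraph.Walk.edges_cons]
      exact List.mem_cons_of_mem _ hef)) hb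
    by_cases ha : U.dist o a ≤ M
    · -- a marked
      have hstep : ∃ q' : (Hyb U T C key).Walk a c, q'.length ≤ 2 * M + 1 := by
        by_cases hC' : C.Adj a a'
        · have h1 := hmark a a' (by rw [SimpleGraph.Walk.edges_cons]; exact List.mem_cons_self) hC'
          have h2 := hca h1.2
          subst h2
          have hadj : (Hyb U T C key).Adj a c := Or.inl hC'
          refine ⟨SimpleGraph.Walk.cons hadj SimpleGraph.Walk.nil, ?_⟩
          rw [SimpleGraph.Walk.length_cons, SimpleGraph.Walk.length_nil]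
          omega
        · have hadj : (T \ C).Adj a a' := by
            rw [SimpleGraph.sdiff_adj]
            exact ⟨h, hC'⟩
          have hbl : Blk T C a c := SimpleGraph.Reachable.trans hadj.reachable hbc
          obtain ⟨q', hq'⟩ := block_walk U T C hU N hN key hkey a c hbl
          refine ⟨q', ?_⟩
          have h3 : U.dist a c ≤ U.dist a o + U.dist o c := hU.1.dist_triangle
          rw [SimpleGraph.dist_comm (u := a) (v := o)] at h3
          omega
      obtain ⟨q', hq'⟩ := hstep
      refine ⟨a, ha, blk_refl T C a, fun _ => rfl, q'.append q, ?_⟩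
      rw [SimpleGraph.Walk.length_append, SimpleGraph.Walk.support_cons, List.countP_cons,
        if_pos (by simpa using ha), Nat.mul_add, Nat.mul_one]
      omega
    · refine ⟨c, hcM, ?_, fun h' => absurd h' ha, q, ?_⟩
      · have hC' : ¬ C.Adj a a' := by
          intro hC'
          exact ha (hmark a a' (by rw [SimpleGraph.Walk.edges_cons]; exact List.mem_cons_self) hC').1
        have hadj : (T \ C).Adj a a' := by
          rw [SimpleGraph.sdiff_adj]
          exact ⟨h, hC'⟩
        exact SimpleGraph.Reachable.trans hadj.reachable hbc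
      · rw [SimpleGraph.Walk.support_cons, List.countP_cons, if_neg (by simpa using ha)]
        exact hq

lemma cut (T : SimpleGraph V) (hT : T.IsTree) {u v : V} (w : T.Walk u v) (hw : w.IsPath)
    {a b : V} (hab : s(a, b) ∈ w.edges) : ¬ (T.deleteEdges {s(a, b)}).Reachable u v := by
  classical
  rintro ⟨p⟩
  have hle : T.deleteEdges {s(a, b)} ≤ T := SimpleGraph.deleteEdges_le _
  have h1 : s(a, b) ∉ (p.toPath.1.mapLe hle).edges := by
    rw [SimpleGraph.Walk.edges_mapLe_eq_edges]
    intro h
    have h2 := SimpleGraph.Walk.edges_subset_edgeSet _ h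
    rw [SimpleGraph.edgeSet_deleteEdges] at h2
    exact h2.2 rfl
  have h3 : (p.toPath.1.mapLe hle).IsPath := by
    rw [SimpleGraph.Walk.isPath_mapLe]
    exact p.toPath.2
  have h4 : (⟨_, h3⟩ : T.Path u v) = ⟨w, hw⟩ :=
    (SimpleGraph.IsAcyclic.subsingleton_path hT.2 u v).elim _ _
  have h5 : p.toPath.1.mapLe hle = w := congrArg Subtype.val h4
  rw [h5] at h1
  exact h1 hab

theorem hyb_dist (U T C : SimpleGraph V) (hU : U.IsTree) (hT : T.IsTree) (hC : C ≤ T)
    (N : ℕ → ℕ) (hN : BallBd U N) (key : V → ℝ) (hkey : Function.Injective key) (M : ℕ)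
    (hM : 1 ≤ M) (hnice : ∀ a b, C.Adj a b → Nice U T M a b) :
    (∀ u v, U.Adj u v → (Hyb U T C key).dist u v ≤ N M * (2 * M + 1)) ∧
    (∀ x y, (Hyb U T C key).Adj x y → U.dist x y ≤ 2 * M + 1) := by
  classical
  constructor
  · intro u v huv
    obtain ⟨p⟩ := hT.1.preconnected u v
    obtain ⟨w, hw⟩ : ∃ w : T.Walk u v, w.IsPath := ⟨p.toPath.1, p.toPath.2⟩
    have huv1 : U.dist u v ≤ M := by
      rw [SimpleGraph.dist_eq_one_iff_adj.2 huv]; exact hM
    obtain ⟨c, _, _, hcu, q, hq⟩ := marked U T C hU N hN key hkey M u w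
      (fun a b hab hCab => (hnice a b hCab).2 u v huv (cut T hT w hw hab)) huv1
    have hc : c = u := hcu (by rw [SimpleGraph.dist_self]; exact Nat.zero_le _)
    subst hc
    have hcount : w.support.countP (fun z => U.dist c z ≤ M) ≤ N M := by
      rw [List.countP_eq_length_filter]
      have hnd : (w.support.filter (fun z => U.dist c z ≤ M)).Nodup :=
        hw.support_nodup.filter _
      rw [← List.toFinset_card_of_nodup hnd]
      refine le_trans ?_ (hN c M).2
      rw [← Set.ncard_coe_finset]
      refine Set.ncard_le_ncard ?_ (hN c M).1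
      intro z hz
      have hz' := List.mem_toFinset.1 (Finset.mem_coe.1 hz)
      have := (List.mem_filter.1 hz').2
      simpa using this
    have h1 := SimpleGraph.dist_le q
    have h2 : (2 * M + 1) * (w.support.countP (fun z => U.dist c z ≤ M))
        ≤ (2 * M + 1) * N M := Nat.mul_le_mul_left _ hcount
    rw [Nat.mul_comm (2 * M + 1) (N M)] at h2
    omega
  · rintro x y (h | ⟨hne, hb, u, v, huv, hu, hv⟩)
    · have := (hnice x y h).1
      omega
    · obtain ⟨_, _, h1, _, h2⟩ := Pool.Agent.TH267.FI.block_geo U T C hU hT hC key hkey x y u v hne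
        hb huv hu hv
      have h3 := h2 M hnice
      omega

end Pool.Agent.TH113.FIHybdist

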