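import Pool.Agent.TH722.FI.Defs

set_option autoImplicit false

namespace Pool.Agent.TH113.FINames

open MeasureTheory Set Filter Pool.Agent.TH722.FI
open scoped Topology ENNReal

variable {r : ℕ} {X : Type*} [MeasurableSpace X] {μ : Measure X}
  [IsProbabilityMeasure μ] [MulAction (FreeGroup (Fin r)) X]

theorem names [StandardBorelSpace X]
    (hact : ∀ g : FreeGroup (Fin r), MeasurePreserving (fun x : X => g • x) μ μ)
    (hfree : ∀ (g : FreeGroup (Fin r)) (x : X), g • x = x → g = 1)
    (B : Finset (FreeGroup (Fin r))) (δ : ℝ) (hδ : 0 < δ) :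
    ∃ (q : ℕ) (ν : X → Fin q), Measurable ν ∧
      μ.real {x | ∃ g ∈ B, g ≠ 1 ∧ ν (g • x) = ν x} ≤ δ := by
  classical
  obtain ⟨f, hf⟩ := exists_measurableEmbedding_real X
  obtain ⟨qq, hqq⟩ := exists_surjective_nat ℚ
  obtain ⟨Z, hZ⟩ : ∃ Z : FreeGroup (Fin r) → ℕ → Set X, ∀ g n,
      Z g n = {x | ∀ i, i < n → (f (g • x) < qq i ↔ f x < qq i)} := ⟨_, fun _ _ => rfl⟩
  have hlt : ∀ i, Measurable (fun x : X => f x < (qq i : ℝ)) := by
    intro i
    exact measurableSet_setOfPred.1 (measurableSet_lt hf.measurable measurable_const)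
  have hZm : ∀ g n, MeasurableSet (Z g n) := by
    intro g n
    rw [hZ]
    refine measurableSet_setOfPred.2 ?_
    refine Measurable.forall fun i => ?_
    refine Measurable.imp measurable_const ?_
    exact ((hlt i).comp (hact g).measurable).iff (hlt i)
  have hanti : ∀ g, Antitone (Z g) := by
    intro g m n hmn x hx
    rw [hZ] at hx ⊢
    exact fun i hi => hx i (lt_of_lt_of_le hi hmn)
  have hempty : ∀ g, g ≠ 1 → ⋂ n, Z g n = ∅ := by
    intro g hg
    rw [Set.eq_empty_iff_forall_notMem]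
    intro x hx
    rw [Set.mem_iInter] at hx
    have hall : ∀ i, (f (g • x) < qq i ↔ f x < qq i) := by
      intro i
      have := hx (i + 1)
      rw [hZ] at this
      exact this i (Nat.lt_succ_self i)
    have heq : f (g • x) = f x := by
      rcases lt_trichotomy (f (g • x)) (f x) with h | h | h
      · obtain ⟨q, h1, h2⟩ := exists_rat_btwn h
        obtain ⟨i, rfl⟩ := hqq q
        exact absurd ((hall i).1 h1) (not_lt.2 h2.le)
      · exact h
      · obtain ⟨q, h1, h2⟩ := exists_rat_btwn h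
        obtain ⟨i, rfl⟩ := hqq q
        exact absurd ((hall i).2 h1) (not_lt.2 h2.le)
    exact hg (hfree g x (hf.injective heq))
  have hlim : ∀ g, g ≠ 1 → Tendsto (fun n => μ.real (Z g n)) atTop (𝓝 0) := by
    intro g hg
    have h1 := tendsto_measure_iInter_atTop (μ := μ) (s := Z g)
      (fun n => (hZm g n).nullMeasurableSet) (hanti g) ⟨0, measure_ne_top _ _⟩
    rw [hempty g hg, measure_empty] at h1
    have h2 := (ENNReal.tendsto_toReal ENNReal.zero_ne_top).comp h1
    rw [ENNReal.toReal_zero] at h2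
    exact h2
  have hsum : Tendsto (fun n => ∑ g ∈ B.filter (fun g => g ≠ 1), μ.real (Z g n)) atTop (𝓝 0) := by
    have h1 := tendsto_finsetSum (B.filter (fun g => g ≠ 1))
      (fun g hg => hlim g (Finset.mem_filter.1 hg).2)
    rw [Finset.sum_const_zero] at h1
    exact h1
  obtain ⟨n, hn⟩ := (hsum.eventually_lt_const hδ).exists
  obtain ⟨col, hcol⟩ : ∃ col : X → (Fin n → Bool), ∀ x i, col x i = decide (f x < qq i) :=
    ⟨_, fun _ _ => rfl⟩
  have hcolm : Measurable col := by
    refine measurable_pi_iff.2 fun i => ?_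
    have e : (fun x => col x i) = fun x => decide (f x < (qq i : ℝ)) := by
      funext x; exact hcol x i
    rw [e]
    exact (measurable_of_countable (fun p : Prop => decide p)).comp (hlt i)
  refine ⟨Fintype.card (Fin n → Bool), fun x => Fintype.equivFin _ (col x), ?_, ?_⟩
  · exact (measurable_of_countable _).comp hcolm
  · have hsub : {x | ∃ g ∈ B, g ≠ 1 ∧ (Fintype.equivFin (Fin n → Bool)) (col (g • x))
        = (Fintype.equivFin (Fin n → Bool)) (col x)} ⊆
        ⋃ g ∈ B.filter (fun g => g ≠ 1), Z g n := by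
      rintro x ⟨g, hgB, hg1, hgx⟩
      rw [Set.mem_iUnion₂]
      refine ⟨g, Finset.mem_filter.2 ⟨hgB, hg1⟩, ?_⟩
      rw [hZ]
      intro i hi
      have h1 := (Fintype.equivFin (Fin n → Bool)).injective hgx
      have h2 := congrFun h1 ⟨i, hi⟩
      rw [hcol, hcol] at h2
      exact decide_eq_decide.1 h2
    calc μ.real {x | ∃ g ∈ B, g ≠ 1 ∧ (Fintype.equivFin (Fin n → Bool)) (col (g • x))
        = (Fintype.equivFin (Fin n → Bool)) (col x)}
        ≤ μ.real (⋃ g ∈ B.filter (fun g => g ≠ 1), Z g n) := measureReal_mono hsub (measure_ne_top _ _)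
      _ ≤ ∑ g ∈ B.filter (fun g => g ≠ 1), μ.real (Z g n) := measureReal_biUnion_finset_le _ _
      _ ≤ δ := hn.le

end Pool.Agent.TH113.FINames

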