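import Pool.Agent.TH948.HT.Defs

set_option autoImplicit false
set_option linter.unusedSectionVars false

/-!
# Project HT, job HT-1: many heavy edges (helper113)
-/

namespace Pool.Agent.TH948.HT

open Finset
open scoped Classical
open Pool.Agent.TH965.Spread Pool.Agent.TH948.KK Pool.Agent.TH948.BD

namespace HT1

noncomputable section

/-- the coefficients of the local inversion -/
def al (m j : ℕ) : ℝ := (-1) ^ (m - j) / ((m + 1) * (m.choose j))

lemma al_abs (m j : ℕ) : |al m j| ≤ 1 := by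
  unfold al
  rw [abs_div, abs_pow, abs_neg, abs_one, one_pow]
  rcases Nat.eq_zero_or_pos (m.choose j) with h | h
  · rw [h]
    simp
  · have h1 : (1 : ℝ) ≤ m.choose j := by exact_mod_cast h
    have h2 : (0 : ℝ) ≤ m := Nat.cast_nonneg _
    have h3 : (1 : ℝ) ≤ (m + 1) * m.choose j := by nlinarith
    rw [abs_of_pos (by linarith), div_le_one (by linarith)]
    exact h3

lemma al_rec {m b : ℕ} (hb : b ≤ m) :
    ((m - b : ℕ) : ℝ) * al m (b + 1) + ((b : ℝ) + 1) * al m b = if b = m then 1 else 0 := by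
  by_cases h : b = m
  · subst h
    rw [if_pos rfl]
    unfold al
    have h2 : (0 : ℝ) ≤ b := Nat.cast_nonneg _
    have h3 : ((b : ℝ) + 1) ≠ 0 := by positivity
    simp
    field_simp
  · rw [if_neg h]
    have hlt : b < m := lt_of_le_of_ne hb h
    have h1 := Nat.choose_succ_right_eq m b
    have hc0 : 0 < m.choose b := Nat.choose_pos hb
    have hc1 : 0 < m.choose (b + 1) := Nat.choose_pos hlt
    have h1' : (m.choose (b + 1) : ℝ) * (b + 1) = m.choose b * ((m - b : ℕ) : ℝ) := by
      exact_mod_cast h1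
    have hc0' : (m.choose b : ℝ) ≠ 0 := by positivity
    have hc1' : (m.choose (b + 1) : ℝ) ≠ 0 := by positivity
    have hm : ((m : ℝ) + 1) ≠ 0 := by positivity
    unfold al
    have h2 : m - b = (m - (b + 1)) + 1 := by omega
    have h3 : ((-1 : ℝ)) ^ (m - b) = -(-1) ^ (m - (b + 1)) := by
      rw [h2, pow_succ]
      ring
    rw [h3]
    field_simp
    linear_combination (-(-1 : ℝ) ^ (m - (b + 1))) * h1'

variable {n : ℕ}

/-- the supersets of `h` with one more element -/
lemma sup_eq {m : ℕ} {U h : Finset (Fin n)} (hU : h ⊆ U) (hh : h.card = m) :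
    (U.powersetCard (m + 1)).filter (fun e => h ⊆ e) = (U \ h).image (fun x => insert x h) := by
  ext e
  rw [mem_filter, mem_powersetCard, mem_image]
  constructor
  · rintro ⟨⟨h1, h2⟩, h3⟩
    have h4 : (e \ h).card = 1 := by
      rw [card_sdiff_of_subset h3, h2, hh]
      omega
    obtain ⟨x, hx⟩ := card_eq_one.1 h4
    have hx' : x ∈ e \ h := by rw [hx]; exact mem_singleton_self x
    rw [mem_sdiff] at hx'
    refine ⟨x, mem_sdiff.2 ⟨h1 hx'.1, hx'.2⟩, ?_⟩
    have h5 := sdiff_union_of_subset h3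
    rw [hx] at h5
    rw [← h5]
    rfl
  · rintro ⟨x, hx, rfl⟩
    rw [mem_sdiff] at hx
    refine ⟨⟨?_, ?_⟩, subset_insert x h⟩
    · intro z hz
      rcases mem_insert.1 hz with rfl | hz
      · exact hx.1
      · exact hU hz
    · rw [card_insert_of_notMem hx.2, hh]

lemma inner_sum {m : ℕ} {f g h : Finset (Fin n)} (hf : f.card = m) (hg : g.card = m + 1)
    (hfg : Disjoint f g) (hU : h ⊆ f ∪ g) (hh : h.card = m) :
    ∑ e ∈ ((f ∪ g).powersetCard (m + 1)).filter (fun e => h ⊆ e), al m (e ∩ f).card =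
      if h = f then 1 else 0 := by
  rw [sup_eq hU hh, sum_image (fun x hx x' hx' hxx => by
    have h1 := (mem_sdiff.1 hx).2
    have h2 : x ∈ insert x' h := by
      have : insert x h = insert x' h := hxx
      rw [← this]
      exact mem_insert_self x h
    rcases mem_insert.1 h2 with h3 | h3
    · exact h3
    · exact absurd h3 h1)]
  have hsp : (f ∪ g) \ h = (f \ h) ∪ (g \ h) := union_sdiff_distrib f g h
  have hdis : Disjoint (f \ h) (g \ h) := hfg.mono sdiff_subset sdiff_subset
  rw [hsp, sum_union hdis]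
  have hb : (h ∩ f).card ≤ m := by
    rw [← hf]
    exact card_le_card inter_subset_right
  have e1 : ∑ x ∈ f \ h, al m (insert x h ∩ f).card =
      ((m - (h ∩ f).card : ℕ) : ℝ) * al m ((h ∩ f).card + 1) := by
    have h1 : ∀ x ∈ f \ h, al m (insert x h ∩ f).card = al m ((h ∩ f).card + 1) := by
      intro x hx
      rw [mem_sdiff] at hx
      rw [insert_inter_of_mem hx.1, card_insert_of_notMem]
      intro hc
      exact hx.2 (mem_inter.1 hc).1
    rw [sum_congr rfl h1, sum_const, nsmul_eq_mul, card_sdiff, hf]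
  have hgh : (h ∩ g).card = m - (h ∩ f).card := by
    have h1 : h = (h ∩ f) ∪ (h ∩ g) := by
      rw [← inter_union_distrib_left]
      exact (inter_eq_left.2 hU).symm
    have h2 : Disjoint (h ∩ f) (h ∩ g) := hfg.mono inter_subset_right inter_subset_right
    have h3 := card_union_of_disjoint h2
    rw [← h1, hh] at h3
    omega
  have e2 : ∑ x ∈ g \ h, al m (insert x h ∩ f).card =
      (((h ∩ f).card : ℝ) + 1) * al m (h ∩ f).card := by
    have h1 : ∀ x ∈ g \ h, al m (insert x h ∩ f).card = al m (h ∩ f).card := by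
      intro x hx
      rw [mem_sdiff] at hx
      rw [insert_inter_of_notMem]
      intro hc
      exact disjoint_left.1 hfg hc hx.1
    rw [sum_congr rfl h1, sum_const, nsmul_eq_mul, card_sdiff, hg, hgh]
    congr 1
    have h2 : m + 1 - (m - (h ∩ f).card) = (h ∩ f).card + 1 := by omega
    rw [h2]
    push_cast
    rfl
  rw [e1, e2, al_rec hb]
  have h4 : (h ∩ f).card = m ↔ h = f := by
    constructor
    · intro h5
      have h6 : h ∩ f = f := eq_of_subset_of_card_le inter_subset_right (by omega)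
      have h7 : f ⊆ h := inter_eq_right.1 h6
      exact (eq_of_subset_of_card_le h7 (by omega)).symm
    · rintro rfl
      rw [inter_self, hh]
  simp only [h4]

/-- **the local inversion** -/
lemma local_inv {m : ℕ} {f g : Finset (Fin n)} (hf : f.card = m) (hg : g.card = m + 1)
    (hfg : Disjoint f g) (y : Finset (Fin n) → ℝ) :
    ∑ e ∈ (f ∪ g).powersetCard (m + 1), al m (e ∩ f).card * ∑ h ∈ e.powersetCard m, y h = y f := by
  have h1 : ∑ e ∈ (f ∪ g).powersetCard (m + 1), al m (e ∩ f).card *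
      ∑ h ∈ e.powersetCard m, y h = ∑ h ∈ (f ∪ g).powersetCard m,
        ∑ e ∈ ((f ∪ g).powersetCard (m + 1)).filter (fun e => h ⊆ e),
          al m (e ∩ f).card * y h := by
    simp only [mul_sum]
    refine sum_comm' ?_
    intro e h
    rw [mem_filter, mem_powersetCard, mem_powersetCard, mem_powersetCard]
    constructor
    · rintro ⟨⟨h1, h2⟩, h3, h4⟩
      exact ⟨⟨⟨h1, h2⟩, h3⟩, h3.trans h1, h4⟩
    · rintro ⟨⟨⟨h1, h2⟩, h3⟩, _, h4⟩
      exact ⟨⟨h1, h2⟩, h3, h4⟩
  rw [h1]
  have h2 : ∀ h ∈ (f ∪ g).powersetCard m,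
      ∑ e ∈ ((f ∪ g).powersetCard (m + 1)).filter (fun e => h ⊆ e), al m (e ∩ f).card * y h =
        if h = f then y f else 0 := by
    intro h hh
    rw [mem_powersetCard] at hh
    rw [← sum_mul, inner_sum hf hg hfg hh.1 hh.2]
    split_ifs with h3
    · rw [one_mul, h3]
    · rw [zero_mul]
  rw [sum_congr rfl h2, sum_ite_eq' ((f ∪ g).powersetCard m) f (fun _ => y f), if_pos]
  rw [mem_powersetCard]
  exact ⟨subset_union_left, hf⟩

/-- there is a heavy edge in every gadget -/
lemma exists_heavy {m : ℕ} {f g : Finset (Fin n)} (hf : f.card = m) (hg : g.card = m + 1)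
    (hfg : Disjoint f g) (y : Finset (Fin n) → ℝ) {a : ℝ} (ha : 0 < a) (hya : a ≤ |y f|) :
    ∃ e ∈ (f ∪ g).powersetCard (m + 1), a / 4 ^ (m + 1) ≤ |fs (m + 1) y e| := by
  by_contra hcon
  push Not at hcon
  have h1 := local_inv hf hg hfg y
  have hcard : (f ∪ g).card = 2 * m + 1 := by
    rw [card_union_of_disjoint hfg, hf, hg]
    ring
  have h2 : |y f| ≤ ∑ e ∈ (f ∪ g).powersetCard (m + 1), |fs (m + 1) y e| := by
    rw [← h1]
    refine (abs_sum_le_sum_abs _ _).trans (sum_le_sum fun e _ => ?_)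
    rw [abs_mul]
    calc |al m (e ∩ f).card| * |∑ h ∈ e.powersetCard m, y h| ≤
          1 * |∑ h ∈ e.powersetCard m, y h| :=
          mul_le_mul_of_nonneg_right (al_abs _ _) (abs_nonneg _)
      _ = |fs (m + 1) y e| := by
          rw [one_mul]
          rfl
  have hne : ((f ∪ g).powersetCard (m + 1)).Nonempty := by
    rw [powersetCard_nonempty, hcard]
    omega
  have h3 : ∑ e ∈ (f ∪ g).powersetCard (m + 1), |fs (m + 1) y e| <
      ∑ _e ∈ (f ∪ g).powersetCard (m + 1), a / 4 ^ (m + 1) := sum_lt_sum_of_nonempty hne hcon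
  rw [sum_const, card_powersetCard, hcard, nsmul_eq_mul] at h3
  have h4 : ((2 * m + 1).choose (m + 1) : ℝ) ≤ 4 ^ (m + 1) := by
    have h5 : (2 * m + 1).choose (m + 1) ≤ 2 ^ (2 * m + 1) := Nat.choose_le_two_pow _ _
    have h6 : 2 ^ (2 * m + 1) ≤ 4 ^ (m + 1) := by
      have h7 : (4 : ℕ) ^ (m + 1) = 2 ^ (2 * (m + 1)) := by
        rw [pow_mul]
        norm_num
      rw [h7]
      exact Nat.pow_le_pow_right (by norm_num) (by omega)
    exact_mod_cast h5.trans h6
  have h5 : ((2 * m + 1).choose (m + 1) : ℝ) * (a / 4 ^ (m + 1)) ≤ a := by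
    calc ((2 * m + 1).choose (m + 1) : ℝ) * (a / 4 ^ (m + 1)) ≤
          4 ^ (m + 1) * (a / 4 ^ (m + 1)) := mul_le_mul_of_nonneg_right h4 (by positivity)
      _ = a := by field_simp
  linarith

/-- the gadgets that contain a given edge -/
lemma card_gad (m : ℕ) {e : Finset (Fin n)} (he : e.card = m + 1)
    (A : Finset (Finset (Fin n) × Finset (Fin n)))
    (hA : ∀ q ∈ A, q.1.card = m ∧ q.2.card = m + 1 ∧ Disjoint q.1 q.2 ∧ e ⊆ q.1 ∪ q.2) :
    A.card ≤ 2 ^ (m + 1) * n ^ m := by
  have h1 : A.card ≤ (e.ssubsets.sigma (fun B => (univ : Finset (Fin n)).powersetCard (m - B.card)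
      ×ˢ (univ : Finset (Fin n)).powersetCard B.card)).card := by
    refine card_le_card_of_injOn (fun q => ⟨e ∩ q.1, (q.1 \ e, q.2 \ e)⟩) ?_ ?_
    · intro q hq
      obtain ⟨h1, h2, h3, h4⟩ := hA q hq
      have h5 : (e ∩ q.1).card ≤ m := by
        rw [← h1]
        exact card_le_card inter_subset_right
      have h6 : e = (e ∩ q.1) ∪ (e ∩ q.2) := by
        rw [← inter_union_distrib_left]
        exact (inter_eq_left.2 h4).symm
      have h7 : Disjoint (e ∩ q.1) (e ∩ q.2) := h3.mono inter_subset_right inter_subset_right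
      have h8 := card_union_of_disjoint h7
      rw [← h6, he] at h8
      rw [mem_coe, mem_sigma, mem_product, mem_powersetCard, mem_powersetCard, mem_ssubsets]
      refine ⟨⟨inter_subset_left, ?_⟩, ⟨subset_univ _, ?_⟩, subset_univ _, ?_⟩
      · intro hc
        have h9 := card_le_card hc
        have h10 : (e ∩ q.1).card = (e ∩ q.1).card := rfl
        rw [he] at h9
        have : (e ∩ q.1).card < m + 1 := Nat.lt_succ_of_le h5
        exact absurd h9 (not_le.2 this)
      · show (q.1 \ e).card = m - (e ∩ q.1).card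
        rw [card_sdiff, h1]
      · show (q.2 \ e).card = (e ∩ q.1).card
        rw [card_sdiff, h2]
        omega
    · intro q hq q' hq' hqq
      obtain ⟨-, -, h3, h4⟩ := hA q hq
      obtain ⟨-, -, h3', h4'⟩ := hA q' hq'
      simp only [Sigma.mk.injEq, heq_eq_eq, Prod.mk.injEq] at hqq
      obtain ⟨k1, k2, k3⟩ := hqq
      have key1 : ∀ q : Finset (Fin n) × Finset (Fin n), q.1 = (e ∩ q.1) ∪ (q.1 \ e) := by
        intro q
        ext x
        simp only [mem_union, mem_inter, mem_sdiff]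
        tauto
      have key2 : ∀ q : Finset (Fin n) × Finset (Fin n), Disjoint q.1 q.2 → e ⊆ q.1 ∪ q.2 →
          q.2 = (e \ (e ∩ q.1)) ∪ (q.2 \ e) := by
        intro q hd hs
        ext x
        have hx1 : x ∈ e → x ∈ q.1 ∨ x ∈ q.2 := fun hx => mem_union.1 (hs hx)
        have hx2 : x ∈ q.1 → x ∉ q.2 := fun hx => disjoint_left.1 hd hx
        simp only [mem_union, mem_inter, mem_sdiff]
        tauto
      refine Prod.ext ?_ ?_
      · rw [key1 q, key1 q', k1, k2]
      · rw [key2 q h3 h4, key2 q' h3' h4', k1, k3]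
  refine h1.trans ?_
  rw [card_sigma]
  have h2 : ∀ B ∈ e.ssubsets, ((univ : Finset (Fin n)).powersetCard (m - B.card)
      ×ˢ (univ : Finset (Fin n)).powersetCard B.card).card ≤ n ^ m := by
    intro B hB
    have h3 : B.card < m + 1 := by
      rw [← he]
      exact card_lt_card (mem_ssubsets.1 hB)
    rw [card_product, card_powersetCard, card_powersetCard, card_univ, Fintype.card_fin]
    calc n.choose (m - B.card) * n.choose B.card ≤ n ^ (m - B.card) * n ^ B.card :=
          Nat.mul_le_mul (Nat.choose_le_pow _ _) (Nat.choose_le_pow _ _)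
      _ = n ^ m := by
          rw [← pow_add]
          congr 1
          omega
  refine (sum_le_sum h2).trans ?_
  rw [sum_const, smul_eq_mul]
  refine Nat.mul_le_mul_right _ ?_
  have h3 : e.ssubsets.card ≤ e.powerset.card := card_le_card (by
    intro B hB
    rw [mem_powerset]
    exact (mem_ssubsets.1 hB).1)
  rw [card_powerset, he] at h3
  exact h3

/-- lower bound of the binomial coefficients -/
lemma pow_le_choose (k : ℕ) : ∀ m : ℕ, k ≤ m → m ^ k ≤ k ^ k * m.choose k := by
  induction k with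
  | zero => intro m _; simp
  | succ k ih =>
    intro m hm
    obtain ⟨m, rfl⟩ : ∃ m', m = m' + 1 := ⟨m - 1, by omega⟩
    have hkm : k ≤ m := by omega
    have h1 := ih m hkm
    have h2 : (m + 1) * m.choose k = (m + 1).choose (k + 1) * (k + 1) := Nat.add_one_mul_choose_eq m k
    have h3 : (m + 1) ^ k ≤ (k + 1) ^ k * m.choose k := by
      rcases Nat.eq_zero_or_pos k with h0 | h0
      · subst h0
        simp
      · have h4 : ((m + 1) * k) ^ k ≤ ((k + 1) * m) ^ k := by
          apply Nat.pow_le_pow_left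
          nlinarith
        rw [mul_pow, mul_pow] at h4
        have h5 : (m + 1) ^ k * k ^ k ≤ ((k + 1) ^ k * m.choose k) * k ^ k := by
          calc (m + 1) ^ k * k ^ k ≤ (k + 1) ^ k * m ^ k := h4
            _ ≤ (k + 1) ^ k * (k ^ k * m.choose k) := Nat.mul_le_mul_left _ h1
            _ = _ := by ring
        exact Nat.le_of_mul_le_mul_right h5 (Nat.pow_pos h0)
    calc (m + 1) ^ (k + 1) = (m + 1) ^ k * (m + 1) := pow_succ _ _
      _ ≤ (k + 1) ^ k * m.choose k * (m + 1) := Nat.mul_le_mul_right _ h3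
      _ = (k + 1) ^ k * ((m + 1) * m.choose k) := by ring
      _ = (k + 1) ^ k * ((m + 1).choose (k + 1) * (k + 1)) := by rw [h2]
      _ = (k + 1) ^ (k + 1) * (m + 1).choose (k + 1) := by ring

end

end HT1

open HT1 in
theorem gadget_count {n k : ℕ} (hk : 2 ≤ k) (hn : 2 * k ≤ n) (y : Finset (Fin n) → ℝ) (a : ℝ)
    (ha : 0 < a) (S : Finset (Finset (Fin n))) (hS : S ⊆ facets n k) (hSa : ∀ f ∈ S, a ≤ |y f|) :
    (S.card : ℝ) * n / (4 * k) ^ k ≤
      (((edges n k).filter (fun e => a / 4 ^ k ≤ |fs k y e|)).card : ℝ) := by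
  obtain ⟨m, rfl⟩ : ∃ m, k = m + 1 := ⟨k - 1, by omega⟩
  set Hv := (edges n (m + 1)).filter (fun e => a / 4 ^ (m + 1) ≤ |fs (m + 1) y e|) with hHv
  have hSc : ∀ f ∈ S, f.card = m := by
    intro f hf
    have h1 := hS hf
    unfold facets at h1
    rw [mem_powersetCard] at h1
    simpa using h1.2
  -- the gadgets
  let Gd : Finset (Finset (Fin n) × Finset (Fin n)) :=
    S.biUnion (fun f => (((univ : Finset (Fin n)) \ f).powersetCard (m + 1)).image
      (fun g => (f, g)))
  have hGc : Gd.card = S.card * (n - m).choose (m + 1) := by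
    have h1 : Gd.card = ∑ f ∈ S, ((((univ : Finset (Fin n)) \ f).powersetCard (m + 1)).image
      (fun g => (f, g))).card := by
      apply card_biUnion
      intro f _ f' _ hff
      show Disjoint _ _
      rw [disjoint_left]
      intro q hq hq'
      obtain ⟨g, _, rfl⟩ := mem_image.1 hq
      obtain ⟨g', _, hgg⟩ := mem_image.1 hq'
      exact hff (congrArg Prod.fst hgg).symm
    rw [h1, sum_congr rfl (g := fun _ => (n - m).choose (m + 1)), sum_const, smul_eq_mul]
    intro f hf
    rw [card_image_of_injective _ (fun g g' h => (congrArg Prod.snd h : g = g')),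
      card_powersetCard, card_sdiff, inter_univ, card_univ, Fintype.card_fin, hSc f hf]
  have hGm : ∀ q ∈ Gd, q.1 ∈ S ∧ q.2.card = m + 1 ∧ Disjoint q.1 q.2 := by
    intro q hq
    obtain ⟨f, hf, hq⟩ := mem_biUnion.1 hq
    obtain ⟨g, hg, rfl⟩ := mem_image.1 hq
    rw [mem_powersetCard] at hg
    refine ⟨hf, hg.2, ?_⟩
    rw [disjoint_right]
    intro x hx
    exact (mem_sdiff.1 (hg.1 hx)).2
  have hcov : Gd ⊆ Hv.biUnion (fun e => Gd.filter (fun q => e ⊆ q.1 ∪ q.2)) := by
    intro q hq
    obtain ⟨h1, h2, h3⟩ := hGm q hq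
    obtain ⟨e, he, he2⟩ := exists_heavy (hSc _ h1) h2 h3 y ha (hSa _ h1)
    rw [mem_powersetCard] at he
    rw [mem_biUnion]
    refine ⟨e, ?_, mem_filter.2 ⟨hq, he.1⟩⟩
    rw [hHv, mem_filter]
    unfold edges
    rw [mem_powersetCard]
    exact ⟨⟨subset_univ _, he.2⟩, he2⟩
  have hcnt : S.card * (n - m).choose (m + 1) ≤ Hv.card * (2 ^ (m + 1) * n ^ m) := by
    rw [← hGc]
    refine (card_le_card hcov).trans (card_biUnion_le.trans ?_)
    rw [← smul_eq_mul, ← sum_const]
    refine sum_le_sum fun e he => ?_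
    have he' : e.card = m + 1 := by
      rw [hHv, mem_filter] at he
      have h1 := he.1
      unfold edges at h1
      exact (mem_powersetCard.1 h1).2
    refine card_gad m he' _ ?_
    intro q hq
    rw [mem_filter] at hq
    obtain ⟨h1, h2, h3⟩ := hGm q hq.1
    exact ⟨hSc _ h1, h2, h3, hq.2⟩
  -- the binomial coefficient
  have hbin : n ^ (m + 1) ≤ (2 * (m + 1)) ^ (m + 1) * (n - m).choose (m + 1) := by
    have h1 := pow_le_choose (m + 1) (n - m) (by omega)
    calc n ^ (m + 1) ≤ (2 * (n - m)) ^ (m + 1) := Nat.pow_le_pow_left (by omega) _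
      _ = 2 ^ (m + 1) * (n - m) ^ (m + 1) := mul_pow _ _ _
      _ ≤ 2 ^ (m + 1) * ((m + 1) ^ (m + 1) * (n - m).choose (m + 1)) := Nat.mul_le_mul_left _ h1
      _ = (2 * (m + 1)) ^ (m + 1) * (n - m).choose (m + 1) := by
          rw [mul_pow]
          ring
  have hfin : S.card * n * n ^ m ≤ Hv.card * (4 * (m + 1)) ^ (m + 1) * n ^ m := by
    calc S.card * n * n ^ m = S.card * n ^ (m + 1) := by ring
      _ ≤ S.card * ((2 * (m + 1)) ^ (m + 1) * (n - m).choose (m + 1)) :=
          Nat.mul_le_mul_left _ hbin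
      _ = (2 * (m + 1)) ^ (m + 1) * (S.card * (n - m).choose (m + 1)) := by ring
      _ ≤ (2 * (m + 1)) ^ (m + 1) * (Hv.card * (2 ^ (m + 1) * n ^ m)) :=
          Nat.mul_le_mul_left _ hcnt
      _ = Hv.card * (4 * (m + 1)) ^ (m + 1) * n ^ m := by
          have : (4 * (m + 1)) ^ (m + 1) = (2 * (m + 1)) ^ (m + 1) * 2 ^ (m + 1) := by
            rw [← mul_pow]
            congr 1
            ring
          rw [this]
          ring
  have hn0 : 0 < n := by omega
  have hfin2 : S.card * n ≤ Hv.card * (4 * (m + 1)) ^ (m + 1) :=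
    Nat.le_of_mul_le_mul_right hfin (Nat.pow_pos hn0)
  rw [div_le_iff₀ (by positivity)]
  exact_mod_cast hfin2

end Pool.Agent.TH948.HT
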