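import Pool.Agent.TH319.CDefs

/-!
Combining two rotation partners (job H319-23, for MP_df72c7_an).
-/

namespace Pool.Agent.TH319
open Module Filter Topology
universe u

theorem nuc_sqrt_diff (p q b : ℝ) :
    |Real.sqrt (p ^ 2 + b ^ 2) - Real.sqrt (q ^ 2 + b ^ 2)| ≤ |p - q| := by
  have h := abs_norm_sub_norm_le (⟨p, b⟩ : ℂ) (⟨q, b⟩ : ℂ)
  have e : (⟨p, b⟩ : ℂ) - ⟨q, b⟩ = ((p - q : ℝ) : ℂ) := by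
    apply Complex.ext <;> simp
  rw [e, Complex.norm_real, Real.norm_eq_abs] at h
  have n1 : ∀ t : ℝ, ‖(⟨t, b⟩ : ℂ)‖ = Real.sqrt (t ^ 2 + b ^ 2) := by
    intro t
    rw [Complex.norm_def, Complex.normSq_mk]
    congr 1; ring
  rwa [n1, n1] at h

theorem nuc_core {t : ℝ} (ht0 : 0 < t) (ht1 : t ≤ 1 / 10000)
    {X : Type u} [NormedAddCommGroup X] [NormedSpace ℂ X]
    {E K₁ K₂ : Submodule ℂ X} {e₁ e₂ : E} {m₁ m₂ : X} {ψ₁ ψ₂ : E →ₗ[ℂ] ℂ}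
    (he₂ : ‖e₂‖ = 1) (h₁ : ψ₁ e₁ = 1) (h₂ : ψ₂ e₂ = 1)
    (hψ₂ : ∀ x, ‖ψ₂ x‖ ≤ 3 * ‖x‖)
    (he : ‖e₁ - e₂‖ ≤ t) (hψ : ∀ x, ‖ψ₁ x - ψ₂ x‖ ≤ t * ‖x‖)
    (hK : K₂ ≤ K₁) (hm₂ : m₂ ∈ K₁) (hE : ∀ x ∈ E, ∀ k ∈ K₁, ‖x‖ ≤ 2 * ‖x + k‖)
    (N1 : NU t (e₁ : X) m₁ ((LinearMap.ker ψ₁).map E.subtype ⊔ K₁))
    (N2 : NU t (e₂ : X) m₂ ((LinearMap.ker ψ₂).map E.subtype ⊔ K₂))
    (α β : ℂ) (x : E) (k : X) (hk : k ∈ K₂) (Z : X)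
    (hZ : Z = ((Real.sqrt (‖ψ₁ x‖ ^ 2 + ‖α‖ ^ 2 + ‖β‖ ^ 2) : ℝ) : ℂ) • (e₁ : X)
      + ((x : X) - ψ₁ x • (e₁ : X)) + k) :
    ‖α • m₁ + β • m₂ + ((x : X) + k)‖ ≤ (1 + 30 * t) * ‖Z‖ ∧
    ‖Z‖ ≤ (1 + 30 * t) * ‖α • m₁ + β • m₂ + ((x : X) + k)‖ := by
  obtain ⟨y, hy⟩ : ∃ y, y = α • m₁ + β • m₂ + ((x : X) + k) := ⟨_, rfl⟩
  rw [← hy]
  obtain ⟨a, ha⟩ : ∃ a, a = ψ₁ x := ⟨_, rfl⟩
  obtain ⟨h, hh⟩ : ∃ h : E, h = x - a • e₁ := ⟨_, rfl⟩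
  have hh1 : ψ₁ h = 0 := by rw [hh, map_sub, map_smul, h₁, ← ha]; simp
  have hhX : (h : X) = (x : X) - a • (e₁ : X) := by rw [hh]; simp
  obtain ⟨r1, hr1⟩ : ∃ r1, r1 = Real.sqrt (‖a‖ ^ 2 + ‖α‖ ^ 2) := ⟨_, rfl⟩
  have r1nn : 0 ≤ r1 := by rw [hr1]; exact Real.sqrt_nonneg _
  have r1sq : r1 ^ 2 = ‖a‖ ^ 2 + ‖α‖ ^ 2 := by
    rw [hr1]; exact Real.sq_sqrt (by positivity)
  obtain ⟨r2, hr2⟩ : ∃ r2, r2 = Real.sqrt (r1 ^ 2 + ‖β‖ ^ 2) := ⟨_, rfl⟩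
  have hZ' : Z = (r2 : ℂ) • (e₁ : X) + (h : X) + k := by
    rw [hZ, hr2, r1sq, hhX, ha]
  -- step (i)
  have mem1 : (h : X) + (β • m₂ + k) ∈ (LinearMap.ker ψ₁).map E.subtype ⊔ K₁ := by
    apply Submodule.add_mem_sup
    · exact ⟨h, hh1, rfl⟩
    · exact K₁.add_mem (K₁.smul_mem _ hm₂) (hK hk)
  have I1 := N1 a α _ mem1
  obtain ⟨y1, hy1⟩ : ∃ y1, y1 = (r1 : ℂ) • (e₁ : X) + ((h : X) + (β • m₂ + k)) := ⟨_, rfl⟩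
  have ey : a • (e₁ : X) + α • m₁ + ((h : X) + (β • m₂ + k)) = y := by
    rw [hy, hhX]; module
  rw [ey, ← hr1, ← hy1] at I1
  obtain ⟨I1a, I1b⟩ := I1
  -- step (ii)
  obtain ⟨z, hz⟩ : ∃ z : E, z = (r1 : ℂ) • e₁ + h := ⟨_, rfl⟩
  have hzX : (z : X) = (r1 : ℂ) • (e₁ : X) + (h : X) := by rw [hz]; simp
  have zle : ‖z‖ ≤ 2 * ‖y1‖ := by
    have := hE (z : X) z.2 (β • m₂ + k) (K₁.add_mem (K₁.smul_mem _ hm₂) (hK hk))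
    rw [hzX, add_assoc, ← hy1] at this
    rw [Submodule.coe_norm, hzX]; exact this
  obtain ⟨a', ha'⟩ : ∃ a', a' = ψ₂ z := ⟨_, rfl⟩
  have hψz : ψ₁ z = (r1 : ℂ) := by rw [hz, map_add, map_smul, h₁, hh1]; simp
  have ny1 : 0 ≤ ‖y1‖ := norm_nonneg _
  have da : ‖a' - (r1 : ℂ)‖ ≤ 2 * (t * ‖y1‖) := by
    rw [ha', ← hψz, norm_sub_rev]
    calc _ ≤ t * ‖z‖ := hψ z
      _ ≤ t * (2 * ‖y1‖) := by gcongr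
      _ = _ := by ring
  obtain ⟨h', hh'⟩ : ∃ h' : E, h' = z - a' • e₂ := ⟨_, rfl⟩
  have hh2 : ψ₂ h' = 0 := by rw [hh', map_sub, map_smul, h₂, ← ha']; simp
  have hh'X : (h' : X) = (z : X) - a' • (e₂ : X) := by rw [hh']; simp
  have mem2 : (h' : X) + k ∈ (LinearMap.ker ψ₂).map E.subtype ⊔ K₂ := by
    apply Submodule.add_mem_sup
    · exact ⟨h', hh2, rfl⟩
    · exact hk
  have I2 := N2 a' β _ mem2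
  obtain ⟨r2', hr2'⟩ : ∃ r2', r2' = Real.sqrt (‖a'‖ ^ 2 + ‖β‖ ^ 2) := ⟨_, rfl⟩
  obtain ⟨W, hW⟩ : ∃ W, W = (r2' : ℂ) • (e₂ : X) + ((h' : X) + k) := ⟨_, rfl⟩
  have ey1 : a' • (e₂ : X) + β • m₂ + ((h' : X) + k) = y1 := by
    rw [hy1, hh'X, hzX]; module
  rw [ey1, ← hr2', ← hW] at I2
  obtain ⟨I2a, I2b⟩ := I2
  have r2'nn : 0 ≤ r2' := by rw [hr2']; exact Real.sqrt_nonneg _
  -- step (iii)
  have d2 : |r2' - r2| ≤ 2 * (t * ‖y1‖) := by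
    have h1 := nuc_sqrt_diff ‖a'‖ r1 ‖β‖
    rw [← hr2', ← hr2] at h1
    refine h1.trans (le_trans ?_ da)
    have := abs_norm_sub_norm_le a' (r1 : ℂ)
    rwa [Complex.norm_real r1, Real.norm_eq_abs, abs_of_nonneg r1nn] at this
  have hWle : r2' ≤ 12 * ‖y1‖ := by
    have e1 : ψ₂ ((r2' : ℂ) • e₂ + h') = (r2' : ℂ) := by
      rw [map_add, map_smul, h₂, hh2]; simp
    have e2 : r2' ≤ 3 * ‖(r2' : ℂ) • e₂ + h'‖ := by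
      have := hψ₂ ((r2' : ℂ) • e₂ + h')
      rwa [e1, Complex.norm_real, Real.norm_eq_abs, abs_of_nonneg r2'nn] at this
    have e3 := hE (((r2' : ℂ) • e₂ + h' : E) : X) ((r2' : ℂ) • e₂ + h' : E).2 k (hK hk)
    have e4 : (((r2' : ℂ) • e₂ + h' : E) : X) + k = W := by
      rw [hW]; push_cast; rw [add_assoc]
    rw [e4, ← Submodule.coe_norm] at e3
    have e5 : t * ‖y1‖ ≤ 1 / 10000 * ‖y1‖ := by gcongr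
    linarith
  have dr : 0 ≤ r2 - r1 := by
    rw [hr2, sub_nonneg]
    calc r1 = Real.sqrt (r1 ^ 2) := (Real.sqrt_sq r1nn).symm
      _ ≤ _ := Real.sqrt_le_sqrt (by linarith [sq_nonneg ‖β‖])
  have dr2 : r2 - r1 ≤ r2' := by
    have e1 : r2 ≤ r1 + ‖β‖ := by
      rw [hr2]
      apply Real.sqrt_le_iff.2
      constructor
      · positivity
      · have := mul_nonneg r1nn (norm_nonneg β)
        linarith [add_sq r1 ‖β‖]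
    have e2 : ‖β‖ ≤ r2' := by
      rw [hr2']
      calc ‖β‖ = Real.sqrt (‖β‖ ^ 2) := (Real.sqrt_sq (norm_nonneg _)).symm
        _ ≤ _ := Real.sqrt_le_sqrt (by linarith [sq_nonneg ‖a'‖])
    linarith
  have eWZ : W - Z = ((r2' - r2 : ℝ) : ℂ) • (e₂ : X) - (a' - (r1 : ℂ)) • (e₂ : X)
      + ((r2 - r1 : ℝ) : ℂ) • ((e₂ : X) - e₁) := by
    rw [hW, hZ', hh'X, hzX]; push_cast; module
  have ne2 : ‖(e₂ : X)‖ = 1 := by rw [← Submodule.coe_norm]; exact he₂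
  have ne12 : ‖(e₂ : X) - e₁‖ ≤ t := by
    rw [norm_sub_rev]
    have : ‖((e₁ - e₂ : E) : X)‖ ≤ t := by rw [← Submodule.coe_norm]; exact he
    simpa using this
  have dWZ : ‖W - Z‖ ≤ 16 * (t * ‖y1‖) := by
    rw [eWZ]
    refine (norm_add_le _ _).trans ?_
    have q1 : ‖((r2' - r2 : ℝ) : ℂ) • (e₂ : X) - (a' - (r1 : ℂ)) • (e₂ : X)‖
        ≤ 2 * (t * ‖y1‖) + 2 * (t * ‖y1‖) := by
      refine (norm_sub_le _ _).trans ?_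
      rw [norm_smul, norm_smul, ne2, mul_one, mul_one, Complex.norm_real, Real.norm_eq_abs]
      linarith
    have q2 : ‖((r2 - r1 : ℝ) : ℂ) • ((e₂ : X) - e₁)‖ ≤ 12 * (t * ‖y1‖) := by
      rw [norm_smul, Complex.norm_real, Real.norm_eq_abs, abs_of_nonneg dr]
      calc (r2 - r1) * ‖(e₂ : X) - e₁‖ ≤ (12 * ‖y1‖) * t := by
            apply mul_le_mul (by linarith) ne12 (norm_nonneg _) (by positivity)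
        _ = _ := by ring
    linarith
  have tri1 : ‖Z‖ ≤ ‖W‖ + ‖W - Z‖ := by
    calc ‖Z‖ = ‖W - (W - Z)‖ := by rw [sub_sub_cancel]
      _ ≤ _ := norm_sub_le _ _
  have tri2 : ‖W‖ ≤ ‖Z‖ + ‖W - Z‖ := by
    calc ‖W‖ = ‖Z + (W - Z)‖ := by rw [add_sub_cancel]
      _ ≤ _ := norm_add_le _ _
  have nZ : 0 ≤ ‖Z‖ := norm_nonneg _
  have ny : 0 ≤ ‖y‖ := norm_nonneg _
  have s1 : t * ‖y1‖ ≤ 1 / 10000 * ‖y1‖ := by gcongr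
  have s2 : t * (t * ‖y1‖) ≤ 1 / 10000 * (t * ‖y1‖) := by gcongr
  have s3 : 0 ≤ t * ‖y1‖ := by positivity
  have s4 : 0 ≤ t * ‖y‖ := by positivity
  have s5 : 0 ≤ t * ‖Z‖ := by positivity
  constructor
  · -- ‖y‖ ≤ (1+t) ‖y1‖, ‖y1‖ (1 - 17 t) ≤ (1+t) ‖Z‖
    have k1 : (1 - 17 * t) * ‖y1‖ ≤ (1 + t) * ‖Z‖ := by
      have : (1 + t) * ‖W‖ ≤ (1 + t) * (‖Z‖ + 16 * (t * ‖y1‖)) := by gcongr; linarith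
      linarith
    have k2 : (1 + t) * (1 + t) ≤ (1 + 30 * t) * (1 - 17 * t) := by
      have : t * t ≤ 1 / 10000 * t := by gcongr
      linarith
    have k3 : 0 < 1 - 17 * t := by linarith
    have k4 : (1 - 17 * t) * ‖y‖ ≤ (1 - 17 * t) * ((1 + 30 * t) * ‖Z‖) := by
      calc (1 - 17 * t) * ‖y‖ ≤ (1 - 17 * t) * ((1 + t) * ‖y1‖) := by gcongr
        _ = (1 + t) * ((1 - 17 * t) * ‖y1‖) := by ring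
        _ ≤ (1 + t) * ((1 + t) * ‖Z‖) := by gcongr
        _ = ((1 + t) * (1 + t)) * ‖Z‖ := by ring
        _ ≤ ((1 + 30 * t) * (1 - 17 * t)) * ‖Z‖ := by gcongr
        _ = _ := by ring
    exact le_of_mul_le_mul_left k4 k3
  · have k1 : ‖Z‖ ≤ (1 + 17 * t) * ‖y1‖ := by linarith
    have k2 : (1 + 17 * t) * (1 + t) ≤ 1 + 30 * t := by
      have : t * t ≤ 1 / 10000 * t := by gcongr
      linarith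
    calc ‖Z‖ ≤ (1 + 17 * t) * ‖y1‖ := k1
      _ ≤ (1 + 17 * t) * ((1 + t) * ‖y‖) := by gcongr
      _ = ((1 + 17 * t) * (1 + t)) * ‖y‖ := by ring
      _ ≤ (1 + 30 * t) * ‖y‖ := by gcongr

/-- Combining two rotation partners. -/
theorem nu_combine (δ : ℝ) (hδ : 0 < δ) :
    ∃ δ₁ > (0 : ℝ), ∃ ρ > (0 : ℝ), ∀ (X : Type u) [NormedAddCommGroup X] [NormedSpace ℂ X]
      (E K₁ K₂ : Submodule ℂ X) (e₁ e₂ : E) (m₁ m₂ : X) (ψ₁ ψ₂ : E →ₗ[ℂ] ℂ),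
      ‖e₁‖ = 1 → ‖e₂‖ = 1 → ψ₁ e₁ = 1 → ψ₂ e₂ = 1 →
      (∀ x, ‖ψ₁ x‖ ≤ 3 * ‖x‖) → (∀ x, ‖ψ₂ x‖ ≤ 3 * ‖x‖) →
      ‖e₁ - e₂‖ ≤ ρ → (∀ x, ‖ψ₁ x - ψ₂ x‖ ≤ ρ * ‖x‖) →
      K₂ ≤ K₁ → m₂ ∈ K₁ → (∀ x ∈ E, ∀ k ∈ K₁, ‖x‖ ≤ 2 * ‖x + k‖) →
      NU δ₁ (e₁ : X) m₁ ((LinearMap.ker ψ₁).map E.subtype ⊔ K₁) →
      NU δ₁ (e₂ : X) m₂ ((LinearMap.ker ψ₂).map E.subtype ⊔ K₂) →
      m₁ ≠ 0 ∧ NU δ m₁ m₂ (E ⊔ K₂) := by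
  obtain ⟨t, ht0, ht1, htδ⟩ : ∃ t : ℝ, 0 < t ∧ t ≤ 1 / 10000 ∧ t ≤ δ / 100 :=
    ⟨min (1 / 10000) (δ / 100), by positivity, min_le_left _ _, min_le_right _ _⟩
  refine ⟨t, ht0, t, ht0, ?_⟩
  intro X _ _ E K₁ K₂ e₁ e₂ m₁ m₂ ψ₁ ψ₂ he₁ he₂ h₁ h₂ hψ₁ hψ₂ he hψ hK hm₂ hE N1 N2
  constructor
  · rintro rfl
    have h0 := (N1 0 1 0 (Submodule.zero_mem _)).2
    simp only [zero_smul, smul_zero, add_zero, norm_zero, norm_one] at h0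
    have hs1 : (Real.sqrt ((0 : ℝ) ^ 2 + 1 ^ 2)) = 1 := by norm_num
    rw [hs1] at h0
    simp only [Complex.ofReal_one, one_smul, mul_zero] at h0
    rw [← Submodule.coe_norm, he₁] at h0
    linarith
  · intro α β w hw
    obtain ⟨x, hx, k, hk, rfl⟩ := Submodule.mem_sup.1 hw
    obtain ⟨r, hr⟩ : ∃ r, r = Real.sqrt (‖α‖ ^ 2 + ‖β‖ ^ 2) := ⟨_, rfl⟩
    have rnn : 0 ≤ r := by rw [hr]; exact Real.sqrt_nonneg _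
    have rsq : r ^ 2 = ‖α‖ ^ 2 + ‖β‖ ^ 2 := by
      rw [hr]; exact Real.sq_sqrt (by positivity)
    obtain ⟨Z, hZ⟩ : ∃ Z, Z = ((Real.sqrt (‖ψ₁ ⟨x, hx⟩‖ ^ 2 + ‖α‖ ^ 2 + ‖β‖ ^ 2) : ℝ) : ℂ) • (e₁ : X)
      + ((x : X) - ψ₁ ⟨x, hx⟩ • (e₁ : X)) + k := ⟨_, rfl⟩
    have C1 := nuc_core ht0 ht1 he₂ h₁ h₂ hψ₂ he hψ hK hm₂ hE N1 N2 α β ⟨x, hx⟩ k hk Z hZ
    have hZ2 : Z = ((Real.sqrt (‖ψ₁ ⟨x, hx⟩‖ ^ 2 + ‖(r : ℂ)‖ ^ 2 + ‖(0 : ℂ)‖ ^ 2) : ℝ) : ℂ) • (e₁ : X)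
      + ((x : X) - ψ₁ ⟨x, hx⟩ • (e₁ : X)) + k := by
      rw [hZ]
      congr 5
      rw [Complex.norm_real, Real.norm_eq_abs, sq_abs, rsq, norm_zero]
      ring
    have C2 := nuc_core ht0 ht1 he₂ h₁ h₂ hψ₂ he hψ hK hm₂ hE N1 N2 r 0 ⟨x, hx⟩ k hk Z hZ2
    simp only [zero_smul, add_zero] at C2
    rw [← hr]
    obtain ⟨y, hy⟩ : ∃ y, y = α • m₁ + β • m₂ + (x + k) := ⟨_, rfl⟩
    obtain ⟨y', hy'⟩ : ∃ y', y' = (r : ℂ) • m₁ + (x + k) := ⟨_, rfl⟩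
    simp only [] at C1 C2
    rw [← hy] at C1 ⊢
    rw [← hy'] at C2 ⊢
    have k2 : (1 + 30 * t) * (1 + 30 * t) ≤ 1 + δ := by
      have : t * t ≤ 1 / 10000 * t := by gcongr
      linarith
    constructor
    · calc ‖y‖ ≤ (1 + 30 * t) * ‖Z‖ := C1.1
        _ ≤ (1 + 30 * t) * ((1 + 30 * t) * ‖y'‖) := by gcongr; exact C2.2
        _ = ((1 + 30 * t) * (1 + 30 * t)) * ‖y'‖ := by ring
        _ ≤ (1 + δ) * ‖y'‖ := by gcongr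
    · calc ‖y'‖ ≤ (1 + 30 * t) * ‖Z‖ := C2.1
        _ ≤ (1 + 30 * t) * ((1 + 30 * t) * ‖y‖) := by gcongr; exact C1.2
        _ = ((1 + 30 * t) * (1 + 30 * t)) * ‖y‖ := by ring
        _ ≤ (1 + δ) * ‖y‖ := by gcongr

end Pool.Agent.TH319
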