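import Pool.Agent.TH319.CDefs

/-!
Perturbation of almost unitarily invariant pairs (job H319-21, for MP_df72c7_an).
-/

namespace Pool.Agent.TH319
open Module Filter Topology
universe u

set_option maxHeartbeats 4000000 in
/-- Perturbation of almost unitarily invariant pairs. -/
theorem nu_perturb (δ : ℝ) (hδ : 0 < δ) :
    ∃ κ > (0 : ℝ), ∀ (Y : Type u) [NormedAddCommGroup Y] [NormedSpace ℂ Y] (u v u' v' : Y)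
      (φu φv : Y →ₗ[ℂ] ℂ) (S' : Submodule ℂ Y),
      u ≠ 0 → φu u = 1 → φu v = 0 → φv u = 0 → φv v = 1 →
      NU κ u v (LinearMap.ker φu ⊓ LinearMap.ker φv) →
      ‖u - u'‖ ≤ κ * ‖u'‖ → ‖v - v'‖ ≤ κ * ‖v'‖ →
      (∀ α β : ℂ, ∀ k ∈ S', ‖φu k‖ * ‖u'‖
        ≤ 4 * κ * (‖α • u' + β • v' + k‖ + ‖α‖ * ‖u'‖ + ‖β‖ * ‖v'‖)) →
      (∀ α β : ℂ, ∀ k ∈ S', ‖φv k‖ * ‖v'‖
        ≤ 4 * κ * (‖α • u' + β • v' + k‖ + ‖α‖ * ‖u'‖ + ‖β‖ * ‖v'‖)) →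
      NU δ u' v' S' := by
  obtain ⟨κ, hκ0, hκ1, hκδ⟩ : ∃ κ : ℝ, 0 < κ ∧ κ ≤ 1 / 1000 ∧ κ ≤ δ / 1000 :=
    ⟨min (1 / 1000) (δ / 1000), by positivity, min_le_left _ _, min_le_right _ _⟩
  refine ⟨κ, hκ0, ?_⟩
  intro Y _ _ u v u' v' φu φv S' hu huu huv hvu hvv hNU hu' hv' hφu hφv α β k hk
  -- sizes
  have h0 := hNU 0 1 0 (Submodule.zero_mem _)
  simp only [zero_smul, one_smul, zero_add, add_zero, norm_zero, norm_one] at h0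
  have hs1 : (Real.sqrt ((0 : ℝ) ^ 2 + 1 ^ 2)) = 1 := by norm_num
  rw [hs1] at h0
  simp only [Complex.ofReal_one, one_smul] at h0
  obtain ⟨hvu1, huv1⟩ := h0
  have a1 : ‖u‖ ≤ (1 + κ) * ‖u'‖ := by
    calc ‖u‖ = ‖(u - u') + u'‖ := by rw [sub_add_cancel]
      _ ≤ ‖u - u'‖ + ‖u'‖ := norm_add_le _ _
      _ ≤ (1 + κ) * ‖u'‖ := by linarith
  have a2 : ‖v‖ ≤ (1 + κ) * ‖v'‖ := by
    calc ‖v‖ = ‖(v - v') + v'‖ := by rw [sub_add_cancel]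
      _ ≤ ‖v - v'‖ + ‖v'‖ := norm_add_le _ _
      _ ≤ (1 + κ) * ‖v'‖ := by linarith
  have a3 : ‖u'‖ * (1 - κ) ≤ ‖u‖ := by
    have : ‖u'‖ ≤ ‖u - u'‖ + ‖u‖ := by
      calc ‖u'‖ = ‖u - (u - u')‖ := by rw [sub_sub_cancel]
        _ ≤ ‖u‖ + ‖u - u'‖ := norm_sub_le _ _
        _ = _ := by ring
    linarith
  have a4 : ‖v'‖ * (1 - κ) ≤ ‖v‖ := by
    have : ‖v'‖ ≤ ‖v - v'‖ + ‖v‖ := by
      calc ‖v'‖ = ‖v - (v - v')‖ := by rw [sub_sub_cancel]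
        _ ≤ ‖v‖ + ‖v - v'‖ := norm_sub_le _ _
        _ = _ := by ring
    linarith
  have nu' : 0 ≤ ‖u'‖ := norm_nonneg _
  have nv' : 0 ≤ ‖v'‖ := norm_nonneg _
  have nu0 : 0 ≤ ‖u‖ := norm_nonneg _
  have nv0 : 0 ≤ ‖v‖ := norm_nonneg _
  have k1 : κ * ‖u'‖ ≤ 1 / 1000 * ‖u'‖ := by gcongr
  have k2 : κ * ‖v'‖ ≤ 1 / 1000 * ‖v'‖ := by gcongr
  have k3 : κ * ‖v‖ ≤ 1 / 1000 * ‖v‖ := by gcongr
  have b1' : ‖u'‖ ≤ 1.01 * ‖u‖ := by linarith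
  have b2' : ‖v'‖ ≤ 1.01 * ‖v‖ := by linarith
  have b3 : ‖u'‖ ≤ 2 * ‖v'‖ := by linarith
  -- the correction
  obtain ⟨c, hc⟩ : ∃ c, c = φu k := ⟨_, rfl⟩
  obtain ⟨c', hc'⟩ : ∃ c', c' = φv k := ⟨_, rfl⟩
  obtain ⟨k0, hk0⟩ : ∃ k0, k0 = k - c • u - c' • v := ⟨_, rfl⟩
  have hk0m : k0 ∈ LinearMap.ker φu ⊓ LinearMap.ker φv := by
    rw [Submodule.mem_inf, LinearMap.mem_ker, LinearMap.mem_ker]
    constructor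
    · rw [hk0, map_sub, map_sub, map_smul, map_smul, huu, huv, ← hc]; simp
    · rw [hk0, map_sub, map_sub, map_smul, map_smul, hvu, hvv, ← hc']; simp
  obtain ⟨y, hy⟩ : ∃ y, y = α • u + β • v + k0 := ⟨_, rfl⟩
  obtain ⟨y', hy'⟩ : ∃ y', y' = α • u' + β • v' + k := ⟨_, rfl⟩
  obtain ⟨r, hr⟩ : ∃ r, r = Real.sqrt (‖α‖ ^ 2 + ‖β‖ ^ 2) := ⟨_, rfl⟩
  rw [← hr, ← hy']
  have hr0 : 0 ≤ r := by rw [hr]; exact Real.sqrt_nonneg _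
  have hrle : r ≤ ‖α‖ + ‖β‖ := by
    rw [hr]
    apply Real.sqrt_le_iff.2
    constructor
    · positivity
    · have := mul_nonneg (norm_nonneg α) (norm_nonneg β)
      linarith [add_sq ‖α‖ ‖β‖]
  obtain ⟨y2, hy2⟩ : ∃ y2, y2 = (r : ℂ) • u + k0 := ⟨_, rfl⟩
  obtain ⟨y'', hy''⟩ : ∃ y'', y'' = (r : ℂ) • u' + k := ⟨_, rfl⟩
  rw [← hy'']
  have N1 := hNU α β k0 hk0m
  rw [← hy, ← hr, ← hy2] at N1
  obtain ⟨N1a, N1b⟩ := N1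
  have N2 := (hNU (-α) β k0 hk0m).1
  rw [norm_neg, ← hr, ← hy2] at N2
  have N3 := (hNU α (-β) k0 hk0m).1
  rw [norm_neg, ← hr, ← hy2] at N3
  obtain ⟨A, hA⟩ : ∃ A, A = ‖α‖ * ‖u'‖ + ‖β‖ * ‖v'‖ := ⟨_, rfl⟩
  have hA0 : 0 ≤ A := by rw [hA]; positivity
  have ncu : ‖c‖ * ‖u'‖ ≤ 4 * κ * (‖y'‖ + A) := by
    have := hφu α β k hk
    rw [← hc, ← hy', add_assoc, ← hA] at this
    exact this
  have ncv : ‖c'‖ * ‖v'‖ ≤ 4 * κ * (‖y'‖ + A) := by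
    have := hφv α β k hk
    rw [← hc', ← hy', add_assoc, ← hA] at this
    exact this
  have ny' : 0 ≤ ‖y'‖ := norm_nonneg _
  have ny : 0 ≤ ‖y‖ := norm_nonneg _
  have ny2 : 0 ≤ ‖y2‖ := norm_nonneg _
  have ny'' : 0 ≤ ‖y''‖ := norm_nonneg _
  have hcorr : ‖c • u + c' • v‖ ≤ 8.01 * κ * (‖y'‖ + A) := by
    calc ‖c • u + c' • v‖ ≤ ‖c‖ * ‖u‖ + ‖c'‖ * ‖v‖ := by
          refine (norm_add_le _ _).trans ?_
          rw [norm_smul, norm_smul]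
      _ ≤ ‖c‖ * ((1 + κ) * ‖u'‖) + ‖c'‖ * ((1 + κ) * ‖v'‖) := by gcongr
      _ = (1 + κ) * (‖c‖ * ‖u'‖ + ‖c'‖ * ‖v'‖) := by ring
      _ ≤ (1 + κ) * (8 * κ * (‖y'‖ + A)) := by
          apply mul_le_mul_of_nonneg_left _ (by positivity); linarith
      _ ≤ (1 + 1 / 1000) * (8 * κ * (‖y'‖ + A)) := by gcongr
      _ ≤ 8.01 * κ * (‖y'‖ + A) := by linarith [mul_nonneg hκ0.le (add_nonneg ny' hA0)]
  -- difference y' - y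
  have hd1 : ‖y' - y‖ ≤ 10 * κ * (‖y'‖ + A) := by
    have e : y' - y = (α • (u' - u) + β • (v' - v)) + (c • u + c' • v) := by
      rw [hy', hy, hk0]; module
    rw [e]
    refine (norm_add_le _ _).trans ?_
    have : ‖α • (u' - u) + β • (v' - v)‖ ≤ κ * A := by
      refine (norm_add_le _ _).trans ?_
      rw [norm_smul, norm_smul, norm_sub_rev u' u, norm_sub_rev v' v]
      calc ‖α‖ * ‖u - u'‖ + ‖β‖ * ‖v - v'‖ ≤ ‖α‖ * (κ * ‖u'‖) + ‖β‖ * (κ * ‖v'‖) := by gcongr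
        _ = κ * A := by rw [hA]; ring
    linarith [mul_nonneg hκ0.le hA0, mul_nonneg hκ0.le ny']
  have tri : ‖y‖ ≤ ‖y'‖ + ‖y' - y‖ := by
    calc ‖y‖ = ‖y' - (y' - y)‖ := by rw [sub_sub_cancel]
      _ ≤ _ := norm_sub_le _ _
  have tri2 : ‖y'‖ ≤ ‖y‖ + ‖y' - y‖ := by
    calc ‖y'‖ = ‖y + (y' - y)‖ := by rw [add_sub_cancel]
      _ ≤ _ := norm_add_le _ _
  -- coefficient bounds
  have hsq : (1 + κ) * ((1 + κ) * ‖y‖) ≤ 1.01 * ‖y‖ := by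
    have e1 : κ * ‖y‖ ≤ 1 / 1000 * ‖y‖ := by gcongr
    have e2 : κ * (κ * ‖y‖) ≤ 1 / 1000 * (κ * ‖y‖) := by gcongr
    linarith
  have cα : 2 * (‖α‖ * ‖u‖) ≤ 2.01 * ‖y‖ := by
    have e : (2 : ℂ) • (α • u) = y - ((-α) • u + β • v + k0) := by rw [hy]; module
    have : ‖(2 : ℂ) • (α • u)‖ ≤ ‖y‖ + ‖(-α) • u + β • v + k0‖ := by
      rw [e]; exact norm_sub_le _ _
    rw [norm_smul, norm_smul] at this
    have h2 : ‖(2 : ℂ)‖ = 2 := by simp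
    rw [h2] at this
    have : (1 + κ) * ‖y2‖ ≤ (1 + κ) * ((1 + κ) * ‖y‖) := by gcongr
    linarith
  have cβ : 2 * (‖β‖ * ‖v‖) ≤ 2.01 * ‖y‖ := by
    have e : (2 : ℂ) • (β • v) = y - (α • u + (-β) • v + k0) := by rw [hy]; module
    have : ‖(2 : ℂ) • (β • v)‖ ≤ ‖y‖ + ‖α • u + (-β) • v + k0‖ := by
      rw [e]; exact norm_sub_le _ _
    rw [norm_smul, norm_smul] at this
    have h2 : ‖(2 : ℂ)‖ = 2 := by simp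
    rw [h2] at this
    have : (1 + κ) * ‖y2‖ ≤ (1 + κ) * ((1 + κ) * ‖y‖) := by gcongr
    linarith
  have hAy : A ≤ 3 * ‖y‖ := by
    have e1 : ‖α‖ * ‖u'‖ ≤ ‖α‖ * (1.01 * ‖u‖) := by gcongr
    have e2 : ‖β‖ * ‖v'‖ ≤ ‖β‖ * (1.01 * ‖v‖) := by gcongr
    rw [hA]; linarith
  have hAN : A ≤ 4 * ‖y'‖ := by
    have e1 : κ * A ≤ 1 / 1000 * A := by gcongr
    have e2 : κ * ‖y'‖ ≤ 1 / 1000 * ‖y'‖ := by gcongr
    linarith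
  have hd1' : ‖y' - y‖ ≤ 50 * κ * ‖y'‖ := by
    refine hd1.trans ?_
    have : 10 * κ * (‖y'‖ + A) ≤ 10 * κ * (‖y'‖ + 4 * ‖y'‖) := by gcongr
    linarith
  have hcorr' : ‖c • u + c' • v‖ ≤ 40.05 * κ * ‖y'‖ := by
    refine hcorr.trans ?_
    have : 8.01 * κ * (‖y'‖ + A) ≤ 8.01 * κ * (‖y'‖ + 4 * ‖y'‖) := by gcongr
    linarith
  have hd2 : ‖y'' - y2‖ ≤ 50 * κ * ‖y'‖ := by
    have e : y'' - y2 = (r : ℂ) • (u' - u) + (c • u + c' • v) := by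
      rw [hy'', hy2, hk0]; module
    rw [e]
    refine (norm_add_le _ _).trans ?_
    have h1 : ‖(r : ℂ) • (u' - u)‖ ≤ κ * (2 * A) := by
      rw [norm_smul, norm_sub_rev u' u]
      have hrn : ‖(r : ℂ)‖ = r := by
        rw [Complex.norm_real, Real.norm_eq_abs, abs_of_nonneg hr0]
      rw [hrn]
      calc r * ‖u - u'‖ ≤ (‖α‖ + ‖β‖) * (κ * ‖u'‖) := by gcongr
        _ = κ * (‖α‖ * ‖u'‖ + ‖β‖ * ‖u'‖) := by ring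
        _ ≤ κ * (‖α‖ * ‖u'‖ + ‖β‖ * (2 * ‖v'‖)) := by gcongr
        _ ≤ κ * (2 * A) := by
          gcongr
          rw [hA]
          linarith [mul_nonneg (norm_nonneg α) nu']
    have h2 : κ * (2 * A) ≤ κ * (2 * (4 * ‖y'‖)) := by gcongr
    linarith [mul_nonneg hκ0.le ny']
  have tri3 : ‖y''‖ ≤ ‖y2‖ + ‖y'' - y2‖ := by
    calc ‖y''‖ = ‖y2 + (y'' - y2)‖ := by rw [add_sub_cancel]
      _ ≤ _ := norm_add_le _ _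
  have tri4 : ‖y2‖ ≤ ‖y''‖ + ‖y'' - y2‖ := by
    calc ‖y2‖ = ‖y'' - (y'' - y2)‖ := by rw [sub_sub_cancel]
      _ ≤ _ := norm_sub_le _ _
  have hκN : 0 ≤ κ * ‖y'‖ := mul_nonneg hκ0.le ny'
  have hκδN : κ * ‖y'‖ ≤ δ / 1000 * ‖y'‖ := by gcongr
  constructor
  · -- ‖y'‖ ≤ (1+δ) ‖y''‖
    have h1 : ‖y'‖ ≤ (1 + κ) * (‖y''‖ + 50 * κ * ‖y'‖) + 50 * κ * ‖y'‖ := by
      have : (1 + κ) * ‖y2‖ ≤ (1 + κ) * (‖y''‖ + 50 * κ * ‖y'‖) := by gcongr; linarith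
      linarith
    have h2 : κ * (κ * ‖y'‖) ≤ 1 / 1000 * (κ * ‖y'‖) := by gcongr
    have h3 : (1 - 101 * κ) * ‖y'‖ ≤ (1 + κ) * ‖y''‖ := by linarith
    have h4 : (1 + κ) ≤ (1 + δ) * (1 - 101 * κ) := by
      have : κ * δ ≤ 1 / 1000 * δ := by gcongr
      linarith
    have h5 : 0 < 1 - 101 * κ := by linarith
    have h6 : (1 - 101 * κ) * ‖y'‖ ≤ (1 - 101 * κ) * ((1 + δ) * ‖y''‖) := by
      calc _ ≤ (1 + κ) * ‖y''‖ := h3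
        _ ≤ ((1 + δ) * (1 - 101 * κ)) * ‖y''‖ := by gcongr
        _ = _ := by ring
    exact le_of_mul_le_mul_left h6 h5
  · -- ‖y''‖ ≤ (1+δ) ‖y'‖
    have h1 : ‖y''‖ ≤ (1 + κ) * (‖y'‖ + 50 * κ * ‖y'‖) + 50 * κ * ‖y'‖ := by
      have : (1 + κ) * ‖y‖ ≤ (1 + κ) * (‖y'‖ + 50 * κ * ‖y'‖) := by gcongr; linarith
      linarith
    have h2 : κ * (κ * ‖y'‖) ≤ 1 / 1000 * (κ * ‖y'‖) := by gcongr
    linarith [mul_nonneg hδ.le ny']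

end Pool.Agent.TH319
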