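import Pool.Agent.TH28.FL.Defs

/-!
Transcendence degree and derivations (job 1108 = FL-TRD, for MP_80e906_al).
-/

set_option autoImplicit false

open MvPolynomial

namespace Pool.Agent.TH113.TRD

universe u

section ext

variable {L K : Type u} [Field L] [Field K] [Algebra L K]

/-- the algebra structure given by a family of elements -/
theorem alg_of_basis {ι : Type u} (t : ι → K) (ht : IsTranscendenceBasis L t) :
    letI : Algebra (MvPolynomial ι L) K :=
      ((aeval t : MvPolynomial ι L →ₐ[L] K) : MvPolynomial ι L →+* K).toAlgebra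
    Algebra.IsAlgebraic (MvPolynomial ι L) K := by
  let _ : Algebra (MvPolynomial ι L) K :=
    ((aeval t : MvPolynomial ι L →ₐ[L] K) : MvPolynomial ι L →+* K).toAlgebra
  have h1 := ht.isAlgebraic
  refine Algebra.IsAlgebraic.of_ringHom_of_comp_eq
    (f := (ht.1.aevalEquiv : MvPolynomial ι L ≃ₐ[L] Algebra.adjoin L (Set.range t)))
    (g := RingHom.id K) ?_ Function.injective_id ?_
  · exact ht.1.aevalEquiv.surjective
  · ext x
    · simp [RingHom.algebraMap_toAlgebra]
    · simp [RingHom.algebraMap_toAlgebra]

variable [CharZero L]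

/-- derivations can be prescribed on a transcendence basis -/
theorem exists_der {ι : Type u} (t : ι → K) (ht : IsTranscendenceBasis L t) (c : ι → K) :
    ∃ D : Derivation L K K, ∀ i, D (t i) = c i := by
  have hinj : Function.Injective (aeval t : MvPolynomial ι L →ₐ[L] K) :=
    ht.1
  have halg := alg_of_basis t ht
  let _ : Algebra (MvPolynomial ι L) K :=
    ((aeval t : MvPolynomial ι L →ₐ[L] K) : MvPolynomial ι L →+* K).toAlgebra
  have hst : IsScalarTower L (MvPolynomial ι L) K := IsScalarTower.of_algebraMap_eq' (by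
    ext c
    simp [RingHom.algebraMap_toAlgebra])
  have hfs : FaithfulSMul (MvPolynomial ι L) K := (faithfulSMul_iff_algebraMap_injective _ _).2 hinj
  let _ : Algebra (FractionRing (MvPolynomial ι L)) K := FractionRing.liftAlgebra (MvPolynomial ι L) K
  have hst2 : IsScalarTower (MvPolynomial ι L) (FractionRing (MvPolynomial ι L)) K := inferInstance
  have halg2 : Algebra.IsAlgebraic (FractionRing (MvPolynomial ι L)) K :=
    (IsFractionRing.comap_isAlgebraic_iff (A := MvPolynomial ι L)
      (K := FractionRing (MvPolynomial ι L)) (C := K)).1 halg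
  have hchar : CharZero (FractionRing (MvPolynomial ι L)) := inferInstance
  have hsep : Algebra.IsSeparable (FractionRing (MvPolynomial ι L)) K := inferInstance
  have h1 : Algebra.FormallyEtale (FractionRing (MvPolynomial ι L)) K :=
    Algebra.FormallyEtale.of_isSeparable _ _
  have h2 : Algebra.FormallyEtale (MvPolynomial ι L) (FractionRing (MvPolynomial ι L)) :=
    Algebra.FormallyEtale.of_isLocalization (nonZeroDivisors (MvPolynomial ι L))
  have h3 : Algebra.FormallyEtale (MvPolynomial ι L) K :=
    Algebra.FormallyEtale.comp (MvPolynomial ι L) (FractionRing (MvPolynomial ι L)) K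
  let e := KaehlerDifferential.tensorKaehlerEquivOfFormallyEtale L (MvPolynomial ι L) K
  let d : Derivation L (MvPolynomial ι L) K := MvPolynomial.mkDerivation L c
  let l : Ω[MvPolynomial ι L⁄L] →ₗ[MvPolynomial ι L] K := d.liftKaehlerDifferential
  let Λ : Ω[K⁄L] →ₗ[K] K := (LinearMap.liftBaseChange K l).comp e.symm.toLinearMap
  let D : Derivation L K K := Λ.compDer (KaehlerDifferential.D L K)
  refine ⟨D, fun i => ?_⟩
  have h5 : t i = algebraMap (MvPolynomial ι L) K (X i) := by
    simp [RingHom.algebraMap_toAlgebra]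
  change Λ (KaehlerDifferential.D L K (t i)) = c i
  change LinearMap.liftBaseChange K l (e.symm (KaehlerDifferential.D L K (t i))) = c i
  rw [h5, KaehlerDifferential.tensorKaehlerEquivOfFormallyEtale_symm_D_algebraMap]
  simp [l, d]

end ext

/-- A derivation of the fraction field of `k[x]` which kills `x` is zero. -/
theorem der_eq_zero {k : Type u} [Field k] {N : ℕ} (P : Ideal (MvPolynomial (Fin N) k)) [P.IsPrime]
    (δ : Derivation k (FractionRing (MvPolynomial (Fin N) k ⧸ P))
      (FractionRing (MvPolynomial (Fin N) k ⧸ P)))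
    (h : ∀ i, δ (algebraMap (MvPolynomial (Fin N) k ⧸ P) _ (Ideal.Quotient.mk P (X i))) = 0)
    (x : FractionRing (MvPolynomial (Fin N) k ⧸ P)) : δ x = 0 := by
  have h1 : ∀ p : MvPolynomial (Fin N) k,
      δ (algebraMap (MvPolynomial (Fin N) k ⧸ P) _ (Ideal.Quotient.mk P p)) = 0 := by
    intro p
    induction p using MvPolynomial.induction_on with
    | C a =>
      have e : algebraMap (MvPolynomial (Fin N) k ⧸ P)
          (FractionRing (MvPolynomial (Fin N) k ⧸ P)) (Ideal.Quotient.mk P (C a)) =
          algebraMap k _ a := by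
        rw [IsScalarTower.algebraMap_apply k (MvPolynomial (Fin N) k ⧸ P)]
        rfl
      rw [e, Derivation.map_algebraMap]
    | add p q hp hq => rw [map_add, map_add, map_add, hp, hq, add_zero]
    | mul_X p i hp => rw [map_mul, map_mul, Derivation.leibniz, hp, h i]; simp
  obtain ⟨a, b, hb, rfl⟩ := IsFractionRing.div_surjective (A := MvPolynomial (Fin N) k ⧸ P) x
  obtain ⟨a, rfl⟩ := Ideal.Quotient.mk_surjective a
  obtain ⟨b, rfl⟩ := Ideal.Quotient.mk_surjective b
  rw [Derivation.leibniz_div, h1, h1]
  simp

theorem sum_app {k K ι : Type*} [Field k] [Field K] [Algebra k K] (S : Finset ι) (g : ι → K)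
    (D : ι → Derivation k K K) (x : K) : (∑ i ∈ S, g i • D i) x = ∑ i ∈ S, g i * D i x := by
  classical
  induction S using Finset.induction_on with
  | empty => simp
  | insert a S ha ih => rw [Finset.sum_insert ha, Finset.sum_insert ha, Derivation.add_apply, ih]; simp

/-- FL-TRD. -/
theorem trd : Pool.Agent.TH28.FL.S_TRD.{u} := by
  intro k _ _ N P _
  classical
  have h0 : Algebra.trdeg k (MvPolynomial (Fin N) k ⧸ P) =
      Algebra.trdeg k (FractionRing (MvPolynomial (Fin N) k ⧸ P)) := by
    have halg : Algebra.IsAlgebraic (MvPolynomial (Fin N) k ⧸ P)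
        (FractionRing (MvPolynomial (Fin N) k ⧸ P)) :=
      IsLocalization.isAlgebraic _ (nonZeroDivisors (MvPolynomial (Fin N) k ⧸ P))
    have h := trdeg_add_eq k (MvPolynomial (Fin N) k ⧸ P)
      (A := FractionRing (MvPolynomial (Fin N) k ⧸ P))
    rw [trdeg_eq_zero (R := MvPolynomial (Fin N) k ⧸ P), add_zero] at h
    exact h
  rw [h0]
  obtain ⟨s, hs⟩ := exists_isTranscendenceBasis k (FractionRing (MvPolynomial (Fin N) k ⧸ P))
  rw [← hs.cardinalMk_eq_trdeg]
  have hD : ∀ i : s, ∃ D : Derivation k (FractionRing (MvPolynomial (Fin N) k ⧸ P))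
      (FractionRing (MvPolynomial (Fin N) k ⧸ P)), ∀ j : s, D j = if i = j then 1 else 0 :=
    fun i => exists_der _ hs _
  choose D hD using hD
  let v : s → (Pool.Agent.TH28.FL.derSpace (K := FractionRing (MvPolynomial (Fin N) k ⧸ P)) k
        (fun i => algebraMap (MvPolynomial (Fin N) k ⧸ P) _ (Ideal.Quotient.mk P (X i)))) :=
    fun i => ⟨fun l => D i (algebraMap (MvPolynomial (Fin N) k ⧸ P) _ (Ideal.Quotient.mk P (X l))),
      D i, fun _ => rfl⟩
  have hv : LinearIndependent (FractionRing (MvPolynomial (Fin N) k ⧸ P)) v := by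
    rw [linearIndependent_iff']
    intro S g hg i hi
    have h1 : ∀ x, (∑ i ∈ S, g i • D i) x = 0 := by
      apply der_eq_zero
      intro l
      have h2 := congrFun (congrArg Subtype.val hg) l
      rw [sum_app]
      simpa [v] using h2
    have h3 := h1 i
    rw [sum_app] at h3
    simp only [hD] at h3
    simpa [hi] using h3
  exact hv.cardinalMk_le_finrank

end Pool.Agent.TH113.TRD
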