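import Pool.Agent.TH716.TW.Defs

set_option autoImplicit false

namespace Pool.Agent.TH113.J1426

open Pool.Agent.TH716.TW

def Ge (p : ℕ) (k : ℤ) (a : ℚ) : Prop := a = 0 ∨ k ≤ padicValRat p a

lemma Ge.add {p : ℕ} [Fact p.Prime] {k : ℤ} {a b : ℚ} (ha : Ge p k a) (hb : Ge p k b) :
    Ge p k (a + b) := by
  rcases ha with ha | ha
  · rw [ha, zero_add]; exact hb
  · rcases hb with hb | hb
    · rw [hb, add_zero]; exact Or.inr ha
    · by_cases h : a + b = 0
      · exact Or.inl h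
      · right
        exact le_trans (le_min ha hb) (padicValRat.min_le_padicValRat_add h)

lemma Ge.mono {p : ℕ} {k l : ℤ} {a : ℚ} (ha : Ge p k a) (h : l ≤ k) : Ge p l a := by
  rcases ha with ha | ha
  · exact Or.inl ha
  · exact Or.inr (h.trans ha)

lemma Ge.mul {p : ℕ} [Fact p.Prime] {k l : ℤ} {a b : ℚ} (ha : Ge p k a) (hb : Ge p l b) :
    Ge p (k + l) (a * b) := by
  rcases ha with ha | ha
  · left; rw [ha, zero_mul]
  · rcases hb with hb | hb
    · left; rw [hb, mul_zero]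
    · by_cases h : a * b = 0
      · exact Or.inl h
      · right
        rw [padicValRat.mul (left_ne_zero_of_mul h) (right_ne_zero_of_mul h)]
        exact add_le_add ha hb

lemma Ge.int {p : ℕ} (n : ℤ) : Ge p 0 (n : ℚ) := by
  right
  rw [padicValRat.of_int]
  exact Int.natCast_nonneg _

lemma sq_ne (r : ℚ) : r ^ 2 - 5 ≠ 0 := by
  intro h
  have h1 : r ^ 2 = 5 := by linarith
  have hr : r ≠ 0 := by
    rintro rfl
    norm_num at h1
  have : Fact (Nat.Prime 5) := ⟨by norm_num⟩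
  have h2 : padicValRat 5 (r ^ 2) = padicValRat 5 (5 : ℚ) := by rw [h1]
  rw [padicValRat.pow] at h2
  have h3 : padicValRat 5 (5 : ℚ) = 1 := by
    have := padicValRat.self (p := 5) (by norm_num)
    exact_mod_cast this
  rw [h3] at h2
  push_cast at h2
  omega

lemma cub_ne (r : ℚ) : r ^ 3 + r ^ 2 - 2 * r - 1 ≠ 0 := by
  intro h
  obtain ⟨a, ha⟩ : ∃ a, a = r.num := ⟨_, rfl⟩
  obtain ⟨b, hb⟩ : ∃ b : ℤ, b = (r.den : ℤ) := ⟨_, rfl⟩
  have hb0 : (b : ℚ) ≠ 0 := by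
    rw [hb]
    exact_mod_cast r.den_nz
  have hr : r = (a : ℚ) / b := by
    rw [ha, hb]
    push_cast
    exact (Rat.num_div_den r).symm
  have h1 : (a : ℚ) ^ 3 + a ^ 2 * b - 2 * a * b ^ 2 - b ^ 3 = 0 := by
    have h2 : (a : ℚ) ^ 3 + a ^ 2 * b - 2 * a * b ^ 2 - b ^ 3
        = (r ^ 3 + r ^ 2 - 2 * r - 1) * b ^ 3 := by
      rw [hr]; field_simp
    rw [h2, h, zero_mul]
  have h3 : a ^ 3 + a ^ 2 * b - 2 * a * b ^ 2 - b ^ 3 = 0 := by exact_mod_cast h1
  have hco : IsCoprime a b := by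
    rw [ha, hb]
    rw [Int.isCoprime_iff_gcd_eq_one]
    have := r.reduced
    simpa [Int.gcd, Nat.Coprime] using this
  have hpar : Even a ∧ Even b := by
    have h4 : Even (a ^ 3 + a ^ 2 * b - 2 * a * b ^ 2 - b ^ 3) := by rw [h3]; exact Even.zero
    rcases Int.even_or_odd a with h5 | h5 <;> rcases Int.even_or_odd b with h6 | h6
    · exact ⟨h5, h6⟩
    · exfalso
      obtain ⟨c, rfl⟩ := h5
      obtain ⟨d, rfl⟩ := h6
      have : ((c + c) ^ 3 + (c + c) ^ 2 * (2 * d + 1) - 2 * (c + c) * (2 * d + 1) ^ 2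
        - (2 * d + 1) ^ 3) = 2 * (4 * c ^ 3 + 2 * c ^ 2 * (2 * d + 1) - 2 * c * (2 * d + 1) ^ 2
        - 4 * d ^ 3 - 6 * d ^ 2 - 3 * d) - 1 := by ring
      omega
    · exfalso
      obtain ⟨c, rfl⟩ := h5
      obtain ⟨d, rfl⟩ := h6
      have : ((2 * c + 1) ^ 3 + (2 * c + 1) ^ 2 * (d + d) - 2 * (2 * c + 1) * (d + d) ^ 2
        - (d + d) ^ 3) = 2 * (4 * c ^ 3 + 6 * c ^ 2 + 3 * c + (2 * c + 1) ^ 2 * d
        - 4 * (2 * c + 1) * d ^ 2 - 4 * d ^ 3) + 1 := by ring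
      omega
    · exfalso
      obtain ⟨c, rfl⟩ := h5
      obtain ⟨d, rfl⟩ := h6
      have : ((2 * c + 1) ^ 3 + (2 * c + 1) ^ 2 * (2 * d + 1) - 2 * (2 * c + 1) * (2 * d + 1) ^ 2
        - (2 * d + 1) ^ 3) = 2 * (4 * c ^ 3 + 6 * c ^ 2 + 3 * c
        + (2 * c ^ 2 + 2 * c) * (2 * d + 1) + d
        - (2 * c + 1) * (2 * d + 1) ^ 2 - 4 * d ^ 3 - 6 * d ^ 2 - 3 * d) + 1 := by ring
      omega
  obtain ⟨⟨c, hc⟩, ⟨d, hd⟩⟩ := hpar
  obtain ⟨u, v, huv⟩ := hco
  rw [hc, hd] at huv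
  have : 2 * (u * c + v * d) = 1 := by linarith
  omega

lemma v2 (p : ℕ) [Fact p.Prime] (r : ℚ) (hr : r ≠ 0) (h : padicValRat p r ≤ 0) :
    padicValRat p (n2 r) ≤ 0 := by
  have h1 : Ge p (2 * padicValRat p r) (r ^ 2 - 5) := by
    have e : r ^ 2 - 5 = r ^ 2 + ((-5 : ℤ) : ℚ) := by push_cast; ring
    rw [e]
    refine Ge.add ?_ (Ge.mono (Ge.int _) (by linarith))
    right
    rw [padicValRat.pow]
    push_cast
    exact le_rfl
  rcases h1 with h1 | h1
  · exact absurd h1 (sq_ne r)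
  · unfold n2
    rw [padicValRat.div (pow_ne_zero 2 hr) (sq_ne r), padicValRat.pow]
    push_cast
    linarith

lemma v3 (p : ℕ) [Fact p.Prime] (r : ℚ) (hr : r ≠ 0) (h : padicValRat p r ≤ 0) :
    padicValRat p (n3 r) ≤ 0 := by
  have h1 : Ge p (3 * padicValRat p r) (r ^ 3 + r ^ 2 - 2 * r - 1) := by
    have e : r ^ 3 + r ^ 2 - 2 * r - 1 = r ^ 3 + r ^ 2 + ((-2 : ℤ) : ℚ) * r + ((-1 : ℤ) : ℚ) := by
      push_cast; ring
    rw [e]
    have a1 : Ge p (padicValRat p r) r := Or.inr le_rfl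
    refine Ge.add (Ge.add (Ge.add ?_ ?_) ?_) ?_
    · right
      rw [padicValRat.pow]
      push_cast
      exact le_rfl
    · right
      rw [padicValRat.pow]
      push_cast
      linarith
    · exact Ge.mono ((Ge.int _).mul a1) (by linarith)
    · exact Ge.mono (Ge.int _) (by linarith)
  rcases h1 with h1 | h1
  · exact absurd h1 (cub_ne r)
  · unfold n3
    rw [padicValRat.div (pow_ne_zero 3 hr) (cub_ne r), padicValRat.pow]
    push_cast
    linarith

/-- a pole of `x` of order `2 d` and `v(x/x') > 0` force a pole of larger order of `x'` -/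
lemma fin_step (G : GrpFacts) (hv : S_val) {M M' : ℤ} (hM : M ≠ 0) (hM' : M' ≠ 0) {s : ℕ}
    (hs : s.Prime) (hd : 0 < dd s (2 * M))
    (hpos : 0 < padicValRat s (zz (2 * M) / zz (2 * M'))) :
    dd s (2 * M) < dd s (2 * M') := by
  have : Fact s.Prime := ⟨hs⟩
  have hx : zz (2 * M) ≠ 0 := (G.pos M hM).ne'
  have hx' : zz (2 * M') ≠ 0 := (G.pos M' hM').ne'
  have h2M : 2 * M ≠ 0 := by omega
  have h2M' : 2 * M' ≠ 0 := by omega
  have hvx := ((hv s hs (2 * M) h2M).2 hd).1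
  rw [padicValRat.div hx hx', hvx] at hpos
  by_cases h0 : dd s (2 * M') = 0
  · exfalso
    rcases ((hv s hs (2 * M') h2M').1 h0).1 with h | h
    · exact hx' h
    · omega
  · have hvx' := ((hv s hs (2 * M') h2M').2 (Nat.pos_of_ne_zero h0)).1
    omega

theorem result (G : GrpFacts) (hv : S_val) (h5 : S_T5s) (h7 : S_T7s) : S_sound := by
  intro M M' hM hM' hst
  obtain ⟨ht5, ht7⟩ := hst
  have hx : zz (2 * M) ≠ 0 := (G.pos M hM).ne'
  have hx' : zz (2 * M') ≠ 0 := (G.pos M' hM').ne'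
  have h2M : 2 * M ≠ 0 := by omega
  have h2M' : 2 * M' ≠ 0 := by omega
  have hy : yy (2 * M) ≠ 0 := G.y_ne _ h2M
  obtain ⟨r, hr⟩ : ∃ r, r = zz (2 * M) / zz (2 * M') := ⟨_, rfl⟩
  have hr0 : r ≠ 0 := by rw [hr]; exact div_ne_zero hx hx'
  rw [← hr] at ht5 ht7
  constructor
  · intro s hs hodd
    have : Fact s.Prime := ⟨hs.1⟩
    have hd : 0 < dd s (2 * M) := hodd.pos
    have hvy := ((hv s hs.1 (2 * M) h2M).2 hd).2
    have hN : padicValRat s (1 / yy (2 * M)) = 3 * (dd s (2 * M) : ℤ) := by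
      rw [padicValRat.div one_ne_zero hy, padicValRat.one, hvy]
      ring
    have hNodd : Odd (padicValRat s (1 / yy (2 * M))) := by
      rw [hN]
      have : Odd ((dd s (2 * M) : ℕ) : ℤ) := by exact_mod_cast hodd
      exact Odd.mul (by decide) this
    have key := h5 _ _ (one_div_ne_zero hy) ht5 s hs hNodd
    rw [hN] at key
    refine fin_step G hv hM hM' hs.1 hd ?_
    rw [← hr]
    by_contra hcon
    push Not at hcon
    have h2 := v2 s r hr0 hcon
    rcases key with h | h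
    · exact (div_ne_zero (pow_ne_zero 2 hr0) (sq_ne r)) h
    · omega
  · intro s hs hnd
    have : Fact s.Prime := ⟨hs.1⟩
    have hd : 0 < dd s (2 * M) := by
      rcases Nat.eq_zero_or_pos (dd s (2 * M)) with h | h
      · exact absurd (h ▸ dvd_zero 3) hnd
      · exact h
    have hvx := ((hv s hs.1 (2 * M) h2M).2 hd).1
    have hN3 : ¬ (3 : ℤ) ∣ padicValRat s (zz (2 * M)) := by
      rw [hvx]
      omega
    have key := h7 _ _ hx ht7 s hs hN3
    rw [hvx] at key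
    refine fin_step G hv hM hM' hs.1 hd ?_
    rw [← hr]
    by_contra hcon
    push Not at hcon
    have h3 := v3 s r hr0 hcon
    rcases key with h | h
    · exact (div_ne_zero (pow_ne_zero 3 hr0) (cub_ne r)) h
    · omega

end Pool.Agent.TH113.J1426

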