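import Pool.Agent.TH716.TW.Defs
import Pool.Agent.TH113.J1426

set_option autoImplicit false

namespace Pool.Agent.TH113.J1427

open Pool.Agent.TH716.TW Pool.Agent.TH113.J1426

open Polynomial in
/-- `x³ + x² - 2x - 1` has no root modulo `s` if `s % 7 ∈ {2,3,4,5}` -/
lemma noroot (s : ℕ) [hs : Fact s.Prime] (h : s % 7 = 2 ∨ s % 7 = 3 ∨ s % 7 = 4 ∨ s % 7 = 5)
    (t : ZMod s) : t ^ 3 + t ^ 2 - 2 * t - 1 ≠ 0 := by
  intro ht
  obtain ⟨τ, hτ⟩ : ∃ τ : AlgebraicClosure (ZMod s), τ = algebraMap (ZMod s) _ t := ⟨_, rfl⟩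
  have hroot : τ ^ 3 + τ ^ 2 - 2 * τ - 1 = 0 := by
    have := congrArg (algebraMap (ZMod s) (AlgebraicClosure (ZMod s))) ht
    simpa [hτ, map_ofNat] using this
  have hfrob : τ ^ s = τ := by
    rw [hτ, ← map_pow, ZMod.pow_card]
  obtain ⟨z, hz⟩ := IsAlgClosed.exists_root
    (C (1 : AlgebraicClosure (ZMod s)) * X ^ 2 + C (-τ) * X + C 1)
    (by rw [degree_quadratic one_ne_zero]; decide)
  have hz' : z ^ 2 - τ * z + 1 = 0 := by
    have : 1 * z ^ 2 + (-τ) * z + 1 = 0 := by simpa [IsRoot] using hz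
    linear_combination this
  have hz0 : z ≠ 0 := by
    rintro rfl
    simp at hz'
  have hτz : τ = z + z⁻¹ := by
    field_simp
    linear_combination -hz'
  have h7 : z ^ 6 + z ^ 5 + z ^ 4 + z ^ 3 + z ^ 2 + z + 1 = 0 := by
    have e : z ^ 6 + z ^ 5 + z ^ 4 + z ^ 3 + z ^ 2 + z + 1
        = z ^ 3 * (τ ^ 3 + τ ^ 2 - 2 * τ - 1) := by
      rw [hτz]; field_simp; ring
    rw [e, hroot, mul_zero]
  have hz7 : z ^ 7 = 1 := by linear_combination (z - 1) * h7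
  have hz1 : z ≠ 1 := by
    rintro rfl
    have h8 : ((7 : ℕ) : AlgebraicClosure (ZMod s)) = 0 := by
      push_cast
      linear_combination h7
    rw [CharP.cast_eq_zero_iff (AlgebraicClosure (ZMod s)) s] at h8
    have h9 : s = 7 := (Nat.prime_dvd_prime_iff_eq hs.out (by norm_num)).1 h8
    omega
  have ho : orderOf z = 7 := by
    have : Fact (Nat.Prime 7) := ⟨by norm_num⟩
    exact orderOf_eq_prime hz7 hz1
  have hpow : z ^ s + (z ^ s)⁻¹ = z + z⁻¹ := by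
    have h1 : (z + z⁻¹) ^ s = z ^ s + (z⁻¹) ^ s := add_pow_char _ _ _
    rw [← hτz, hfrob, hτz, inv_pow] at h1
    exact h1.symm
  obtain ⟨w, hw⟩ : ∃ w, w = z ^ s := ⟨_, rfl⟩
  have hw0 : w ≠ 0 := by rw [hw]; exact pow_ne_zero _ hz0
  rw [← hw] at hpow
  have hprod : (w - z) * (w * z - 1) = 0 := by
    have h2 : (w - z) * (w * z - 1) = w * z * ((w + w⁻¹) - (z + z⁻¹)) := by
      field_simp; ring
    rw [h2, hpow, sub_self, mul_zero]
  have hs2 := hs.out.two_le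
  rcases mul_eq_zero.1 hprod with h3 | h3
  · have h4 : z ^ (s - 1) = 1 := by
      have h5 : z ^ (s - 1) * z = 1 * z := by
        rw [← pow_succ, Nat.sub_add_cancel (by omega), one_mul, ← hw]
        exact sub_eq_zero.1 h3
      exact mul_right_cancel₀ hz0 h5
    have h6 := orderOf_dvd_of_pow_eq_one h4
    rw [ho] at h6
    omega
  · have h4 : z ^ (s + 1) = 1 := by
      rw [pow_succ, ← hw]
      exact sub_eq_zero.1 h3
    have h6 := orderOf_dvd_of_pow_eq_one h4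
    rw [ho] at h6
    omega

lemma nsq2 : ¬ IsSquare ((2 : ℕ) : ZMod 5) := by decide
lemma nsq3 : ¬ IsSquare ((3 : ℕ) : ZMod 5) := by decide

lemma nosq (s : ℕ) [hs : Fact s.Prime] (h2 : s ≠ 2) (h : s % 5 = 2 ∨ s % 5 = 3)
    (t : ZMod s) : t ^ 2 - 5 ≠ 0 := by
  intro ht
  have h5p : Fact (Nat.Prime 5) := ⟨by norm_num⟩
  have h1 : IsSquare ((5 : ℕ) : ZMod s) := ⟨t, by push_cast; linear_combination -ht⟩
  rw [← ZMod.exists_sq_eq_prime_iff_of_mod_four_eq_one (p := 5) (q := s) (by norm_num) h2] at h1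
  have h3 : ((s : ℕ) : ZMod 5) = ((s % 5 : ℕ) : ZMod 5) := by
    rw [ZMod.natCast_mod]
  rw [h3] at h1
  rcases h with h | h
  · rw [h] at h1
    exact nsq2 h1
  · rw [h] at h1
    exact nsq3 h1

/-- valuation of a fraction in lowest terms, numerator form -/
lemma frac (r : ℚ) : ∃ a b : ℤ, b ≠ 0 ∧ IsCoprime a b ∧ r = (a : ℚ) / b := by
  refine ⟨r.num, (r.den : ℤ), by exact_mod_cast r.den_nz, ?_, ?_⟩
  · rw [Int.isCoprime_iff_gcd_eq_one]
    have := r.reduced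
    simpa [Int.gcd, Nat.Coprime] using this
  · push_cast
    exact (Rat.num_div_den r).symm

lemma not_both {s : ℕ} (hs : s.Prime) {a b : ℤ} (h : IsCoprime a b) :
    ¬ ((s : ℤ) ∣ a ∧ (s : ℤ) ∣ b) := by
  rintro ⟨h1, h2⟩
  obtain ⟨u, v, huv⟩ := h
  have : (s : ℤ) ∣ 1 := by
    rw [← huv]
    exact dvd_add (Dvd.dvd.mul_left h1 u) (Dvd.dvd.mul_left h2 v)
  have h3 : (s : ℤ).natAbs ∣ (1 : ℤ).natAbs := Int.natAbs_dvd_natAbs.2 this
  simp at h3
  exact hs.one_lt.ne' h3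

/-- `v(n2 r) ≥ 0` at odd primes inert in `ℚ(√5)` -/
lemma n2_int (s : ℕ) [hs : Fact s.Prime] (h2 : s ≠ 2) (h : s % 5 = 2 ∨ s % 5 = 3)
    (r : ℚ) (hr : r ≠ 0) : 0 ≤ padicValRat s (n2 r) := by
  obtain ⟨a, b, hb, hco, hab⟩ := frac r
  have ha : a ≠ 0 := by
    rintro rfl
    apply hr; rw [hab]; simp
  have hbq : (b : ℚ) ≠ 0 := by exact_mod_cast hb
  have haq : (a : ℚ) ≠ 0 := by exact_mod_cast ha
  have hndvd : ¬ (s : ℤ) ∣ a ^ 2 - 5 * b ^ 2 := by
    intro hd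
    have hd' : ((a ^ 2 - 5 * b ^ 2 : ℤ) : ZMod s) = 0 :=
      (ZMod.intCast_zmod_eq_zero_iff_dvd _ _).2 hd
    push_cast at hd'
    by_cases hbs : (b : ZMod s) = 0
    · rw [hbs] at hd'
      have ha0 : (a : ZMod s) = 0 := by
        have : (a : ZMod s) ^ 2 = 0 := by linear_combination hd'
        exact pow_eq_zero_iff (two_ne_zero) |>.1 this
      exact not_both hs.out hco ⟨(ZMod.intCast_zmod_eq_zero_iff_dvd _ _).1 ha0,
        (ZMod.intCast_zmod_eq_zero_iff_dvd _ _).1 hbs⟩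
    · apply nosq s h2 h ((a : ZMod s) / (b : ZMod s))
      have e : ((a : ZMod s) / b) ^ 2 - 5 = ((a : ZMod s) ^ 2 - 5 * b ^ 2) / b ^ 2 := by
        field_simp
      rw [e, hd', zero_div]
  have hne : a ^ 2 - 5 * b ^ 2 ≠ 0 := by
    intro h0; rw [h0] at hndvd; exact hndvd (dvd_zero _)
  have hneq : ((a ^ 2 - 5 * b ^ 2 : ℤ) : ℚ) ≠ 0 := by exact_mod_cast hne
  have e : n2 r = (a : ℚ) ^ 2 / ((a ^ 2 - 5 * b ^ 2 : ℤ) : ℚ) := by
    have hd0 := sq_ne r
    unfold n2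
    rw [hab] at hd0 ⊢
    have hneq' : (a : ℚ) ^ 2 - 5 * (b : ℚ) ^ 2 ≠ 0 := by exact_mod_cast hneq
    push_cast
    have e2 : ((a : ℚ) / b) ^ 2 - 5 = ((a : ℚ) ^ 2 - 5 * (b : ℚ) ^ 2) / b ^ 2 := by
      field_simp
    rw [e2]
    field_simp
  rw [e, padicValRat.div (pow_ne_zero 2 haq) hneq, padicValRat.pow, padicValRat.of_int,
    padicValRat.of_int, padicValInt.eq_zero_of_not_dvd hndvd]
  omega

/-- `v(n3 r) ≥ 0` at primes inert in `ℚ(ζ₇)⁺` -/
lemma n3_int (s : ℕ) [hs : Fact s.Prime] (h : s % 7 = 2 ∨ s % 7 = 3 ∨ s % 7 = 4 ∨ s % 7 = 5)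
    (r : ℚ) (hr : r ≠ 0) : 0 ≤ padicValRat s (n3 r) := by
  obtain ⟨a, b, hb, hco, hab⟩ := frac r
  have ha : a ≠ 0 := by
    rintro rfl
    apply hr; rw [hab]; simp
  have hbq : (b : ℚ) ≠ 0 := by exact_mod_cast hb
  have haq : (a : ℚ) ≠ 0 := by exact_mod_cast ha
  have hndvd : ¬ (s : ℤ) ∣ a ^ 3 + a ^ 2 * b - 2 * a * b ^ 2 - b ^ 3 := by
    intro hd
    have hd' : ((a ^ 3 + a ^ 2 * b - 2 * a * b ^ 2 - b ^ 3 : ℤ) : ZMod s) = 0 :=
      (ZMod.intCast_zmod_eq_zero_iff_dvd _ _).2 hd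
    push_cast at hd'
    by_cases hbs : (b : ZMod s) = 0
    · rw [hbs] at hd'
      have ha0 : (a : ZMod s) = 0 := by
        have : (a : ZMod s) ^ 3 = 0 := by linear_combination hd'
        exact pow_eq_zero_iff (three_ne_zero) |>.1 this
      exact not_both hs.out hco ⟨(ZMod.intCast_zmod_eq_zero_iff_dvd _ _).1 ha0,
        (ZMod.intCast_zmod_eq_zero_iff_dvd _ _).1 hbs⟩
    · apply noroot s h ((a : ZMod s) / (b : ZMod s))
      have e : ((a : ZMod s) / b) ^ 3 + ((a : ZMod s) / b) ^ 2 - 2 * ((a : ZMod s) / b) - 1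
          = ((a : ZMod s) ^ 3 + a ^ 2 * b - 2 * a * b ^ 2 - b ^ 3) / b ^ 3 := by
        field_simp
      rw [e, hd', zero_div]
  have hne : a ^ 3 + a ^ 2 * b - 2 * a * b ^ 2 - b ^ 3 ≠ 0 := by
    intro h0; rw [h0] at hndvd; exact hndvd (dvd_zero _)
  have hneq : ((a ^ 3 + a ^ 2 * b - 2 * a * b ^ 2 - b ^ 3 : ℤ) : ℚ) ≠ 0 := by exact_mod_cast hne
  have e : n3 r = (a : ℚ) ^ 3 / ((a ^ 3 + a ^ 2 * b - 2 * a * b ^ 2 - b ^ 3 : ℤ) : ℚ) := by
    unfold n3
    rw [hab]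
    have hneq' : (a : ℚ) ^ 3 + a ^ 2 * b - 2 * a * b ^ 2 - b ^ 3 ≠ 0 := by exact_mod_cast hneq
    push_cast
    have e2 : ((a : ℚ) / b) ^ 3 + ((a : ℚ) / b) ^ 2 - 2 * ((a : ℚ) / b) - 1
        = ((a : ℚ) ^ 3 + a ^ 2 * b - 2 * a * b ^ 2 - b ^ 3) / b ^ 3 := by
      field_simp
    rw [e2]
    field_simp
  rw [e, padicValRat.div (pow_ne_zero 3 haq) hneq, padicValRat.pow, padicValRat.of_int,
    padicValRat.of_int, padicValInt.eq_zero_of_not_dvd hndvd]
  omega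

/-- lower bound for `v(n2 r)` when `v(r) > 0` -/
lemma n2_pos (s : ℕ) [hs : Fact s.Prime] (r : ℚ) (hr : r ≠ 0) (h : 0 < padicValRat s r) :
    2 * padicValRat s r - 1 ≤ padicValRat s (n2 r) := by
  have h5 : padicValRat s (5 : ℚ) ≤ 1 := by
    have e : ((5 : ℕ) : ℚ) = 5 := by norm_num
    rw [← e, padicValRat.of_nat]
    by_cases h5 : s = 5
    · subst h5
      rw [padicValNat.self (by norm_num)]
      norm_num
    · rw [padicValNat.eq_zero_of_not_dvd]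
      · norm_num
      · intro hd
        exact h5 ((Nat.prime_dvd_prime_iff_eq hs.out (by norm_num)).1 hd)
  have h1 : min (padicValRat s (r ^ 2 - 5)) (padicValRat s (-r ^ 2)) ≤ padicValRat s (5 : ℚ) := by
    have e : r ^ 2 - 5 + -r ^ 2 = -5 := by ring
    have h2 := padicValRat.min_le_padicValRat_add (p := s) (q := r ^ 2 - 5) (r := -r ^ 2)
      (by rw [e]; norm_num)
    rw [e, padicValRat.neg 5] at h2
    exact h2
  have h3 : padicValRat s (-r ^ 2) = 2 * padicValRat s r := by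
    rw [padicValRat.neg, padicValRat.pow]
    push_cast; rfl
  rw [h3] at h1
  have h4 : padicValRat s (r ^ 2 - 5) ≤ 1 := by
    rcases min_le_iff.1 h1 with h6 | h6
    · linarith
    · omega
  unfold n2
  rw [padicValRat.div (pow_ne_zero 2 hr) (sq_ne r), padicValRat.pow]
  push_cast
  linarith

/-- lower bound for `v(n3 r)` when `v(r) > 0` -/
lemma n3_pos (s : ℕ) [hs : Fact s.Prime] (r : ℚ) (hr : r ≠ 0) (h : 0 < padicValRat s r) :
    3 * padicValRat s r ≤ padicValRat s (n3 r) := by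
  have h0 : Ge s 1 (-(r ^ 3 + r ^ 2 - 2 * r)) := by
    have a1 : Ge s (padicValRat s r) r := Or.inr le_rfl
    have a2 : Ge s (padicValRat s r + 0) (r * (((-1 : ℤ) : ℚ))) := a1.mul (Ge.int _)
    have e : -(r ^ 3 + r ^ 2 - 2 * r) = r * ((-1 : ℤ) : ℚ) * (r * r + r + ((-2 : ℤ) : ℚ)) := by
      push_cast; ring
    rw [e]
    refine Ge.mono (k := padicValRat s r + 0 + 0) (a2.mul ?_) (by omega)
    refine Ge.add (Ge.add ?_ ?_) (Ge.int _)
    · exact Ge.mono (a1.mul a1) (by omega)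
    · exact Ge.mono a1 (by omega)
  have h4 : padicValRat s (r ^ 3 + r ^ 2 - 2 * r - 1) ≤ 0 := by
    by_contra hcon
    push Not at hcon
    have h1 : Ge s 1 (r ^ 3 + r ^ 2 - 2 * r - 1) := Or.inr hcon
    have h2 := h1.add h0
    have e : r ^ 3 + r ^ 2 - 2 * r - 1 + -(r ^ 3 + r ^ 2 - 2 * r) = -1 := by ring
    rw [e] at h2
    rcases h2 with h2 | h2
    · norm_num at h2
    · rw [padicValRat.neg, padicValRat.one] at h2
      omega
  unfold n3
  rw [padicValRat.div (pow_ne_zero 3 hr) (cub_ne r), padicValRat.pow]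
  push_cast
  linarith

lemma dd_two_pos (G : GrpFacts) (hrk : S_rk) (M : ℤ) (hM : M ≠ 0) : 0 < dd 2 (2 * M) := by
  obtain ⟨ρ, δ, hρ, hδ, h⟩ := hrk 2 Nat.prime_two
  have h2 : Fact (Nat.Prime 2) := ⟨Nat.prime_two⟩
  have hz : zz 2 = 9 / 4 := by
    have := (G.dbl 1 one_ne_zero).1
    rw [G.one.1, G.one.2] at this
    rw [show (2 : ℤ) = 2 * 1 by norm_num, this]
    norm_num
  have hv : padicValRat 2 (zz 2) = -2 := by
    rw [hz, show (9 / 4 : ℚ) = ((9 : ℕ) : ℚ) / (((2 : ℕ) : ℚ) ^ 2) by norm_num,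
      padicValRat.div (by norm_num) (by norm_num), padicValRat.of_nat,
      padicValNat.eq_zero_of_not_dvd (by norm_num), padicValRat.pow,
      padicValRat.self (by norm_num)]
    norm_num
  have hd : dd 2 2 = 1 := by
    unfold dd
    rw [hv]; rfl
  have h22 := h 2 two_ne_zero
  rw [hd] at h22
  have hdiv : (ρ : ℤ) ∣ 2 := by
    by_contra hcon
    rw [if_neg hcon] at h22
    exact one_ne_zero h22
  rw [h (2 * M) (by omega), if_pos (Dvd.dvd.mul_right hdiv M)]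
  omega

/-- the multiple -/
lemma mult (_G : GrpFacts) (hrk : S_rk) (M : ℤ) (hM : M ≠ 0) (T : Finset ℕ)
    (hT : ∀ s ∈ T, s.Prime) (E : ℕ) :
    ∃ M' : ℤ, M' ≠ 0 ∧ ∀ s ∈ T, dd s (2 * M) + E ≤ dd s (2 * M') := by
  choose! ρ δ hρ using hrk
  have hfac : ∀ s ∈ T, ((ρ s * s ^ E : ℕ) : ℤ) ≠ 0 := by
    intro s hs
    have h1 := (hρ s (hT s hs)).1
    have h2 := (hT s hs).pos
    have : 0 < ρ s * s ^ E := by positivity
    exact_mod_cast this.ne'
  refine ⟨M * ∏ s ∈ T, ((ρ s * s ^ E : ℕ) : ℤ), mul_ne_zero hM (Finset.prod_ne_zero_iff.2 hfac),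
    ?_⟩
  intro s hs
  have hsp := hT s hs
  have hF : Fact s.Prime := ⟨hsp⟩
  obtain ⟨h1, h2, h3⟩ := hρ s hsp
  have hρ0 : (ρ s : ℤ) ≠ 0 := by exact_mod_cast h1.ne'
  obtain ⟨R, hR⟩ : ∃ R, R = ∏ x ∈ T.erase s, ((ρ x * x ^ E : ℕ) : ℤ) := ⟨_, rfl⟩
  have hR0 : R ≠ 0 := by
    rw [hR]
    exact Finset.prod_ne_zero_iff.2 (fun x hx => hfac x (Finset.mem_of_mem_erase hx))
  have hprod : ∏ x ∈ T, ((ρ x * x ^ E : ℕ) : ℤ) = ((ρ s * s ^ E : ℕ) : ℤ) * R := by
    rw [hR]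
    exact (Finset.mul_prod_erase T (fun x => ((ρ x * x ^ E : ℕ) : ℤ)) hs).symm
  have hs0 : (s : ℤ) ≠ 0 := by exact_mod_cast hsp.ne_zero
  have e : 2 * (M * ∏ x ∈ T, ((ρ x * x ^ E : ℕ) : ℤ)) = (ρ s : ℤ) * ((s : ℤ) ^ E * (2 * M * R)) := by
    rw [hprod]; push_cast; ring
  have h2M : (2 : ℤ) * M ≠ 0 := by omega
  have hbig : (ρ s : ℤ) * ((s : ℤ) ^ E * (2 * M * R)) ≠ 0 :=
    mul_ne_zero hρ0 (mul_ne_zero (pow_ne_zero _ hs0) (mul_ne_zero h2M hR0))
  have hpw : padicValInt s ((s : ℤ) ^ E) = E := by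
    have : ((s : ℤ) ^ E) = ((s ^ E : ℕ) : ℤ) := by push_cast; rfl
    rw [this, padicValInt.of_nat, padicValNat.prime_pow]
  have h4 : dd s ((ρ s : ℤ) * ((s : ℤ) ^ E * (2 * M * R)))
      = δ s + (E + (padicValInt s (2 * M) + padicValInt s R)) := by
    rw [h3 _ hbig, if_pos (dvd_mul_right _ _), Int.mul_ediv_cancel_left _ hρ0,
      padicValInt.mul (pow_ne_zero _ hs0) (mul_ne_zero h2M hR0), padicValInt.mul h2M hR0, hpw]
  rw [e, h4, h3 (2 * M) h2M]
  split_ifs with hdv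
  · obtain ⟨k, hk⟩ := hdv
    have hk0 : k ≠ 0 := by
      rintro rfl
      rw [mul_zero] at hk
      exact h2M hk
    rw [hk, Int.mul_ediv_cancel_left _ hρ0, padicValInt.mul hρ0 hk0]
    omega
  · omega

theorem result (G : GrpFacts) (hv : S_val) (hrk : S_rk) (h5 : S_T5c) (h7 : S_T7c) : S_exist := by
  intro M hM
  have hx0 : zz (2 * M) ≠ 0 := (G.pos M hM).ne'
  have h2M : 2 * M ≠ 0 := by omega
  have hy0 : yy (2 * M) ≠ 0 := G.y_ne _ h2M
  obtain ⟨T, hTdef⟩ : ∃ T : Finset ℕ, T = (zz (2 * M)).den.primeFactors ∪ {5, 7} := ⟨_, rfl⟩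
  have hT : ∀ s ∈ T, s.Prime := by
    intro s hs
    rw [hTdef, Finset.mem_union] at hs
    rcases hs with hs | hs
    · exact Nat.prime_of_mem_primeFactors hs
    · simp only [Finset.mem_insert, Finset.mem_singleton] at hs
      rcases hs with rfl | rfl <;> norm_num
  have h5T : 5 ∈ T := by rw [hTdef]; simp
  have h7T : 7 ∈ T := by rw [hTdef]; simp
  have hdT : ∀ s : ℕ, s.Prime → 0 < dd s (2 * M) → s ∈ T := by
    intro s hs hd
    rw [hTdef, Finset.mem_union]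
    left
    rw [Nat.mem_primeFactors]
    refine ⟨hs, ?_, (zz (2 * M)).den_nz⟩
    by_contra hcon
    have h1 := ((hv s hs (2 * M) h2M).2 hd).1
    unfold padicValRat at h1
    rw [padicValNat.eq_zero_of_not_dvd hcon] at h1
    omega
  obtain ⟨E, hE⟩ : ∃ E, E = ∑ s ∈ T, dd s (2 * M) + 1 := ⟨_, rfl⟩
  have hEge : ∀ s ∈ T, dd s (2 * M) + 1 ≤ E := by
    intro s hs
    rw [hE]
    exact Nat.add_le_add_right
      (Finset.single_le_sum (f := fun s => dd s (2 * M)) (fun _ _ => Nat.zero_le _) hs) 1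
  obtain ⟨M', hM', hdd⟩ := mult G hrk M hM T hT E
  have hx0' : zz (2 * M') ≠ 0 := (G.pos M' hM').ne'
  have h2M' : 2 * M' ≠ 0 := by omega
  refine ⟨M', hM', ?_⟩
  obtain ⟨r, hr⟩ : ∃ r, r = zz (2 * M) / zz (2 * M') := ⟨_, rfl⟩
  have hr0 : r ≠ 0 := by rw [hr]; exact div_ne_zero hx0 hx0'
  unfold StepT
  rw [← hr]
  -- valuations of `zz (2 M)`
  have hxlow : ∀ s : ℕ, s.Prime → -2 * (dd s (2 * M) : ℤ) ≤ padicValRat s (zz (2 * M)) := by
    intro s hs
    rcases Nat.eq_zero_or_pos (dd s (2 * M)) with h | h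
    · rcases ((hv s hs _ h2M).1 h).1 with h1 | h1
      · exact absurd h1 hx0
      · rw [h]; push_cast; linarith
    · exact ((hv s hs _ h2M).2 h).1.ge
  have hvr : ∀ s ∈ T, 2 * (E : ℤ) ≤ padicValRat s r ∧
      padicValRat s (zz (2 * M)) + 2 * (E : ℤ) + 2 * (dd s (2 * M) : ℤ) ≤ padicValRat s r := by
    intro s hs
    have hsp := hT s hs
    have hF : Fact s.Prime := ⟨hsp⟩
    have h1 := hdd s hs
    have h2 := hEge s hs
    have h3 := ((hv s hsp _ h2M').2 (by omega)).1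
    have h4 := hxlow s hsp
    rw [hr, padicValRat.div hx0 hx0', h3]
    constructor <;> omega
  have hn2 : n2 r ≠ 0 := div_ne_zero (pow_ne_zero 2 hr0) (sq_ne r)
  have hn3 : n3 r ≠ 0 := div_ne_zero (pow_ne_zero 3 hr0) (cub_ne r)
  have hd2 := dd_two_pos G hrk M hM
  have hvN : ∀ s : ℕ, s.Prime → padicValRat s (1 / yy (2 * M)) ≤ 3 * (dd s (2 * M) : ℤ) := by
    intro s hs
    have hF : Fact s.Prime := ⟨hs⟩
    rw [padicValRat.div one_ne_zero hy0, padicValRat.one]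
    rcases Nat.eq_zero_or_pos (dd s (2 * M)) with h | h
    · have := ((hv s hs _ h2M).1 h).2
      rw [h]; push_cast; linarith
    · have := ((hv s hs _ h2M).2 h).2
      rw [this]; linarith
  constructor
  · refine h5 _ _ (one_div_ne_zero hy0) hn2 ?_ ?_
    · intro s hs hs5 hodd
      have hF : Fact s.Prime := ⟨hs⟩
      have h1 := hvN s hs
      rcases Nat.eq_zero_or_pos (dd s (2 * M)) with h | h
      · have hs2 : s ≠ 2 := by
          rintro rfl
          omega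
        have h2 := n2_int s hs2 hs5 r hr0
        rw [h] at h1
        have h3 : padicValRat s (1 / yy (2 * M)) ≠ 0 := by
          intro h3
          rw [h3] at hodd
          exact (by decide : ¬ Odd (0 : ℤ)) hodd
        omega
      · have hsT := hdT s hs h
        have h2 := hvr s hsT
        have h3 := hEge s hsT
        have h4 := n2_pos s r hr0 (by omega)
        omega
    · have hF : Fact (Nat.Prime 5) := ⟨by norm_num⟩
      have h1 := hvN 5 (by norm_num)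
      have h2 := hvr 5 h5T
      have h3 := hEge 5 h5T
      have h4 := n2_pos 5 r hr0 (by omega)
      omega
  · refine h7 _ _ (G.pos M hM) hn3 ?_ ?_
    · intro s hs h3s
      have hF : Fact s.Prime := ⟨hs.1⟩
      have h1 := hxlow s hs.1
      have hne : padicValRat s (zz (2 * M)) ≠ 0 := by
        intro h; rw [h] at h3s; exact h3s (dvd_zero _)
      rcases lt_or_gt_of_ne hne with h | h
      · rw [abs_of_neg h]
        have hd : 0 < dd s (2 * M) := by omega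
        have hsT := hdT s hs.1 hd
        have h2 := hvr s hsT
        have h3 := hEge s hsT
        have h4 := n3_pos s r hr0 (by omega)
        omega
      · rw [abs_of_pos h]
        have h4 := n3_int s hs.2 r hr0
        omega
    · have hF : Fact (Nat.Prime 7) := ⟨by norm_num⟩
      have h1 := hxlow 7 (by norm_num)
      have h2 := hvr 7 h7T
      have h3 := hEge 7 h7T
      have h4 := n3_pos 7 r hr0 (by omega)
      rw [abs_lt]
      constructor <;> omega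

end Pool.Agent.TH113.J1427

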