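import Mathlib

set_option autoImplicit false

open MeasureTheory Filter

namespace Pool.Agent.TH443.MJ

namespace H113

lemma hit (θ x : ℝ) (Q q : ℕ) (p : ℤ) (hq : 0 < q) (hqQ : q ≤ Q) (hco : IsCoprime p (q : ℤ))
    (hx : |x - p / q| ≤ 1 / ((Q + 1) * q)) (hbig : Q < 64 * q) :
    ∃ n : ℕ, ∃ m : ℤ, Q < n ∧ n ≤ 2 * Q ∧ |x - (m + θ) / n| < 192 / (Q : ℝ) ^ 2 := by
  obtain ⟨u, v, huv⟩ := hco
  obtain ⟨c, hc⟩ : ∃ c, c = ⌊θ * q⌋ := ⟨_, rfl⟩
  have hqz : (0 : ℤ) < q := by exact_mod_cast hq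
  obtain ⟨t, ht⟩ : ∃ t, t = (c * u - Q - 1) % (q : ℤ) := ⟨_, rfl⟩
  obtain ⟨d, hd⟩ : ∃ d, d = (c * u - Q - 1) / (q : ℤ) := ⟨_, rfl⟩
  have ht0 : 0 ≤ t := by rw [ht]; exact Int.emod_nonneg _ hqz.ne'
  have htq : t < q := by rw [ht]; exact Int.emod_lt_of_pos _ hqz
  have hdt : t + q * d = c * u - Q - 1 := by
    rw [ht, hd]; exact Int.emod_add_mul_ediv _ _
  obtain ⟨n, hn⟩ : ∃ n : ℕ, (n : ℤ) = Q + 1 + t := ⟨(Q + 1 + t).toNat, by omega⟩
  have hnQ : Q < n := by omega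
  have hn2 : n ≤ 2 * Q := by omega
  have hnp : (n : ℤ) * p = c + q * (-(c * v) - d * p) := by
    rw [hn]
    linear_combination c * huv + p * hdt
  refine ⟨n, -(c * v) - d * p, hnQ, hn2, ?_⟩
  obtain ⟨m, hm⟩ : ∃ m : ℤ, m = -(c * v) - d * p := ⟨_, rfl⟩
  rw [← hm] at hnp ⊢
  have hqr : (0 : ℝ) < q := by exact_mod_cast hq
  have hQr : (0 : ℝ) < Q := by
    have : 0 < Q := by omega
    exact_mod_cast this
  have hnr : (0 : ℝ) < n := by
    have : 0 < n := by omega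
    exact_mod_cast this
  have hnQr : (Q : ℝ) < n := by exact_mod_cast hnQ
  have hn2r : (n : ℝ) ≤ 2 * Q := by exact_mod_cast hn2
  have hbigr : (Q : ℝ) < 64 * q := by exact_mod_cast hbig
  have hnpr : (n : ℝ) * p = c + q * m := by exact_mod_cast hnp
  have hc1 : (c : ℝ) ≤ θ * q := by rw [hc]; exact Int.floor_le _
  have hc2 : θ * q < c + 1 := by rw [hc]; exact Int.lt_floor_add_one _
  have e1 : (n : ℝ) * x - m - θ = n * (x - p / q) + (c / q - θ) := by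
    have : (m : ℝ) = (n * p - c) / q := by
      rw [hnpr]; field_simp; ring
    rw [this]; field_simp; ring
  have h1 : |(c : ℝ) / q - θ| ≤ 1 / q := by
    rw [abs_le]
    constructor
    · rw [neg_le_sub_iff_le_add, ← sub_nonneg]
      have : (c : ℝ) / q + 1 / q - θ = (c + 1 - θ * q) / q := by field_simp
      rw [this]
      exact div_nonneg (by linarith) hqr.le
    · have : (c : ℝ) / q - θ = (c - θ * q) / q := by field_simp
      rw [this]
      exact div_le_div_of_nonneg_right (by linarith) hqr.le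
  have h2 : |(n : ℝ) * (x - p / q)| ≤ n * (1 / ((Q + 1) * q)) := by
    rw [abs_mul, abs_of_pos hnr]
    exact mul_le_mul_of_nonneg_left hx hnr.le
  have h3 : (n : ℝ) * (1 / ((Q + 1) * q)) < 2 / q := by
    rw [mul_one_div, div_lt_div_iff₀ (by positivity) hqr]
    nlinarith
  have h4 : |(n : ℝ) * x - m - θ| < 3 / q := by
    rw [e1]
    calc |(n : ℝ) * (x - p / q) + (c / q - θ)| ≤ |(n : ℝ) * (x - p / q)| + |(c : ℝ) / q - θ| :=
          abs_add_le _ _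
      _ < 2 / q + 1 / q := by linarith
      _ = 3 / q := by ring
  have e2 : x - (m + θ) / n = ((n : ℝ) * x - m - θ) / n := by field_simp; ring
  rw [e2, abs_div, abs_of_pos hnr, div_lt_div_iff₀ hnr (by positivity)]
  have h5 : |(n : ℝ) * x - m - θ| * q < 3 := by
    rw [lt_div_iff₀ hqr] at h4
    exact h4
  have h6 : (Q : ℝ) ^ 2 < 64 * q * n := by nlinarith
  have h7 : 0 ≤ |(n : ℝ) * x - m - θ| := abs_nonneg _
  calc |(n : ℝ) * x - m - θ| * (Q : ℝ) ^ 2 ≤ |(n : ℝ) * x - m - θ| * (64 * q * n) :=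
        mul_le_mul_of_nonneg_left h6.le h7
    _ = (|(n : ℝ) * x - m - θ| * q) * (64 * n) := by ring
    _ < 3 * (64 * n) := mul_lt_mul_of_pos_right h5 (by positivity)
    _ = 192 * n := by ring

/-- the exceptional set -/
def Exc (a b : ℝ) (Q : ℕ) : Set ℝ :=
  ⋃ q ∈ Finset.Icc 1 (Q / 64), ⋃ p ∈ Finset.Icc ⌈(q : ℝ) * a - 1⌉ ⌊(q : ℝ) * b + 1⌋,
    Set.Icc ((p : ℝ) / q - 1 / (q * Q)) ((p : ℝ) / q + 1 / (q * Q))

lemma sub_exc (θ a b : ℝ) (Q : ℕ) (hQ : 0 < Q) (x : ℝ) (hx : x ∈ Set.Icc a b)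
    (hno : ¬ ∃ n : ℕ, ∃ m : ℤ, Q < n ∧ n ≤ 2 * Q ∧ |x - (m + θ) / n| < 192 / (Q : ℝ) ^ 2) :
    x ∈ Exc a b Q := by
  obtain ⟨r, hr1, hr2⟩ := Real.exists_rat_abs_sub_le_and_den_le x hQ
  have hq : 0 < r.den := r.den_pos
  have hrr : (r : ℝ) = (r.num : ℝ) / (r.den : ℝ) := by
    exact Rat.cast_def r
  rw [hrr] at hr1
  have hco : IsCoprime r.num (r.den : ℤ) := by
    rw [Int.isCoprime_iff_gcd_eq_one]
    have := r.reduced
    simpa [Int.gcd, Nat.Coprime] using this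
  have hsm : 64 * r.den ≤ Q := by
    by_contra hcon
    push Not at hcon
    exact hno (hit θ x Q r.den r.num hq hr2 hco hr1 hcon)
  have hqr : (0 : ℝ) < r.den := by exact_mod_cast hq
  have hQr : (0 : ℝ) < Q := by exact_mod_cast hQ
  have hb1 : 1 / (((Q : ℝ) + 1) * r.den) ≤ 1 / (r.den * Q) := by
    apply one_div_le_one_div_of_le (by positivity)
    nlinarith
  have hb2 : (r.den : ℝ) * (1 / (r.den * Q)) ≤ 1 := by
    rw [mul_one_div, div_le_one (by positivity)]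
    have : (1 : ℝ) ≤ Q := by exact_mod_cast hQ
    nlinarith
  have h3 := hr1.trans hb1
  rw [abs_le] at h3
  obtain ⟨h3a, h3b⟩ := h3
  obtain ⟨δ, hδ⟩ : ∃ δ, δ = 1 / ((r.den : ℝ) * Q) := ⟨_, rfl⟩
  rw [← hδ] at h3a h3b hb2
  have hpq : (r.den : ℝ) * ((r.num : ℝ) / r.den) = r.num := by field_simp
  unfold Exc
  simp only [Set.mem_iUnion]
  refine ⟨r.den, ?_, r.num, ?_, ?_⟩
  · rw [Finset.mem_Icc]
    exact ⟨hq, by omega⟩
  · rw [Finset.mem_Icc]
    constructor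
    · rw [Int.ceil_le]
      have := mul_le_mul_of_nonneg_left h3b hqr.le
      have h4 := mul_le_mul_of_nonneg_left hx.1 hqr.le
      rw [mul_sub, hpq] at this
      linarith
    · rw [Int.le_floor]
      have := mul_le_mul_of_nonneg_left h3a hqr.le
      have h4 := mul_le_mul_of_nonneg_left hx.2 hqr.le
      rw [mul_sub, hpq] at this
      linarith
  · rw [Set.mem_Icc, ← hδ]
    constructor <;> linarith

lemma vol_exc (a b : ℝ) (hab : a < b) (Q : ℕ) (hQ : 0 < Q) :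
    volume (Exc a b Q) ≤ ENNReal.ofReal ((b - a) / 32 + 6 * (1 + Real.log Q) / Q) := by
  have hQr : (0 : ℝ) < Q := by exact_mod_cast hQ
  have h1 : volume (Exc a b Q) ≤ ∑ q ∈ Finset.Icc 1 (Q / 64),
      ENNReal.ofReal ((q * (b - a) + 3) * (2 / (q * Q))) := by
    unfold Exc
    refine (measure_biUnion_finset_le _ _).trans (Finset.sum_le_sum ?_)
    intro q hq
    rw [Finset.mem_Icc] at hq
    have hqr : (0 : ℝ) < q := by exact_mod_cast hq.1
    refine (measure_biUnion_finset_le _ _).trans ?_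
    have h2 : ∀ p ∈ Finset.Icc ⌈(q : ℝ) * a - 1⌉ ⌊(q : ℝ) * b + 1⌋,
        volume (Set.Icc ((p : ℝ) / q - 1 / (q * Q)) ((p : ℝ) / q + 1 / (q * Q)))
          = ENNReal.ofReal (2 / (q * Q)) := by
      intro p _
      rw [Real.volume_Icc]
      congr 1
      ring
    rw [Finset.sum_congr rfl h2, Finset.sum_const, Int.card_Icc, nsmul_eq_mul]
    have h3 : (((⌊(q : ℝ) * b + 1⌋ + 1 - ⌈(q : ℝ) * a - 1⌉).toNat : ℕ) : ENNReal)
        ≤ ENNReal.ofReal (q * (b - a) + 3) := by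
      rw [← ENNReal.ofReal_natCast]
      apply ENNReal.ofReal_le_ofReal
      have h4 := Int.floor_le ((q : ℝ) * b + 1)
      have h5 := Int.le_ceil ((q : ℝ) * a - 1)
      have h6 : (0 : ℝ) ≤ q * (b - a) + 3 := by
        have : 0 ≤ (q : ℝ) * (b - a) := mul_nonneg hqr.le (by linarith)
        linarith
      rcases le_total 0 (⌊(q : ℝ) * b + 1⌋ + 1 - ⌈(q : ℝ) * a - 1⌉) with h7 | h7
      · have h8 : (((⌊(q : ℝ) * b + 1⌋ + 1 - ⌈(q : ℝ) * a - 1⌉).toNat : ℕ) : ℝ)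
            = ((⌊(q : ℝ) * b + 1⌋ + 1 - ⌈(q : ℝ) * a - 1⌉ : ℤ) : ℝ) := by
          exact_mod_cast congrArg (fun z : ℤ => (z : ℝ)) (Int.toNat_of_nonneg h7)
        rw [h8]
        push_cast
        linarith
      · rw [Int.toNat_of_nonpos h7]
        simpa using h6
    calc _ ≤ ENNReal.ofReal (q * (b - a) + 3) * ENNReal.ofReal (2 / (q * Q)) :=
          mul_le_mul_left h3 _
      _ = _ := by
          rw [← ENNReal.ofReal_mul]
          have : 0 ≤ (q : ℝ) * (b - a) := mul_nonneg hqr.le (by linarith)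
          linarith
  refine h1.trans ?_
  rw [← ENNReal.ofReal_sum_of_nonneg]
  · apply ENNReal.ofReal_le_ofReal
    have h2 : ∀ q ∈ Finset.Icc 1 (Q / 64), ((q : ℝ) * (b - a) + 3) * (2 / (q * Q))
        = 2 * (b - a) / Q + (6 / Q) * (q : ℝ)⁻¹ := by
      intro q hq
      rw [Finset.mem_Icc] at hq
      have hqr : (0 : ℝ) < q := by exact_mod_cast hq.1
      field_simp
      ring
    rw [Finset.sum_congr rfl h2, Finset.sum_add_distrib, Finset.sum_const, ← Finset.mul_sum,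
      Nat.card_Icc, nsmul_eq_mul]
    have h3 : ∑ q ∈ Finset.Icc 1 (Q / 64), ((q : ℝ))⁻¹ ≤ 1 + Real.log Q := by
      have h4 : ∑ q ∈ Finset.Icc 1 (Q / 64), ((q : ℝ))⁻¹ ≤ ∑ q ∈ Finset.Icc 1 Q, ((q : ℝ))⁻¹ := by
        apply Finset.sum_le_sum_of_subset_of_nonneg
        · apply Finset.Icc_subset_Icc_right
          omega
        · intro i _ _
          positivity
      refine h4.trans ?_
      have h5 := harmonic_le_one_add_log Q
      rw [harmonic_eq_sum_Icc] at h5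
      push_cast at h5
      exact h5
    have h6 : (((Q / 64 + 1 - 1 : ℕ)) : ℝ) * (2 * (b - a) / Q) ≤ (b - a) / 32 := by
      have h7 : (((Q / 64 + 1 - 1 : ℕ)) : ℝ) ≤ Q / 64 := by
        rw [Nat.add_sub_cancel]
        exact Nat.cast_div_le
      have h8 : 0 ≤ 2 * (b - a) / (Q : ℝ) := div_nonneg (by linarith) hQr.le
      calc (((Q / 64 + 1 - 1 : ℕ)) : ℝ) * (2 * (b - a) / Q) ≤ (Q / 64) * (2 * (b - a) / Q) :=
            mul_le_mul_of_nonneg_right h7 h8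
        _ = (b - a) / 32 := by field_simp; ring
    have h9 : 6 / (Q : ℝ) * ∑ q ∈ Finset.Icc 1 (Q / 64), ((q : ℝ))⁻¹
        ≤ 6 * (1 + Real.log Q) / Q := by
      calc 6 / (Q : ℝ) * ∑ q ∈ Finset.Icc 1 (Q / 64), ((q : ℝ))⁻¹
          ≤ 6 / (Q : ℝ) * (1 + Real.log Q) := mul_le_mul_of_nonneg_left h3 (by positivity)
        _ = _ := by ring
    linarith
  · intro q _
    have : 0 ≤ (q : ℝ) * (b - a) := mul_nonneg (Nat.cast_nonneg q) (by linarith)
    have h2 : 0 ≤ 2 / ((q : ℝ) * Q) := by positivity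
    exact mul_nonneg (by linarith) h2

end H113

theorem cover_one (θ : ℝ) : ∃ κ : ℝ, 0 < κ ∧ ∀ a b : ℝ, 0 ≤ a → a < b → b ≤ 1 →
    ∀ᶠ k : ℕ in atTop,
      volume (Set.Icc a b \ {x : ℝ | ∃ n : ℕ, ∃ p : ℤ, 2 ^ k < n ∧ n ≤ 2 ^ (k + 1) ∧
        |x - (p + θ) / n| < κ / 4 ^ k}) ≤ ENNReal.ofReal ((b - a) / 8) := by
  refine ⟨192, by norm_num, ?_⟩
  intro a b _ hab _
  have hlim : Tendsto (fun k : ℕ => 6 * (1 + (k : ℝ)) / 2 ^ k) atTop (nhds 0) := by
    have h0 := tendsto_pow_const_div_const_pow_of_one_lt 0 (r := (2 : ℝ)) (by norm_num)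
    have h1 := tendsto_pow_const_div_const_pow_of_one_lt 1 (r := (2 : ℝ)) (by norm_num)
    have h2 := (h0.add h1).const_mul 6
    rw [add_zero, mul_zero] at h2
    refine h2.congr (fun k => ?_)
    rw [pow_zero, pow_one]
    ring
  have hev : ∀ᶠ k : ℕ in atTop, 6 * (1 + (k : ℝ)) / 2 ^ k < (b - a) / 16 :=
    hlim.eventually_lt_const (by linarith)
  filter_upwards [hev] with k hk
  have hQ : 0 < 2 ^ k := by positivity
  have hsub : (Set.Icc a b \ {x : ℝ | ∃ n : ℕ, ∃ p : ℤ, 2 ^ k < n ∧ n ≤ 2 ^ (k + 1) ∧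
        |x - (p + θ) / n| < 192 / 4 ^ k}) ⊆ H113.Exc a b (2 ^ k) := by
    rintro x ⟨hx, hno⟩
    apply H113.sub_exc θ a b (2 ^ k) hQ x hx
    rintro ⟨n, m, h1, h2, h3⟩
    apply hno
    refine ⟨n, m, h1, by rw [pow_succ]; omega, ?_⟩
    have e : ((2 ^ k : ℕ) : ℝ) ^ 2 = 4 ^ k := by
      push_cast
      rw [← pow_mul, mul_comm, pow_mul]
      norm_num
    rw [e] at h3
    exact h3
  refine (measure_mono hsub).trans ((H113.vol_exc a b hab (2 ^ k) hQ).trans ?_)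
  apply ENNReal.ofReal_le_ofReal
  have hlog : Real.log ((2 ^ k : ℕ) : ℝ) ≤ k := by
    push_cast
    rw [Real.log_pow]
    have h1 : Real.log 2 ≤ 1 := by
      have := Real.log_two_lt_d9
      linarith
    have h2 : (0 : ℝ) ≤ k := Nat.cast_nonneg k
    nlinarith
  have hpow : (0 : ℝ) < ((2 ^ k : ℕ) : ℝ) := by exact_mod_cast hQ
  have h3 : 6 * (1 + Real.log ((2 ^ k : ℕ) : ℝ)) / ((2 ^ k : ℕ) : ℝ)
      ≤ 6 * (1 + (k : ℝ)) / 2 ^ k := by
    have e : ((2 ^ k : ℕ) : ℝ) = 2 ^ k := by push_cast; rfl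
    rw [← e]
    exact div_le_div_of_nonneg_right (by linarith) hpow.le
  linarith

end Pool.Agent.TH443.MJ

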