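import Pool.Agent.TH332.DW.Facts
import Pool.Agent.TH332.DW.Grad

set_option autoImplicit false

namespace Pool.TH332.DW
open Metric Set Filter Topology

namespace H113

lemma sq_mul_exp (x : ℝ) (hx : 0 ≤ x) : x ^ 2 * Real.exp (-x) ≤ 1 := by
  have h1 := Real.quadratic_le_exp_of_nonneg (show 0 ≤ x / 2 by positivity)
  have h2 : x ≤ Real.exp (x / 2) := by nlinarith [sq_nonneg (x / 2 - 1)]
  have h3 : x ^ 2 ≤ Real.exp (x / 2) ^ 2 := by
    exact pow_le_pow_left₀ hx h2 2
  have h4 : Real.exp (x / 2) ^ 2 = Real.exp x := by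
    rw [← Real.exp_nat_mul]; congr 1; push_cast; ring
  rw [h4] at h3
  have h5 : Real.exp x * Real.exp (-x) = 1 := by
    rw [← Real.exp_add]; simp
  calc x ^ 2 * Real.exp (-x) ≤ Real.exp x * Real.exp (-x) :=
        mul_le_mul_of_nonneg_right h3 (Real.exp_pos _).le
    _ = 1 := h5

lemma hasDerivAt_e {x : ℝ} (hx : 0 < x) :
    HasDerivAt expNegInvGlue (Real.exp (-x⁻¹) * (x ^ 2)⁻¹) x := by
  have h1 : HasDerivAt (fun y : ℝ => Real.exp (-y⁻¹)) (Real.exp (-x⁻¹) * (x ^ 2)⁻¹) x := by
    have h2 := ((hasDerivAt_inv hx.ne').neg).exp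
    rw [neg_neg] at h2
    exact h2
  refine h1.congr_of_eventuallyEq ?_
  filter_upwards [lt_mem_nhds hx] with y hy
  unfold expNegInvGlue
  rw [if_neg (not_le.2 hy)]

lemma lip {q s : ℝ} (hq : 0 ≤ q) (hqs : q ≤ s) : expNegInvGlue s - expNegInvGlue q ≤ s - q := by
  have h := Convex.image_sub_le_mul_sub_of_deriv_le (convex_Ici (0 : ℝ)) (f := expNegInvGlue)
    (expNegInvGlue.contDiff (n := 0)).continuous.continuousOn
    (fun x hx => by
      rw [interior_Ici] at hx
      exact (hasDerivAt_e hx).differentiableAt.differentiableWithinAt)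
    (C := 1)
    (fun x hx => by
      rw [interior_Ici] at hx
      have hx' : 0 < x := hx
      rw [(hasDerivAt_e hx').deriv]
      have h1 := sq_mul_exp (x⁻¹) (by positivity)
      rw [inv_pow] at h1
      rw [mul_comm]
      exact h1)
    q hq s (hq.trans hqs) hqs
  linarith

lemma mono {q s : ℝ} (hqs : q ≤ s) : expNegInvGlue q ≤ expNegInvGlue s :=
  expNegInvGlue.monotone hqs

lemma cont : Continuous expNegInvGlue := (expNegInvGlue.contDiff (n := 0)).continuous

lemma gg_sub (q q' : ℝ) : gg q' - gg q = ∫ s in q..q', expNegInvGlue s := by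
  unfold gg
  exact intervalIntegral.integral_interval_sub_left (cont.intervalIntegrable _ _)
    (cont.intervalIntegrable _ _)

lemma gg_diff (q q' : ℝ) : gg q' - gg q - expNegInvGlue q * (q' - q)
    = ∫ s in q..q', (expNegInvGlue s - expNegInvGlue q) := by
  rw [gg_sub, intervalIntegral.integral_sub (cont.intervalIntegrable _ _)
    intervalIntegrable_const, intervalIntegral.integral_const, smul_eq_mul]
  ring

end H113

open H113

theorem gg_nonneg {q : ℝ} (hq : 0 ≤ q) : 0 ≤ gg q := by
  unfold gg
  exact intervalIntegral.integral_nonneg hq (fun s _ => expNegInvGlue.nonneg s)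

theorem gg_lower {q q' : ℝ} (hq : 0 ≤ q) (hq' : 0 ≤ q') :
    gg q + expNegInvGlue q * (q' - q) ≤ gg q' := by
  have h := gg_diff q q'
  have h0 : 0 ≤ ∫ s in q..q', (expNegInvGlue s - expNegInvGlue q) := by
    rcases le_total q q' with h1 | h1
    · refine intervalIntegral.integral_nonneg h1 (fun s hs => ?_)
      have := mono hs.1
      linarith
    · rw [intervalIntegral.integral_symm, ← intervalIntegral.integral_neg]
      refine intervalIntegral.integral_nonneg h1 (fun s hs => ?_)
      have := mono hs.2
      linarith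
  linarith

theorem gg_le {q : ℝ} (hq : 0 ≤ q) : gg q ≤ q * expNegInvGlue q := by
  have h := gg_lower hq le_rfl
  have h0 : gg 0 = 0 := by unfold gg; exact intervalIntegral.integral_same
  rw [h0] at h
  linarith

theorem gg_upper {q q' : ℝ} (hq : 0 ≤ q) (hq' : 0 ≤ q') :
    gg q' ≤ gg q + expNegInvGlue q * (q' - q) + (q' - q) ^ 2 := by
  have h := gg_diff q q'
  have h0 : ∫ s in q..q', (expNegInvGlue s - expNegInvGlue q) ≤ (q' - q) ^ 2 := by
    rcases le_total q q' with h1 | h1
    · have h2 : ∫ s in q..q', (expNegInvGlue s - expNegInvGlue q) ≤ ∫ _s in q..q', (q' - q) := by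
        refine intervalIntegral.integral_mono_on h1 ?_ intervalIntegrable_const (fun s hs => ?_)
        · exact (cont.sub continuous_const).intervalIntegrable _ _
        · have := lip hq hs.1
          have h3 := hs.2
          linarith
      rw [intervalIntegral.integral_const, smul_eq_mul] at h2
      linarith [h2, sq (q' - q)]
    · rw [intervalIntegral.integral_symm, ← intervalIntegral.integral_neg]
      have h2 : ∫ s in q'..q, -(expNegInvGlue s - expNegInvGlue q) ≤ ∫ _s in q'..q, (q - q') := by
        refine intervalIntegral.integral_mono_on h1 ?_ intervalIntegrable_const (fun s hs => ?_)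
        · exact (cont.sub continuous_const).neg.intervalIntegrable _ _
        · have := lip (hq'.trans hs.1) hs.2
          have h3 := hs.1
          linarith
      rw [intervalIntegral.integral_const, smul_eq_mul] at h2
      nlinarith [h2]
  linarith

end Pool.TH332.DW
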