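import Pool.Agent.TH28.FL.Dat

set_option autoImplicit false

universe u v

namespace Pool.Agent.TH113.J1773

open Module

section

variable {K : Type u} [Field K] {V : Type v} [AddCommGroup V] [Module K V]

/-- the action of an endomorphism of `V` on multilinear forms on the dual -/
noncomputable def AA (d : ℕ) (a : Module.End K V) :
    Module.End K (MultilinearMap K (fun _ : Fin d => Dual K V) K) :=
  ∑ i : Fin d, MultilinearMap.compLinearMapₗ (fun j => if j = i then a.dualMap else LinearMap.id)

lemma AA_apply (d : ℕ) (a : Module.End K V) (F : MultilinearMap K (fun _ : Fin d => Dual K V) K)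
    (ξ : Fin d → Dual K V) :
    AA d a F ξ = ∑ i, F (Function.update ξ i (ξ i ∘ₗ a)) := by
  unfold AA
  rw [LinearMap.sum_apply, _root_.sum_apply]
  refine Finset.sum_congr rfl fun i _ => ?_
  rw [MultilinearMap.compLinearMapₗ_apply, MultilinearMap.compLinearMap_apply]
  congr 1
  funext j
  by_cases h : j = i
  · subst h
    simp only [if_true, Function.update_self]
    rfl
  · simp only [if_neg h, Function.update_of_ne h]
    rfl

lemma AA_comm (d : ℕ) (a b : Module.End K V) :
    AA d a * AA d b - AA d b * AA d a = AA d (a * b - b * a) := by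
  apply LinearMap.ext
  intro F
  apply MultilinearMap.ext
  intro ξ
  rw [LinearMap.sub_apply, _root_.sub_apply, Module.End.mul_apply, Module.End.mul_apply,
    AA_apply, AA_apply, AA_apply]
  have h1 : ∀ i, (AA d b F) (Function.update ξ i (ξ i ∘ₗ a)) = ∑ j,
      F (Function.update (Function.update ξ i (ξ i ∘ₗ a)) j
        ((Function.update ξ i (ξ i ∘ₗ a)) j ∘ₗ b)) := fun i => AA_apply d b F _
  have h2 : ∀ i, (AA d a F) (Function.update ξ i (ξ i ∘ₗ b)) = ∑ j,
      F (Function.update (Function.update ξ i (ξ i ∘ₗ b)) j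
        ((Function.update ξ i (ξ i ∘ₗ b)) j ∘ₗ a)) := fun i => AA_apply d a F _
  simp only [h1, h2]
  rw [Finset.sum_comm (f := fun i j => F (Function.update (Function.update ξ i (ξ i ∘ₗ b)) j
        ((Function.update ξ i (ξ i ∘ₗ b)) j ∘ₗ a))), ← Finset.sum_sub_distrib]
  refine Finset.sum_congr rfl fun i _ => ?_
  rw [← Finset.sum_sub_distrib, Finset.sum_eq_single i]
  · rw [Function.update_self, Function.update_self, Function.update_idem, Function.update_idem,
      ← MultilinearMap.map_update_sub]
    congr 2
    apply LinearMap.ext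
    intro x
    simp
  · intro j _ hj
    rw [Function.update_of_ne hj, Function.update_of_ne (Ne.symm hj),
      Function.update_comm hj, sub_self]
  · intro h
    exact absurd (Finset.mem_univ i) h

lemma AA_nsmul (d n : ℕ) (a : Module.End K V) : AA d (n • a) = n • AA d a := by
  apply LinearMap.ext
  intro F
  apply MultilinearMap.ext
  intro ξ
  rw [LinearMap.smul_apply, _root_.smul_apply, AA_apply, AA_apply, Finset.smul_sum]
  refine Finset.sum_congr rfl fun i _ => ?_
  have e : ξ i ∘ₗ (n • a) = (n : K) • (ξ i ∘ₗ a) := by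
    apply LinearMap.ext
    intro x
    simp
  rw [e, MultilinearMap.map_update_smul]
  simp

lemma AA_neg (d : ℕ) (a : Module.End K V) : AA d (-a) = - AA d a := by
  apply LinearMap.ext
  intro F
  apply MultilinearMap.ext
  intro ξ
  rw [LinearMap.neg_apply, _root_.neg_apply, AA_apply, AA_apply, ← Finset.sum_neg_distrib]
  refine Finset.sum_congr rfl fun i _ => ?_
  have e : ξ i ∘ₗ (-a) = - (ξ i ∘ₗ a) := by
    apply LinearMap.ext
    intro x
    simp
  rw [e, MultilinearMap.map_update_neg]

/-- the form `ξ ↦ det (ξ i (w j))` -/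
noncomputable def FW {d : ℕ} (w : Fin d → V) : MultilinearMap K (fun _ : Fin d => Dual K V) K :=
  (Matrix.detRowAlternating (R := K) (n := Fin d)).toMultilinearMap.compLinearMap
    (fun _ => LinearMap.pi fun j => Module.Dual.eval K V (w j))

lemma FW_apply {d : ℕ} (w : Fin d → V) (ξ : Fin d → Dual K V) :
    FW w ξ = Matrix.det (Matrix.of fun i j => ξ i (w j)) := rfl

lemma FW_update {d : ℕ} (w : Fin d → V) (ξ : Fin d → Dual K V) (i : Fin d) (η : Dual K V) :
    FW w (Function.update ξ i η) =
      Matrix.det ((Matrix.of fun i j => ξ i (w j)).updateRow i (fun j => η (w j))) := by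
  rw [FW_apply]
  congr 1
  ext i' j
  by_cases h : i' = i
  · subst h
    simp
  · simp [Matrix.updateRow_ne h, Function.update_of_ne h]

lemma sum_det {d : ℕ} (X A : Matrix (Fin d) (Fin d) K) :
    ∑ i, (X.updateRow i (fun j => (X * A) i j)).det = A.trace * X.det := by
  have h1 : ∀ i, (X.updateRow i (fun j => (X * A) i j)).det = ((X * A) * X.adjugate) i i := by
    intro i
    rw [← Matrix.cramer_transpose_apply, Matrix.cramer_eq_adjugate_mulVec,
      ← Matrix.adjugate_transpose, Matrix.mulVec, dotProduct, Matrix.mul_apply]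
    refine Finset.sum_congr rfl fun k _ => ?_
    rw [Matrix.transpose_apply, mul_comm]
  calc ∑ i, (X.updateRow i (fun j => (X * A) i j)).det
      = Matrix.trace ((X * A) * X.adjugate) := Finset.sum_congr rfl fun i _ => h1 i
    _ = Matrix.trace (A * (X.adjugate * X)) := by
        rw [Matrix.mul_assoc, Matrix.trace_mul_comm, Matrix.mul_assoc]
    _ = A.trace * X.det := by
        rw [Matrix.adjugate_mul, Matrix.mul_smul, Matrix.mul_one, Matrix.trace_smul, smul_eq_mul,
          mul_comm]

lemma AA_FW {W : Submodule K V} {d : ℕ} (b : Basis (Fin d) K W) (a : Module.End K V)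
    (ha : ∀ x ∈ W, a x ∈ W) :
    AA d a (FW (fun j => (b j : V))) =
      LinearMap.trace K W (a.restrict ha) • FW (fun j => (b j : V)) := by
  apply MultilinearMap.ext
  intro ξ
  rw [AA_apply, _root_.smul_apply, LinearMap.trace_eq_matrix_trace K b, smul_eq_mul,
    FW_apply, ← sum_det]
  refine Finset.sum_congr rfl fun i _ => ?_
  rw [FW_update]
  congr 2
  funext j
  rw [Matrix.mul_apply, LinearMap.comp_apply]
  have h1 : a (b j : V) = ((a.restrict ha (b j) : W) : V) := rfl
  rw [h1, ← b.sum_repr (a.restrict ha (b j))]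
  rw [Submodule.coe_sum, map_sum]
  refine Finset.sum_congr rfl fun k _ => ?_
  rw [Submodule.coe_smul, map_smul, smul_eq_mul, LinearMap.toMatrix_apply, Matrix.of_apply,
    mul_comm]

end

theorem obs : Pool.Agent.TH28.FL.S_OBS.{u, v} := by
  intro K _ _ V _ _ _ h e f hhe hhf hef W he hh htr x hx
  obtain ⟨d, hd⟩ : ∃ d, finrank K W = d := ⟨_, rfl⟩
  obtain ⟨b⟩ : Nonempty (Basis (Fin d) K W) := ⟨Module.finBasisOfFinrankEq K W hd⟩
  obtain ⟨F, hF⟩ : ∃ F, F = FW (K := K) (fun j => (b j : V)) := ⟨_, rfl⟩
  -- `F ≠ 0` and `e F = 0`, `h F = 0`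
  have hext : ∀ g : Dual K W, ∃ g' : Dual K V, ∀ y : W, g' y = g y := by
    intro g
    obtain ⟨g', hg'⟩ := LinearMap.exists_extend g
    exact ⟨g', fun y => by rw [← hg']; rfl⟩
  choose ext hextd using hext
  have hcoord : ∀ i j, ext (b.coord i) (b j : V) = if i = j then 1 else 0 := by
    intro i j
    rw [hextd, Basis.coord_apply, Basis.repr_self, Finsupp.single_apply]
    by_cases hij : i = j
    · subst hij; simp
    · rw [if_neg hij, if_neg (Ne.symm hij)]
  have hFne : F ≠ 0 := by
    intro h0
    have h1 : F (fun i => ext (b.coord i)) = 1 := by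
      rw [hF, FW_apply]
      have : (Matrix.of fun i j => (ext (b.coord i)) (b j : V)) = (1 : Matrix (Fin d) (Fin d) K) := by
        ext i j
        rw [Matrix.of_apply, hcoord, Matrix.one_apply]
      rw [this, Matrix.det_one]
    rw [h0] at h1
    simp at h1
  have htre : LinearMap.trace K W (e.restrict he) = 0 := by
    have h1 : (h.restrict hh) * (e.restrict he) - (e.restrict he) * (h.restrict hh)
        = 2 • (e.restrict he) := by
      apply LinearMap.ext
      intro y
      apply Subtype.ext
      have := LinearMap.congr_fun hhe (y : V)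
      simpa using this
    have h2 := congrArg (LinearMap.trace K W) h1
    rw [map_sub, LinearMap.trace_mul_comm, sub_self, map_nsmul] at h2
    have h3 : (2 : K) * LinearMap.trace K W (e.restrict he) = 0 := by
      rw [h2, nsmul_eq_mul]; norm_num
    rcases mul_eq_zero.1 h3 with h4 | h4
    · exact absurd h4 two_ne_zero
    · exact h4
  have hhF : AA d h F = 0 := by rw [hF, AA_FW b h hh, htr, zero_smul]
  have heF : AA d e F = 0 := by rw [hF, AA_FW b e he, htre, zero_smul]
  have r1 : AA d h * AA d e - AA d e * AA d h = 2 • AA d e := by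
    rw [AA_comm, hhe, AA_nsmul]
  have r2 : AA d h * AA d f - AA d f * AA d h = -(2 • AA d f) := by
    rw [AA_comm, hhf, AA_neg, AA_nsmul]
  have r3 : AA d e * AA d f - AA d f * AA d e = AA d h := by
    rw [AA_comm, hef]
  have hfF : AA d f F = 0 := by
    by_cases hz : AA (K := K) (V := V) d h = 0
    · have e1 := LinearMap.congr_fun r2 F
      have e2 : (AA d h * AA d f - AA d f * AA d h) F = AA d h (AA d f F) - AA d f (AA d h F) := rfl
      have e3 : (-(2 • AA d f)) F = -(2 • (AA d f F)) := rfl
      have e4 : AA d h (AA d f F) = 0 := by rw [hz]; rfl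
      rw [e2, e3, e4, hhF, map_zero, sub_zero, eq_comm, neg_eq_zero] at e1
      have e5 : (2 : K) • (AA d f F) = 0 := by
        rw [← e1, ← Nat.cast_smul_eq_nsmul K]; norm_num
      rcases smul_eq_zero.1 e5 with h3 | h3
      · exact absurd h3 two_ne_zero
      · exact h3
    · let _ : LieRing (Module.End K (MultilinearMap K (fun _ : Fin d => Dual K V) K)) :=
        LieRing.ofAssociativeRing
      have t : IsSl2Triple (AA (K := K) (V := V) d h) (AA d e) (AA d f) :=
        ⟨hz, r3, r1, r2⟩
      have P : t.HasPrimitiveVectorWith F (0 : K) :=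
        ⟨hFne, by rw [Module.End.lie_apply, hhF, zero_smul], by
          rw [Module.End.lie_apply, heF]⟩
      have h1 := P.pow_toEnd_f_eq_zero_of_eq_nat (n := 0) (by simp)
      rw [zero_add, pow_one] at h1
      exact h1
  -- conclusion
  have hbj : ∀ j, f (b j : V) ∈ W := by
    intro j0
    by_contra hnot
    obtain ⟨η, hη1, hη2⟩ := Submodule.exists_dual_map_eq_bot_of_notMem hnot inferInstance
    have hηW : ∀ y ∈ W, η y = 0 := by
      intro y hy
      have : η y ∈ Submodule.map η W := ⟨y, hy, rfl⟩
      rw [hη2] at this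
      exact this
    obtain ⟨ξ, hξ⟩ : ∃ ξ : Fin d → Dual K V, ∀ i, ξ i = if i = j0 then η else ext (b.coord i) :=
      ⟨_, fun _ => rfl⟩
    have h1 : AA d f F ξ = 0 := by rw [hfF]; rfl
    rw [AA_apply, Finset.sum_eq_single j0] at h1
    · rw [hF, FW_update] at h1
      have hmat : (Matrix.of fun i j => ξ i (b j : V)).updateRow j0
          (fun j => (ξ j0 ∘ₗ f) (b j : V))
          = (1 : Matrix (Fin d) (Fin d) K).updateRow j0 (fun j => η (f (b j : V))) := by
        ext i j
        by_cases hi : i = j0
        · subst hi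
          rw [Matrix.updateRow_self, Matrix.updateRow_self, hξ, if_pos rfl, LinearMap.comp_apply]
        · rw [Matrix.updateRow_ne hi, Matrix.updateRow_ne hi, Matrix.of_apply, hξ, if_neg hi,
            hcoord, Matrix.one_apply]
      rw [hmat, ← Matrix.cramer_transpose_apply, Matrix.transpose_one, Matrix.cramer_one] at h1
      exact hη1 h1
    · intro i _ hi
      rw [hF, FW_update]
      apply Matrix.det_eq_zero_of_row_eq_zero j0
      intro j
      rw [Matrix.updateRow_ne (Ne.symm hi), Matrix.of_apply, hξ, if_pos rfl]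
      exact hηW _ (b j).2
    · intro h
      exact absurd (Finset.mem_univ j0) h
  have hx' : x = ((∑ j, b.repr ⟨x, hx⟩ j • b j : W) : V) := by
    rw [b.sum_repr]
  rw [hx', Submodule.coe_sum, map_sum]
  refine Submodule.sum_mem _ fun j _ => ?_
  rw [Submodule.coe_smul, map_smul]
  exact W.smul_mem _ (hbj j)

end Pool.Agent.TH113.J1773

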