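import Pool.Agent.TH281.DW.Stmts

set_option autoImplicit false
set_option maxHeartbeats 4000000

open MeasureTheory Complex Filter Topology Set
open scoped ENNReal Real

namespace Pool.Agent.TH113.J2108

open Pool.Agent.TH281.DW

noncomputable section

/-- the quadratic form -/
def Q (χ : Torus → ℝ) (G : Finset Z2) (c : Z2 → ℂ) : ℝ := ∫ x, χ x * ‖tr G c x‖ ^ 2 ∂tmu

lemma int_form (χ : Torus → ℝ) (hχ : Continuous χ) (G H : Finset Z2) (c c' : Z2 → ℂ) :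
    ∫ x, (χ x : ℂ) * (tr G c x * (starRingEnd ℂ) (tr H c' x)) ∂tmu =
      ∑ k ∈ G, ∑ l ∈ H, c k * (starRingEnd ℂ) (c' l) * ft χ (k - l) := by
  have h1 : ∀ x, (χ x : ℂ) * (tr G c x * (starRingEnd ℂ) (tr H c' x)) =
      ∑ k ∈ G, ∑ l ∈ H, (c k * (starRingEnd ℂ) (c' l)) * ((χ x : ℂ) * E (k - l) x) := by
    intro x
    unfold tr
    rw [map_sum, Finset.sum_mul_sum, Finset.mul_sum]
    refine Finset.sum_congr rfl fun k _ => ?_
    rw [Finset.mul_sum]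
    refine Finset.sum_congr rfl fun l _ => ?_
    rw [E_sub', map_mul]; ring
  simp only [h1]
  have hi : ∀ k l, Integrable (fun x => (c k * (starRingEnd ℂ) (c' l)) *
      ((χ x : ℂ) * E (k - l) x)) tmu :=
    fun k l => int_cont (continuous_const.mul
      ((Complex.continuous_ofReal.comp hχ).mul (continuous_E _)))
  rw [integral_finsetSum _ fun k _ => integrable_finsetSum _ fun l _ => hi k l]
  refine Finset.sum_congr rfl fun k _ => ?_
  rw [integral_finsetSum _ fun l _ => hi k l]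
  refine Finset.sum_congr rfl fun l _ => ?_
  rw [integral_const_mul]
  rfl

lemma Q_form (χ : Torus → ℝ) (hχ : Continuous χ) (G : Finset Z2) (c : Z2 → ℂ) :
    Q χ G c = (∑ k ∈ G, ∑ l ∈ G, c k * (starRingEnd ℂ) (c l) * ft χ (k - l)).re := by
  rw [← int_form χ hχ]
  have h3 : ∀ x, (χ x : ℂ) * (tr G c x * (starRingEnd ℂ) (tr G c x)) =
      ((χ x * ‖tr G c x‖ ^ 2 : ℝ) : ℂ) := by
    intro x
    rw [Complex.mul_conj, Complex.normSq_eq_norm_sq]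
    push_cast
    rfl
  simp only [h3]
  have h4 : ∫ x, ((χ x * ‖tr G c x‖ ^ 2 : ℝ) : ℂ) ∂tmu =
      ((∫ x, χ x * ‖tr G c x‖ ^ 2 ∂tmu : ℝ) : ℂ) := integral_ofReal
  rw [h4, Complex.ofReal_re]
  rfl

lemma Q_nonneg (χ : Torus → ℝ) (h0 : ∀ x, 0 ≤ χ x) (G : Finset Z2) (c : Z2 → ℂ) : 0 ≤ Q χ G c :=
  integral_nonneg (fun x => mul_nonneg (h0 x) (sq_nonneg _))

lemma Q_le (χ : Torus → ℝ) (hχ : Continuous χ) (h1 : ∀ x, χ x ≤ 1)
    (G : Finset Z2) (c : Z2 → ℂ) : Q χ G c ≤ ∑ k ∈ G, ‖c k‖ ^ 2 := by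
  rw [← integral_norm_sq_tr]
  unfold Q
  apply integral_mono
  · exact int_cont (hχ.mul ((continuous_tr G c).norm.pow 2))
  · exact int_cont ((continuous_tr G c).norm.pow 2)
  · intro x
    show χ x * ‖tr G c x‖ ^ 2 ≤ ‖tr G c x‖ ^ 2
    nlinarith [h1 x, sq_nonneg ‖tr G c x‖]

lemma int_two (χ : Torus → ℝ) (hχ : Continuous χ) (h0 : ∀ x, 0 ≤ χ x) (u v w : Torus → ℂ)
    (hu : Continuous u) (hv : Continuous v) (hw : Continuous w) (h : ∀ x, ‖u x‖ ≤ ‖v x‖ + ‖w x‖) :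
    ∫ x, χ x * ‖u x‖ ^ 2 ∂tmu ≤ 2 * ∫ x, χ x * ‖v x‖ ^ 2 ∂tmu + 2 * ∫ x, χ x * ‖w x‖ ^ 2 ∂tmu := by
  rw [← integral_const_mul, ← integral_const_mul, ← integral_add]
  · apply integral_mono
    · exact int_cont (hχ.mul (hu.norm.pow 2))
    · exact (int_cont (continuous_const.mul (hχ.mul (hv.norm.pow 2)))).add
        (int_cont (continuous_const.mul (hχ.mul (hw.norm.pow 2))))
    · intro x
      show χ x * ‖u x‖ ^ 2 ≤ 2 * (χ x * ‖v x‖ ^ 2) + 2 * (χ x * ‖w x‖ ^ 2)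
      have h2 : ‖u x‖ ^ 2 ≤ 2 * ‖v x‖ ^ 2 + 2 * ‖w x‖ ^ 2 := by
        have := h x
        have h3 : 0 ≤ ‖u x‖ := norm_nonneg _
        nlinarith [sq_nonneg (‖v x‖ - ‖w x‖)]
      nlinarith [mul_le_mul_of_nonneg_left h2 (h0 x)]
  · exact int_cont (continuous_const.mul (hχ.mul (hv.norm.pow 2)))
  · exact int_cont (continuous_const.mul (hχ.mul (hw.norm.pow 2)))

/-- cross terms -/
def X (χ : Torus → ℝ) (G H : Finset Z2) (c : Z2 → ℂ) : ℝ :=
  ∑ k ∈ G, ∑ l ∈ H, ‖c k‖ * ‖c l‖ * ‖ft χ (k - l)‖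

lemma Q_union (χ : Torus → ℝ) (hχ : Continuous χ) (G H : Finset Z2) (c : Z2 → ℂ)
    (hd : Disjoint G H) : Q χ G c + Q χ H c - 2 * X χ G H c ≤ Q χ (G ∪ H) c := by
  have e1 : Q χ (G ∪ H) c = Q χ G c + Q χ H c +
      2 * (∫ x, (χ x : ℂ) * (tr G c x * (starRingEnd ℂ) (tr H c x)) ∂tmu).re := by
    have hint : Integrable (fun x => (χ x : ℂ) * (tr G c x * (starRingEnd ℂ) (tr H c x))) tmu :=
      int_cont ((Complex.continuous_ofReal.comp hχ).mul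
        ((continuous_tr G c).mul (Complex.continuous_conj.comp (continuous_tr H c))))
    have e2 : (∫ x, (χ x : ℂ) * (tr G c x * (starRingEnd ℂ) (tr H c x)) ∂tmu).re =
        ∫ x, ((χ x : ℂ) * (tr G c x * (starRingEnd ℂ) (tr H c x))).re ∂tmu :=
      (Complex.reCLM.integral_comp_comm hint).symm
    rw [e2]
    unfold Q
    rw [← integral_const_mul, ← integral_add, ← integral_add]
    · apply integral_congr_ae
      filter_upwards with x
      have h1 : tr (G ∪ H) c x = tr G c x + tr H c x := by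
        unfold tr
        exact Finset.sum_union hd
      rw [h1, Complex.re_ofReal_mul]
      have h2 : ‖tr G c x + tr H c x‖ ^ 2 = ‖tr G c x‖ ^ 2 + ‖tr H c x‖ ^ 2 +
          2 * (tr G c x * (starRingEnd ℂ) (tr H c x)).re := by
        rw [← Complex.normSq_eq_norm_sq, ← Complex.normSq_eq_norm_sq, ← Complex.normSq_eq_norm_sq,
          Complex.normSq_add]
      rw [h2]
      ring
    · exact (int_cont (hχ.mul ((continuous_tr G c).norm.pow 2))).add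
        (int_cont (hχ.mul ((continuous_tr H c).norm.pow 2)))
    · exact (hint.re).const_mul 2
    · exact int_cont (hχ.mul ((continuous_tr G c).norm.pow 2))
    · exact int_cont (hχ.mul ((continuous_tr H c).norm.pow 2))
  rw [e1, int_form χ hχ]
  have h3 : |(∑ k ∈ G, ∑ l ∈ H, c k * (starRingEnd ℂ) (c l) * ft χ (k - l)).re| ≤ X χ G H c := by
    refine (Complex.abs_re_le_norm _).trans ?_
    unfold X
    refine (norm_sum_le _ _).trans (Finset.sum_le_sum fun k _ => ?_)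
    refine (norm_sum_le _ _).trans (Finset.sum_le_sum fun l _ => ?_)
    rw [norm_mul, norm_mul, RCLike.norm_conj]
  have := (abs_le.1 h3).1
  linarith

/-- far pairs -/
lemma X_far (hS : TaskSchur) (χ : Torus → ℝ) (Ct : ℝ) (hT : ∀ L : ℝ, 1 ≤ L → ∀ G : Finset Z2,
    (∀ n ∈ G, L ^ 2 < (fq n : ℝ)) → ∑ n ∈ G, ‖ft χ n‖ ≤ Ct / L) (G H : Finset Z2) (c : Z2 → ℂ)
    (L : ℝ) (hL : 1 ≤ L) (hC : 0 ≤ Ct) (hf : ∀ k ∈ G, ∀ l ∈ H, L ^ 2 < (fq (k - l) : ℝ))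
    (hG : ∑ k ∈ G, ‖c k‖ ^ 2 ≤ 1) (hH : ∑ k ∈ H, ‖c k‖ ^ 2 ≤ 1) : X χ G H c ≤ Ct / L := by
  have h1 := hS (fun n => ‖ft χ n‖) G H c c (fun _ _ => True) (Ct / L) (fun _ => norm_nonneg _)
    (fun K hK => hT L hL K (fun n hn => by
      obtain ⟨k, hk, l, hl, _, rfl⟩ := hK n hn
      exact hf k hk l hl))
  simp only [if_true] at h1
  refine h1.trans ?_
  have h2 : Real.sqrt (∑ k ∈ G, ‖c k‖ ^ 2) ≤ 1 := Real.sqrt_le_one.2 hG
  have h3 : Real.sqrt (∑ k ∈ H, ‖c k‖ ^ 2) ≤ 1 := Real.sqrt_le_one.2 hH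
  have h4 : 0 ≤ Ct / L := by positivity
  calc Ct / L * Real.sqrt (∑ k ∈ G, ‖c k‖ ^ 2) * Real.sqrt (∑ k ∈ H, ‖c k‖ ^ 2)
      ≤ Ct / L * 1 * 1 := by
        apply mul_le_mul (mul_le_mul_of_nonneg_left h2 h4) h3 (Real.sqrt_nonneg _) (by positivity)
    _ = Ct / L := by ring

/-- separated frequencies -/
lemma Q_sep (hS : TaskSchur) (χ : Torus → ℝ) (hχ : Continuous χ) (Ct : ℝ)
    (hT : ∀ L : ℝ, 1 ≤ L → ∀ G : Finset Z2,
    (∀ n ∈ G, L ^ 2 < (fq n : ℝ)) → ∑ n ∈ G, ‖ft χ n‖ ≤ Ct / L) (G : Finset Z2) (c : Z2 → ℂ)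
    (L : ℝ) (hL : 1 ≤ L) (hf : ∀ k ∈ G, ∀ l ∈ G, k ≠ l → L ^ 2 < (fq (k - l) : ℝ)) :
    (∫ x, χ x ∂tmu - Ct / L) * ∑ k ∈ G, ‖c k‖ ^ 2 ≤ Q χ G c := by
  classical
  have h1 := hS (fun n => ‖ft χ n‖) G G c c (fun k l => k ≠ l) (Ct / L) (fun _ => norm_nonneg _)
    (fun K hK => hT L hL K (fun n hn => by
      obtain ⟨k, hk, l, hl, hkl, rfl⟩ := hK n hn
      exact hf k hk l hl hkl))
  have h2 : Ct / L * Real.sqrt (∑ k ∈ G, ‖c k‖ ^ 2) * Real.sqrt (∑ k ∈ G, ‖c k‖ ^ 2) =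
      Ct / L * ∑ k ∈ G, ‖c k‖ ^ 2 := by
    rw [mul_assoc, Real.mul_self_sqrt (Finset.sum_nonneg (fun _ _ => sq_nonneg _))]
  rw [h2] at h1
  have hft0 : ft χ 0 = ((∫ x, χ x ∂tmu : ℝ) : ℂ) := by
    unfold ft
    simp only [E_zero, mul_one]
    exact integral_ofReal
  have h3 : ∑ k ∈ G, ∑ l ∈ G, ((if k = l then (∫ x, χ x ∂tmu) * ‖c k‖ ^ 2 else 0) -
      (if k ≠ l then ‖c k‖ * ‖c l‖ * ‖ft χ (k - l)‖ else 0)) ≤
      ∑ k ∈ G, ∑ l ∈ G, (c k * (starRingEnd ℂ) (c l) * ft χ (k - l)).re := by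
    apply Finset.sum_le_sum
    intro k _
    apply Finset.sum_le_sum
    intro l _
    by_cases hkl : k = l
    · subst hkl
      rw [if_pos rfl, if_neg (by simp), sub_zero, sub_self, hft0, Complex.mul_conj,
        Complex.normSq_eq_norm_sq, ← Complex.ofReal_mul, Complex.ofReal_re]
      rw [mul_comm]
    · rw [if_neg hkl, if_pos hkl, zero_sub]
      have h4 := Complex.abs_re_le_norm (c k * (starRingEnd ℂ) (c l) * ft χ (k - l))
      rw [norm_mul, norm_mul, RCLike.norm_conj] at h4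
      exact (abs_le.1 h4).1
  rw [Q_form χ hχ, Complex.re_sum]
  simp only [Complex.re_sum]
  refine le_trans ?_ h3
  simp only [Finset.sum_sub_distrib]
  have h5 : ∑ k ∈ G, ∑ l ∈ G, (if k = l then (∫ x, χ x ∂tmu) * ‖c k‖ ^ 2 else 0) =
      (∫ x, χ x ∂tmu) * ∑ k ∈ G, ‖c k‖ ^ 2 := by
    rw [Finset.mul_sum]
    apply Finset.sum_congr rfl
    intro k hk
    rw [Finset.sum_ite_eq, if_pos hk]
  have h6 : ∑ k ∈ G, ∑ l ∈ G, (if k ≠ l then ‖c k‖ * ‖c l‖ * ‖ft χ (k - l)‖ else 0) ≤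
      Ct / L * ∑ k ∈ G, ‖c k‖ ^ 2 := by
    refine le_trans (le_of_eq ?_) h1
    apply Finset.sum_congr rfl
    intro k _
    apply Finset.sum_congr rfl
    intro l _
    congr 1
  rw [h5]
  linarith

lemma nb_symm {T : ℝ} {k l : Z2} (h : nb T k l) : nb T l k := by
  unfold nb at *
  have : fq (l - k) = fq (k - l) := by
    unfold fq
    simp only [Pi.sub_apply]
    ring
  rw [this]
  exact h

lemma nb_self {T : ℝ} (hT : 0 ≤ T) (k : Z2) : nb T k k := by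
  unfold nb fq
  simp only [sub_self, Pi.zero_apply]
  norm_num
  exact Real.rpow_nonneg hT _

lemma cr_par {a b d : Z2} (ha : a ≠ 0) (h1 : cr a b = 0) (h2 : cr a d = 0) : cr b d = 0 := by
  have e0 : a 0 * cr b d = b 0 * cr a d - d 0 * cr a b := by unfold cr; ring
  have e1 : a 1 * cr b d = b 1 * cr a d - d 1 * cr a b := by unfold cr; ring
  rw [h1, h2, mul_zero, mul_zero, sub_zero] at e0 e1
  rcases mul_eq_zero.1 e0 with h | h
  · rcases mul_eq_zero.1 e1 with h' | h'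
    · exfalso
      apply ha
      funext i
      fin_cases i
      · exact h
      · exact h'
    · exact h'
  · exact h

lemma cr_neg {a d : Z2} (h : cr a d = 0) : cr (-a) d = 0 := by
  have : cr (-a) d = -cr a d := by
    unfold cr
    simp only [Pi.neg_apply]
    ring
  rw [this, h, neg_zero]

open Classical in
theorem main (h1 : TaskSchur) (h2 : TaskDir) (h3 : TaskLat1) (h4 : TaskLat2) (h5 : TaskLat3) :
    TaskFreq := by
  intro χ hχ hχ0 hχ1 hf0 hTail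
  obtain ⟨Ct, hCt, hTail⟩ := hTail
  obtain ⟨f0, hf0e⟩ : ∃ f0 : ℝ, f0 = ∫ x, χ x ∂tmu := ⟨_, rfl⟩
  rw [← hf0e] at hf0
  obtain ⟨D1, hD1⟩ := exists_nat_ge (2 * Ct / f0)
  obtain ⟨D0, hD0⟩ : ∃ D0 : ℕ, D0 = D1 + 1 := ⟨_, rfl⟩
  have hD0r : (1 : ℝ) ≤ D0 := by
    rw [hD0]
    push_cast
    linarith [Nat.cast_nonneg (α := ℝ) D1]
  have hCD : Ct / D0 ≤ f0 / 2 := by
    have e1 : 2 * Ct / f0 ≤ D0 := by
      rw [hD0]
      push_cast
      linarith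
    rw [div_le_iff₀ hf0] at e1
    rw [div_le_iff₀ (by linarith)]
    linarith
  obtain ⟨DD, hDD, hdir⟩ := h2 D0
  obtain ⟨T1, hT1, hL1⟩ := h3
  choose! g hg using h4
  obtain ⟨T3, hT3, hL3⟩ := h5 DD hDD
  obtain ⟨K, hK⟩ : ∃ K : ℝ, K = (Lines DD).card := ⟨_, rfl⟩
  have hK0 : 0 ≤ K := by rw [hK]; positivity
  obtain ⟨C1, hC1⟩ : ∃ C1 : ℝ, C1 = 4 + 2 * Ct := ⟨_, rfl⟩
  have hC1p : 0 < C1 := by rw [hC1]; positivity
  obtain ⟨C2, hC2⟩ : ∃ C2 : ℝ, C2 = 2 / f0 * C1 + 1 := ⟨_, rfl⟩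
  have hC2p : 0 < C2 := by rw [hC2]; positivity
  refine ⟨DD, hDD, 2 * C1 + 2 * C2 + (K + 1) ^ 2 * C2, by positivity,
    T1 + T3 + ∑ d ∈ DD, |g d| + (D0 : ℝ) ^ 8, ?_, ?_⟩
  · have e1 : 0 ≤ ∑ d ∈ DD, |g d| := Finset.sum_nonneg (fun _ _ => abs_nonneg _)
    have e2 : (0:ℝ) ≤ (D0 : ℝ) ^ 8 := by positivity
    linarith
  intro T hT F c e0 hF1 he0 hout hQ
  have g1 : 0 ≤ ∑ d ∈ DD, |g d| := Finset.sum_nonneg (fun _ _ => abs_nonneg _)
  have g2 : (0:ℝ) ≤ (D0 : ℝ) ^ 8 := by positivity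
  have hTT1 : T1 ≤ T := by linarith
  have hTT3 : T3 ≤ T := by linarith
  have hTg : ∀ d ∈ DD, g d ≤ T := by
    intro d hd
    have e1 : |g d| ≤ ∑ d ∈ DD, |g d| :=
      Finset.single_le_sum (f := fun d => |g d|) (fun _ _ => abs_nonneg _) hd
    have e2 := le_abs_self (g d)
    linarith
  have hT1' : 1 ≤ T := by linarith
  have hT0 : 0 ≤ T := by linarith
  have hD8 : ((D0 : ℝ)) ^ 2 ≤ T ^ (1 / 4 : ℝ) := by
    have e1 : (D0 : ℝ) ^ 8 ≤ T := by linarith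
    calc ((D0 : ℝ)) ^ 2 = ((D0 : ℝ) ^ 8) ^ (1 / 4 : ℝ) := by
          rw [← Real.rpow_natCast (D0 : ℝ) 8, ← Real.rpow_mul (by positivity)]
          norm_num
      _ ≤ T ^ (1 / 4 : ℝ) := Real.rpow_le_rpow g2 e1 (by norm_num)
  obtain ⟨L, hL⟩ : ∃ L : ℝ, L = T ^ (1 / 8 : ℝ) := ⟨_, rfl⟩
  have hL1' : 1 ≤ L := by rw [hL]; exact Real.one_le_rpow hT1' (by norm_num)
  have hL2 : L ^ 2 = T ^ (1 / 4 : ℝ) := by
    rw [hL, ← Real.rpow_natCast, ← Real.rpow_mul hT0]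
    norm_num
  have hCL : Ct / L ≤ Ct * e0 := by
    rw [div_eq_mul_inv]
    apply mul_le_mul_of_nonneg_left _ hCt.le
    rw [hL, ← Real.rpow_neg hT0]
    exact he0
  have he0p : 0 ≤ e0 := le_trans (Real.rpow_nonneg hT0 _) he0
  -- the sets
  obtain ⟨FA, hFA⟩ : ∃ FA : Finset Z2, FA = F.filter (An T) := ⟨_, rfl⟩
  obtain ⟨out, houte⟩ : ∃ out : Finset Z2, out = F.filter (fun k => ¬ An T k) := ⟨_, rfl⟩
  rw [← houte] at hout
  obtain ⟨sm, hsm⟩ : ∃ sm : Z2 → Prop, ∀ k, sm k ↔ ∃ k' ∈ FA, k' ≠ k ∧ nb T k k' ∧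
    ∃ d ∈ DD, cr (k - k') d = 0 := ⟨_, fun _ => Iff.rfl⟩
  obtain ⟨Fs, hFs⟩ : ∃ Fs : Finset Z2, Fs = FA.filter sm := ⟨_, rfl⟩
  obtain ⟨Fl, hFl⟩ : ∃ Fl : Finset Z2, Fl = FA.filter (fun k => ¬ sm k) := ⟨_, rfl⟩
  have mFA : ∀ k, k ∈ FA ↔ k ∈ F ∧ An T k := by intro k; rw [hFA, Finset.mem_filter]
  have mout : ∀ k, k ∈ out ↔ k ∈ F ∧ ¬ An T k := by intro k; rw [houte, Finset.mem_filter]
  have mFs : ∀ k, k ∈ Fs ↔ k ∈ FA ∧ sm k := by intro k; rw [hFs, Finset.mem_filter]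
  have mFl : ∀ k, k ∈ Fl ↔ k ∈ FA ∧ ¬ sm k := by intro k; rw [hFl, Finset.mem_filter]
  have nmono : ∀ G : Finset Z2, G ⊆ F → ∑ k ∈ G, ‖c k‖ ^ 2 ≤ 1 := fun G hG =>
    (Finset.sum_le_sum_of_subset_of_nonneg hG (fun _ _ _ => sq_nonneg _)).trans hF1
  have hFAF : FA ⊆ F := fun k hk => ((mFA k).1 hk).1
  have far_of_not_nb : ∀ k l, ¬ nb T k l → L ^ 2 < (fq (k - l) : ℝ) := by
    intro k l h
    rw [hL2]
    exact not_le.1 h
  -- Fs and Fl are far apart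
  have far1 : ∀ k ∈ Fs, ∀ l ∈ Fl, ¬ nb T k l := by
    intro k hk l hl hnb
    obtain ⟨hkA, hks⟩ := (mFs k).1 hk
    obtain ⟨hlA, hls⟩ := (mFl l).1 hl
    obtain ⟨k', hk'A, hkk', hnb', d, hd, hcr⟩ := (hsm k).1 hks
    have e1 := hL1 T hTT1 k' k l ((mFA _).1 hk'A).2 ((mFA _).1 hkA).2 ((mFA _).1 hlA).2
      (nb_symm hnb') (nb_symm hnb)
    have e2 : cr (k' - k) d = 0 := by
      have := cr_neg hcr
      rwa [neg_sub] at this
    have e3 := cr_par (sub_ne_zero.2 hkk') e1 e2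
    apply hls
    refine (hsm l).2 ⟨k, hkA, ?_, nb_symm hnb, d, hd, e3⟩
    rintro rfl
    exact hls hks
  -- lines of the small frequencies
  have exl : ∀ k ∈ Fs, ∃ l ∈ Lines DD, onl T l k := by
    intro k hk
    obtain ⟨hkA, hks⟩ := (mFs k).1 hk
    obtain ⟨k', hk'A, hkk', hnb', d, hd, hcr⟩ := (hsm k).1 hks
    obtain ⟨ε, hε, hon⟩ := (hg d (hDD.prim d hd)).2 T (hTg d hd) k k' ((mFA _).1 hkA).2
      ((mFA _).1 hk'A).2 (Ne.symm hkk') hnb' hcr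
    refine ⟨(d, ε), ?_, hon⟩
    unfold Lines
    rw [Finset.mem_product]
    refine ⟨hd, ?_⟩
    rcases hε with rfl | rfl <;> simp
  have unl : ∀ k ∈ FA, ∀ l ∈ Lines DD, ∀ l' ∈ Lines DD, onl T l k → onl T l' k → l = l' := by
    intro k hk l hl l' hl' h h'
    exact hL3 T hTT3 k k ((mFA _).1 hk).2 ((mFA _).1 hk).2 (nb_self hT0 k) l hl l' hl' h h'
  -- step 1
  have s1 : Q χ FA c ≤ 4 * e0 := by
    have e1 := int_two χ hχ hχ0 (tr FA c) (tr F c) (tr out c) (continuous_tr _ _)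
      (continuous_tr _ _) (continuous_tr _ _) (fun x => by
        have : tr FA c x = tr F c x - tr out c x := by
          unfold tr
          rw [hFA, houte, ← Finset.sum_filter_add_sum_filter_not F (An T) (fun k => c k * E k x)]
          ring
        rw [this]
        exact norm_sub_le _ _)
    have e2 : ∫ x, χ x * ‖tr out c x‖ ^ 2 ∂tmu ≤ e0 := (Q_le χ hχ hχ1 out c).trans hout
    have e3 : Q χ FA c = ∫ x, χ x * ‖tr FA c x‖ ^ 2 ∂tmu := rfl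
    rw [e3]
    linarith
  -- pieces of FA
  have piece : ∀ G : Finset Z2, G ⊆ FA → (∀ k ∈ G, ∀ l ∈ FA \ G, ¬ nb T k l) →
      Q χ G c ≤ C1 * e0 := by
    intro G hG hfar
    have e1 := Q_union χ hχ G (FA \ G) c Finset.disjoint_sdiff
    rw [Finset.union_sdiff_of_subset hG] at e1
    have e2 := X_far h1 χ Ct hTail G (FA \ G) c L hL1' hCt.le
      (fun k hk l hl => far_of_not_nb k l (hfar k hk l hl)) (nmono G (hG.trans hFAF))
      (nmono _ (Finset.sdiff_subset.trans hFAF))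
    have e3 := Q_nonneg χ hχ0 (FA \ G) c
    rw [hC1]
    linarith
  have hFlA : Fl ⊆ FA := fun k hk => ((mFl k).1 hk).1
  have s2 : Q χ Fl c ≤ C1 * e0 := by
    apply piece Fl hFlA
    intro k hk l hl hnb
    rw [Finset.mem_sdiff] at hl
    have hls : sm l := by
      by_contra h
      exact hl.2 ((mFl l).2 ⟨hl.1, h⟩)
    exact far1 l ((mFs l).2 ⟨hl.1, hls⟩) k hk (nb_symm hnb)
  have s3 : ∑ k ∈ Fl, ‖c k‖ ^ 2 ≤ 2 / f0 * C1 * e0 := by
    have e1 := Q_sep h1 χ hχ Ct hTail Fl c (D0 : ℝ) hD0r (fun k hk l hl hkl => by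
      by_contra h
      have h' : (fq (k - l) : ℝ) ≤ (D0 : ℝ) ^ 2 := not_lt.1 h
      have h'' : fq (k - l) ≤ (D0 : ℤ) ^ 2 := by exact_mod_cast h'
      obtain ⟨d, hd, hcr⟩ := hdir (k - l) (sub_ne_zero.2 hkl) h''
      apply ((mFl k).1 hk).2
      exact (hsm k).2 ⟨l, hFlA hl, Ne.symm hkl, h'.trans hD8, d, hd, hcr⟩)
    rw [← hf0e] at e1
    have e2 : f0 / 2 * ∑ k ∈ Fl, ‖c k‖ ^ 2 ≤ C1 * e0 := by
      refine le_trans (mul_le_mul_of_nonneg_right (by linarith)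
        (Finset.sum_nonneg (fun _ _ => sq_nonneg _))) (e1.trans s2)
    have e3 : ∑ k ∈ Fl, ‖c k‖ ^ 2 = 2 / f0 * (f0 / 2 * ∑ k ∈ Fl, ‖c k‖ ^ 2) := by
      field_simp
    rw [e3, mul_assoc]
    exact mul_le_mul_of_nonneg_left e2 (by positivity)
  have s4 : ∑ k ∈ Fl ∪ out, ‖c k‖ ^ 2 ≤ C2 * e0 := by
    have e1 := Finset.sum_union_inter (s₁ := Fl) (s₂ := out) (f := fun k => ‖c k‖ ^ 2)
    have e2 : 0 ≤ ∑ k ∈ Fl ∩ out, ‖c k‖ ^ 2 := Finset.sum_nonneg (fun _ _ => sq_nonneg _)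
    rw [hC2]
    linarith
  constructor
  · intro l hl
    obtain ⟨Gl, hGl⟩ : ∃ Gl : Finset Z2, Gl = Fs.filter (onl T l) := ⟨_, rfl⟩
    have mGl : ∀ k, k ∈ Gl ↔ k ∈ Fs ∧ onl T l k := by intro k; rw [hGl, Finset.mem_filter]
    have hGA : Gl ⊆ FA := fun k hk => ((mFs k).1 ((mGl k).1 hk).1).1
    have s5 : Q χ Gl c ≤ C1 * e0 := by
      apply piece Gl hGA
      intro k hk k' hk' hnb
      rw [Finset.mem_sdiff] at hk'
      by_cases hs : sm k'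
      · have hk'F := (mFs k').2 ⟨hk'.1, hs⟩
        obtain ⟨l', hl', hon⟩ := exl k' hk'F
        have e1 := hL3 T hTT3 k k' ((mFA _).1 (hGA hk)).2 ((mFA _).1 hk'.1).2 hnb l hl l' hl'
          ((mGl k).1 hk).2 hon
        apply hk'.2
        rw [mGl, e1]
        exact ⟨hk'F, hon⟩
      · exact far1 k ((mGl k).1 hk).1 k' ((mFl k').2 ⟨hk'.1, hs⟩) hnb
    obtain ⟨W, hW⟩ : ∃ W : Finset Z2, W = F.filter (onl T l) := ⟨_, rfl⟩
    have mW : ∀ k, k ∈ W ↔ k ∈ F ∧ onl T l k := by intro k; rw [hW, Finset.mem_filter]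
    have hGW : Gl ⊆ W := fun k hk => (mW k).2 ⟨hFAF (hGA hk), ((mGl k).1 hk).2⟩
    have hR : W \ Gl ⊆ Fl ∪ out := by
      intro k hk
      rw [Finset.mem_sdiff] at hk
      rw [Finset.mem_union]
      by_cases hA : An T k
      · left
        have hkA := (mFA k).2 ⟨((mW k).1 hk.1).1, hA⟩
        rw [mFl]
        refine ⟨hkA, fun hs => hk.2 ?_⟩
        exact (mGl k).2 ⟨(mFs k).2 ⟨hkA, hs⟩, ((mW k).1 hk.1).2⟩
      · right
        exact (mout k).2 ⟨((mW k).1 hk.1).1, hA⟩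
    have e1 := int_two χ hχ hχ0 (tr W c) (tr Gl c) (tr (W \ Gl) c) (continuous_tr _ _)
      (continuous_tr _ _) (continuous_tr _ _) (fun x => by
        have : tr W c x = tr Gl c x + tr (W \ Gl) c x := by
          unfold tr
          rw [add_comm, Finset.sum_sdiff hGW]
        rw [this]
        exact norm_add_le _ _)
    have e2 : ∫ x, χ x * ‖tr (W \ Gl) c x‖ ^ 2 ∂tmu ≤ C2 * e0 :=
      (Q_le χ hχ hχ1 (W \ Gl) c).trans ((Finset.sum_le_sum_of_subset_of_nonneg hR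
        (fun _ _ _ => sq_nonneg _)).trans s4)
    have e3 : ∫ x, χ x * ‖tr Gl c x‖ ^ 2 ∂tmu ≤ C1 * e0 := s5
    have e4 : 0 ≤ (K + 1) ^ 2 * C2 * e0 := by positivity
    have e5 : ∫ x, χ x * ‖tr W c x‖ ^ 2 ∂tmu ≤ (2 * C1 + 2 * C2 + (K + 1) ^ 2 * C2) * e0 := by
      linarith
    rw [hW] at e5
    convert e5 using 5
  · obtain ⟨nl, hnl⟩ : ∃ nl : Z2 → ℕ, ∀ k, nl k = ((Lines DD).filter (fun l => onl T l k)).card :=
      ⟨_, fun _ => rfl⟩
    have e1 : ∀ x, tr F c x - ∑ l ∈ Lines DD, tr (F.filter (onl T l)) c x =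
        tr F (fun k => (1 - (nl k : ℂ)) * c k) x := by
      intro x
      unfold tr
      have e2 : ∑ l ∈ Lines DD, ∑ k ∈ F.filter (onl T l), c k * E k x =
          ∑ k ∈ F, (nl k : ℂ) * (c k * E k x) := by
        simp only [Finset.sum_filter]
        rw [Finset.sum_comm]
        apply Finset.sum_congr rfl
        intro k _
        rw [← Finset.sum_filter, Finset.sum_const, nsmul_eq_mul, hnl]
      rw [e2, ← Finset.sum_sub_distrib]
      apply Finset.sum_congr rfl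
      intro k _
      ring
    have e3 : ∫ x, ‖tr F c x - ∑ l ∈ Lines DD, tr (F.filter (onl T l)) c x‖ ^ 2 ∂tmu =
        ∑ k ∈ F, ‖(1 - (nl k : ℂ)) * c k‖ ^ 2 := by
      rw [← integral_norm_sq_tr]
      apply integral_congr_ae
      filter_upwards with x
      rw [e1]
    have e4 : ∑ k ∈ F, ‖(1 - (nl k : ℂ)) * c k‖ ^ 2 ≤
        ∑ k ∈ F, (if k ∈ Fl ∪ out then (K + 1) ^ 2 * ‖c k‖ ^ 2 else 0) := by
      apply Finset.sum_le_sum
      intro k hk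
      by_cases hkm : k ∈ Fl ∪ out
      · rw [if_pos hkm, norm_mul, mul_pow]
        apply mul_le_mul_of_nonneg_right _ (sq_nonneg _)
        apply pow_le_pow_left₀ (norm_nonneg _)
        refine (norm_sub_le _ _).trans ?_
        rw [norm_one, Complex.norm_natCast, add_comm]
        have : (nl k : ℝ) ≤ K := by
          rw [hK, hnl]
          exact_mod_cast Finset.card_filter_le _ _
        linarith
      · rw [if_neg hkm]
        rw [Finset.mem_union, not_or] at hkm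
        have hA : An T k := by
          by_contra h
          exact hkm.2 ((mout k).2 ⟨hk, h⟩)
        have hkA := (mFA k).2 ⟨hk, hA⟩
        have hs : sm k := by
          by_contra h
          exact hkm.1 ((mFl k).2 ⟨hkA, h⟩)
        obtain ⟨l, hl, hon⟩ := exl k ((mFs k).2 ⟨hkA, hs⟩)
        have hn1 : nl k = 1 := by
          rw [hnl, Finset.card_eq_one]
          refine ⟨l, ?_⟩
          ext l'
          rw [Finset.mem_filter, Finset.mem_singleton]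
          constructor
          · rintro ⟨h1, h2⟩
            exact (unl k hkA l hl l' h1 hon h2).symm
          · rintro rfl
            exact ⟨hl, hon⟩
        rw [hn1]
        simp
    have e5 : ∑ k ∈ F, (if k ∈ Fl ∪ out then (K + 1) ^ 2 * ‖c k‖ ^ 2 else 0) ≤
        (K + 1) ^ 2 * ∑ k ∈ Fl ∪ out, ‖c k‖ ^ 2 := by
      rw [← Finset.sum_filter, Finset.mul_sum]
      apply Finset.sum_le_sum_of_subset_of_nonneg
      · intro k hk
        exact (Finset.mem_filter.1 hk).2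
      · intro k _ _
        positivity
    have e6 : (K + 1) ^ 2 * ∑ k ∈ Fl ∪ out, ‖c k‖ ^ 2 ≤ (K + 1) ^ 2 * (C2 * e0) :=
      mul_le_mul_of_nonneg_left s4 (by positivity)
    have e7 : 0 ≤ 2 * C1 * e0 := by positivity
    have e8 : 0 ≤ 2 * C2 * e0 := by positivity
    have e9 : ∫ x, ‖tr F c x - ∑ l ∈ Lines DD, tr (F.filter (onl T l)) c x‖ ^ 2 ∂tmu ≤
        (2 * C1 + 2 * C2 + (K + 1) ^ 2 * C2) * e0 := by
      rw [e3]
      linarith
    convert e9 using 7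

end

end Pool.Agent.TH113.J2108
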