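import Mathlib
import Pool.Agent.TH949.TX.SDefs

/-! Measurability and growth of the summatory function (project TXS). -/

set_option autoImplicit false

open Complex MeasureTheory Set Filter Topology


namespace Pool.Agent.TH113.TXS_AA
open Pool.Agent.TH949.TX

theorem aa_term {ι : Type*} (d L : ι → ℝ) (u : ℝ) (i : ι) :
    ‖(open Classical in if L i ≤ u then d i else 0)‖ ≤
      |d i| * Real.exp (-(2 * L i)) * Real.exp (2 * u) := by
  have hnn : 0 ≤ |d i| * Real.exp (-(2 * L i)) * Real.exp (2 * u) := by positivity
  split_ifs with h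
  · rw [Real.norm_eq_abs, mul_assoc, ← Real.exp_add]
    have : (1 : ℝ) ≤ Real.exp (-(2 * L i) + 2 * u) := by
      apply Real.one_le_exp
      linarith
    nlinarith [abs_nonneg (d i)]
  · simpa using hnn

theorem aa_summ {ι : Type*} (d L : ι → ℝ)
    (h2 : Summable fun i => |d i| * Real.exp (-(2 * L i))) (u : ℝ) :
    Summable fun i => (open Classical in if L i ≤ u then d i else 0) :=
  Summable.of_norm_bounded (h2.mul_right (Real.exp (2 * u))) (aa_term d L u)

theorem aa_mono {ι : Type*} (d L : ι → ℝ) (hd : ∀ i, 0 ≤ d i)
    (h2 : Summable fun i => |d i| * Real.exp (-(2 * L i))) : Monotone (AA d L) := by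
  intro u v huv
  unfold AA
  refine Summable.tsum_le_tsum ?_ (aa_summ d L h2 u) (aa_summ d L h2 v)
  intro i
  by_cases h1 : L i ≤ u
  · rw [if_pos h1, if_pos (h1.trans huv)]
  · rw [if_neg h1]
    split_ifs
    · exact hd i
    · exact le_rfl

theorem t_AA {ι : Type*} [Countable ι] {d L : ι → ℝ} (hL : ∀ i, 0 ≤ L i)
    (h2 : Summable fun i => |d i| * Real.exp (-(2 * L i))) :
    Measurable (AA d L) ∧ (∀ u : ℝ, u < 0 → AA d L u = 0) ∧
    ∀ u : ℝ, |AA d L u| ≤ (∑' i, |d i| * Real.exp (-(2 * L i))) * Real.exp (2 * u) := by
  refine ⟨?_, ?_, ?_⟩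
  · have hp : Summable fun i => |max (d i) 0| * Real.exp (-(2 * L i)) := by
      refine Summable.of_nonneg_of_le (fun i => by positivity) (fun i => ?_) h2
      refine mul_le_mul_of_nonneg_right ?_ (Real.exp_pos _).le
      rw [abs_of_nonneg (le_max_right _ _)]
      exact max_le (le_abs_self _) (abs_nonneg _)
    have hn : Summable fun i => |max (-d i) 0| * Real.exp (-(2 * L i)) := by
      refine Summable.of_nonneg_of_le (fun i => by positivity) (fun i => ?_) h2
      refine mul_le_mul_of_nonneg_right ?_ (Real.exp_pos _).le
      rw [abs_of_nonneg (le_max_right _ _)]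
      exact max_le (neg_le_abs _) (abs_nonneg _)
    have m1 := (aa_mono (fun i => max (d i) 0) L (fun i => le_max_right _ _) hp).measurable
    have m2 := (aa_mono (fun i => max (-d i) 0) L (fun i => le_max_right _ _) hn).measurable
    have he : AA d L = fun u => AA (fun i => max (d i) 0) L u - AA (fun i => max (-d i) 0) L u := by
      funext u
      unfold AA
      rw [← Summable.tsum_sub (aa_summ _ L hp u) (aa_summ _ L hn u)]
      refine tsum_congr fun i => ?_
      split_ifs
      · rcases le_total 0 (d i) with h | h
        · rw [max_eq_left h, max_eq_right (by linarith)]; ring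
        · rw [max_eq_right h, max_eq_left (by linarith)]; ring
      · ring
    rw [he]
    exact m1.sub m2
  · intro u hu
    unfold AA
    have : ∀ i, (open Classical in if L i ≤ u then d i else 0) = 0 := by
      intro i
      rw [if_neg]
      have := hL i
      linarith
    simp only [this, tsum_zero]
  · intro u
    unfold AA
    rw [← tsum_mul_right]
    exact tsum_of_norm_bounded (h2.mul_right (Real.exp (2 * u))).hasSum (aa_term d L u)

end Pool.Agent.TH113.TXS_AA
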